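import Pool.Agent.Work.MP_db9399_all.Interface

/-!
# MP_db9399, ENGINE: expectations and Chernoff bounds in a product space (helper89)
-/

set_option autoImplicit false

namespace Pool.Agent.Work.MP_db9399_en

open Finset Classical
open Pool.Agent.Work.MP_db9399_all (pr DepOnI PackI)

universe u v

variable {J : Type u} [Fintype J] {M : ℕ}

/-- expectation -/
noncomputable def ex (f : (J → Fin M) → ℝ) : ℝ := (∑ ω, f ω) / (Fintype.card (J → Fin M) : ℝ)

/-- `a` on `Q`, `b` elsewhere -/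
noncomputable def mg (Q : Finset J) (a b : J → Fin M) : J → Fin M := fun j => if j ∈ Q then a j else b j

omit [Fintype J] in
theorem mg_mg (Q : Finset J) (a b : J → Fin M) : mg Q (mg Q a b) (mg Q b a) = a := by
  funext j
  simp only [mg]
  by_cases h : j ∈ Q <;> simp [h]

theorem card_pos (hM : 0 < M) : 0 < (Fintype.card (J → Fin M) : ℝ) := by
  have : Nonempty (Fin M) := ⟨⟨0, hM⟩⟩
  exact_mod_cast Fintype.card_pos

/-- exchange of the coordinates in `Q` between two independent points -/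
theorem sum_mg (Q : Finset J) (F : (J → Fin M) → (J → Fin M) → ℝ) :
    ∑ a, ∑ b, F a b = ∑ a, ∑ b, F (mg Q a b) (mg Q b a) := by
  rw [← Fintype.sum_prod_type', ← Fintype.sum_prod_type']
  exact (Equiv.sum_comp (⟨fun p => (mg Q p.1 p.2, mg Q p.2 p.1),
    fun p => (mg Q p.1 p.2, mg Q p.2 p.1), fun p => by simp [mg_mg], fun p => by simp [mg_mg]⟩ :
      ((J → Fin M) × (J → Fin M)) ≃ ((J → Fin M) × (J → Fin M))) (fun p => F p.1 p.2)).symm

theorem sum_fst (f : (J → Fin M) → ℝ) :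
    ∑ a : J → Fin M, ∑ _b : J → Fin M, f a = Fintype.card (J → Fin M) * ∑ a, f a := by
  simp only [sum_const, card_univ, nsmul_eq_mul, ← mul_sum]

theorem ex_mul (hM : 0 < M) (Q : Finset J) (f g : (J → Fin M) → ℝ) (hf : DepOnI Q f)
    (hg : DepOnI Qᶜ g) : ex (fun ω => f ω * g ω) = ex f * ex g := by
  have hc : (Fintype.card (J → Fin M) : ℝ) ≠ 0 := (card_pos hM).ne'
  have h1 : (Fintype.card (J → Fin M) : ℝ) * ∑ a, f a * g a = (∑ a, f a) * ∑ b, g b := by
    rw [← sum_fst, sum_mg Q, sum_mul_sum]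
    refine sum_congr rfl fun a _ => sum_congr rfl fun b _ => ?_
    have h2 : f (mg Q a b) = f a := hf _ _ fun j hj => by simp [mg, hj]
    have h3 : g (mg Q a b) = g b := hg _ _ fun j hj => by
      rw [mem_compl] at hj
      simp [mg, hj]
    rw [h2, h3]
  simp only [ex]
  field_simp
  linarith

omit [Fintype J] in
theorem depI_mono {β : Type v} {Q Q' : Finset J} {f : (J → Fin M) → β} (h : Q ⊆ Q')
    (hf : DepOnI Q f) : DepOnI Q' f := fun a b hab => hf a b fun j hj => hab j (h hj)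

theorem ex_one (hM : 0 < M) : ex (fun _ : J → Fin M => (1 : ℝ)) = 1 := by
  simp only [ex, sum_const, card_univ, nsmul_eq_mul, mul_one]
  exact div_self (card_pos hM).ne'

omit [Fintype J] in
theorem depI_prod {ι : Type v} (I : Finset ι) (Q : ι → Finset J) (g : ι → (J → Fin M) → ℝ)
    (hg : ∀ i ∈ I, DepOnI (Q i) (g i)) : DepOnI (I.biUnion Q) (fun ω => ∏ i ∈ I, g i ω) := by
  intro a b hab
  refine prod_congr rfl fun i hi => hg i hi a b fun j hj => hab j ?_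
  exact mem_biUnion.2 ⟨i, hi, hj⟩

/-- independence for disjoint scopes -/
theorem ex_prod (hM : 0 < M) {ι : Type v} (I : Finset ι) (Q : ι → Finset J)
    (g : ι → (J → Fin M) → ℝ) (hg : ∀ i ∈ I, DepOnI (Q i) (g i))
    (hQ : ∀ i ∈ I, ∀ i' ∈ I, i ≠ i' → Disjoint (Q i) (Q i')) :
    ex (fun ω => ∏ i ∈ I, g i ω) = ∏ i ∈ I, ex (g i) := by
  induction I using Finset.induction_on with
  | empty => simpa using ex_one hM
  | @insert i I hi ih =>
    simp only [prod_insert hi]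
    rw [ex_mul hM (Q i) (g i) (fun ω => ∏ i ∈ I, g i ω) (hg i (mem_insert_self i I)),
      ih (fun k hk => hg k (mem_insert_of_mem hk))
        (fun k hk k' hk' => hQ k (mem_insert_of_mem hk) k' (mem_insert_of_mem hk'))]
    refine depI_mono ?_ (depI_prod I Q g fun k hk => hg k (mem_insert_of_mem hk))
    intro j hj
    rw [mem_compl]
    intro hj'
    obtain ⟨k, hk, hjk⟩ := mem_biUnion.1 hj
    have hne : i ≠ k := fun h => hi (h ▸ hk)
    exact (Finset.disjoint_left.1 (hQ i (mem_insert_self i I) k (mem_insert_of_mem hk) hne) hj') hjk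

theorem ex_mono (hM : 0 < M) {f g : (J → Fin M) → ℝ} (h : ∀ ω, f ω ≤ g ω) : ex f ≤ ex g :=
  div_le_div_of_nonneg_right (sum_le_sum fun ω _ => h ω) (card_pos hM).le

theorem ex_add (f g : (J → Fin M) → ℝ) : ex (fun ω => f ω + g ω) = ex f + ex g := by
  simp only [ex, sum_add_distrib, add_div]

theorem ex_const_mul (c : ℝ) (f : (J → Fin M) → ℝ) : ex (fun ω => c * f ω) = c * ex f := by
  simp only [ex, ← mul_sum, mul_div_assoc]

theorem ex_nonneg {f : (J → Fin M) → ℝ} (h : ∀ ω, 0 ≤ f ω) : 0 ≤ ex f :=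
  div_nonneg (sum_nonneg fun ω _ => h ω) (Nat.cast_nonneg _)

theorem ex_sum {ι : Type v} (I : Finset ι) (g : ι → (J → Fin M) → ℝ) :
    ex (fun ω => ∑ i ∈ I, g i ω) = ∑ i ∈ I, ex (g i) := by
  simp only [ex]
  rw [sum_comm, sum_div]

/-- Markov -/
theorem markov (hM : 0 < M) {f : (J → Fin M) → ℝ} (h : ∀ ω, 0 ≤ f ω) {t : ℝ} (ht : 0 < t) :
    pr (fun ω => t ≤ f ω) ≤ ex f / t := by
  rw [pr, ex, div_div, mul_comm, ← div_div]
  refine div_le_div_of_nonneg_right ?_ (card_pos hM).le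
  rw [le_div_iff₀ ht, ← nsmul_eq_mul]
  refine (card_nsmul_le_sum _ f t fun ω hω => (mem_filter.1 hω).2).trans ?_
  exact sum_le_sum_of_subset_of_nonneg (filter_subset _ _) fun ω _ _ => h ω

theorem exp_bd {x B l : ℝ} (hx : 0 ≤ x) (hxB : x ≤ B) (hl : |l| * B ≤ 1) :
    Real.exp (l * x) ≤ 1 + (l + l ^ 2 * B) * x := by
  have h1 : |l * x| ≤ 1 := by
    rw [abs_mul, abs_of_nonneg hx]
    exact (mul_le_mul_of_nonneg_left hxB (abs_nonneg l)).trans hl
  have h2 := (abs_le.1 (Real.abs_exp_sub_one_sub_id_le h1)).2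
  have h3 : (l * x) ^ 2 ≤ l ^ 2 * B * x := by
    have : x ^ 2 ≤ B * x := by nlinarith
    calc (l * x) ^ 2 = l ^ 2 * x ^ 2 := by ring
      _ ≤ l ^ 2 * (B * x) := mul_le_mul_of_nonneg_left this (sq_nonneg l)
      _ = _ := by ring
  linarith

/-- the exponential moment of a sum with disjoint scopes -/
theorem ex_exp (hM : 0 < M) {ι : Type v} (I : Finset ι) (Q : ι → Finset J)
    (X : ι → (J → Fin M) → ℝ) {B : ℝ} (hX : ∀ i ∈ I, DepOnI (Q i) (X i))
    (hQ : ∀ i ∈ I, ∀ i' ∈ I, i ≠ i' → Disjoint (Q i) (Q i'))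
    (h0 : ∀ i ∈ I, ∀ ω, 0 ≤ X i ω) (hB : ∀ i ∈ I, ∀ ω, X i ω ≤ B) {l : ℝ} (hl : |l| * B ≤ 1) :
    ex (fun ω => Real.exp (l * ∑ i ∈ I, X i ω)) ≤
      Real.exp ((l + l ^ 2 * B) * ∑ i ∈ I, ex (X i)) := by
  have h1 : (fun ω => Real.exp (l * ∑ i ∈ I, X i ω)) =
      fun ω => ∏ i ∈ I, Real.exp (l * X i ω) := by
    funext ω
    rw [mul_sum, Real.exp_sum]
  rw [h1, ex_prod hM I Q (fun i ω => Real.exp (l * X i ω))
    (fun i hi a b hab => by simp only [hX i hi a b hab]) hQ, mul_sum, Real.exp_sum]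
  refine prod_le_prod (fun i _ => ex_nonneg fun ω => (Real.exp_pos _).le) fun i hi => ?_
  have h2 : ex (fun ω => Real.exp (l * X i ω)) ≤ ex (fun ω => 1 + (l + l ^ 2 * B) * X i ω) :=
    ex_mono hM fun ω => exp_bd (h0 i hi ω) (hB i hi ω) hl
  refine h2.trans ?_
  rw [ex_add, ex_one hM, ex_const_mul]
  have := Real.add_one_le_exp ((l + l ^ 2 * B) * ex (X i))
  linarith

/-- upper tail with parameter -/
theorem up_aux (hM : 0 < M) {ι : Type v} (I : Finset ι) (Q : ι → Finset J)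
    (X : ι → (J → Fin M) → ℝ) {B : ℝ} (hX : ∀ i ∈ I, DepOnI (Q i) (X i))
    (hQ : ∀ i ∈ I, ∀ i' ∈ I, i ≠ i' → Disjoint (Q i) (Q i'))
    (h0 : ∀ i ∈ I, ∀ ω, 0 ≤ X i ω) (hB : ∀ i ∈ I, ∀ ω, X i ω ≤ B) {l : ℝ} (hl : |l| * B ≤ 1)
    (t : ℝ) :
    pr (fun ω => l * t ≤ l * ∑ i ∈ I, X i ω) ≤
      Real.exp ((l + l ^ 2 * B) * ∑ i ∈ I, ex (X i) - l * t) := by
  have h1 := markov hM (f := fun ω => Real.exp (l * ∑ i ∈ I, X i ω)) (fun ω => (Real.exp_pos _).le)
    (Real.exp_pos (l * t))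
  have h2 := ex_exp hM I Q X hX hQ h0 hB hl
  have h3 : pr (fun ω => l * t ≤ l * ∑ i ∈ I, X i ω) =
      pr (fun ω => Real.exp (l * t) ≤ Real.exp (l * ∑ i ∈ I, X i ω)) := by
    simp only [Real.exp_le_exp]
  rw [h3]
  refine h1.trans ?_
  rw [Real.exp_sub]
  exact div_le_div_of_nonneg_right h2 (Real.exp_pos _).le

/-- **Chernoff, upper tail.** -/
theorem chern_up (hM : 0 < M) {ι : Type v} (I : Finset ι) (Q : ι → Finset J)
    (X : ι → (J → Fin M) → ℝ) {B m s : ℝ} (hX : ∀ i ∈ I, DepOnI (Q i) (X i))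
    (hQ : ∀ i ∈ I, ∀ i' ∈ I, i ≠ i' → Disjoint (Q i) (Q i'))
    (h0 : ∀ i ∈ I, ∀ ω, 0 ≤ X i ω) (hB : ∀ i ∈ I, ∀ ω, X i ω ≤ B) (hB0 : 0 < B) (hm0 : 0 < m)
    (hm : ∑ i ∈ I, ex (X i) ≤ m) (hs : 0 ≤ s) :
    pr (fun ω => m + s ≤ ∑ i ∈ I, X i ω) ≤ Real.exp (-(min (s ^ 2 / (4 * B * m)) (s / (2 * B)))) := by
  by_cases hc : s ≤ 2 * m
  · set l : ℝ := s / (2 * B * m) with hl
    have hl0 : 0 ≤ l := by positivity
    rcases hs.eq_or_lt with hs0 | hs0
    · -- trivial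
      have : Real.exp (-(min (s ^ 2 / (4 * B * m)) (s / (2 * B)))) = 1 := by
        rw [← hs0]
        simp
      rw [this, pr]
      exact div_le_one_of_le₀ (by
        have := card_le_univ (univ.filter fun ω : J → Fin M => m + s ≤ ∑ i ∈ I, X i ω)
        exact_mod_cast this) (Nat.cast_nonneg _)
    have hlp : 0 < l := by positivity
    have hl1 : |l| * B ≤ 1 := by
      rw [abs_of_nonneg hl0, hl]
      rw [div_mul_eq_mul_div, div_le_one (by positivity)]
      nlinarith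
    have h1 := up_aux hM I Q X hX hQ h0 hB hl1 (m + s)
    have h2 : pr (fun ω => m + s ≤ ∑ i ∈ I, X i ω) =
        pr (fun ω => l * (m + s) ≤ l * ∑ i ∈ I, X i ω) := by
      have : ∀ ω : J → Fin M, (m + s ≤ ∑ i ∈ I, X i ω) = (l * (m + s) ≤ l * ∑ i ∈ I, X i ω) :=
        fun ω => propext ⟨fun h => mul_le_mul_of_nonneg_left h hl0,
          fun h => le_of_mul_le_mul_left h hlp⟩
      simp only [this]
    rw [h2]
    refine h1.trans (Real.exp_le_exp.2 ?_)
    have h3 : (l + l ^ 2 * B) * ∑ i ∈ I, ex (X i) ≤ (l + l ^ 2 * B) * m :=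
      mul_le_mul_of_nonneg_left hm (by positivity)
    have h4 : l ^ 2 * B * m - l * s = -(s ^ 2 / (4 * B * m)) := by
      rw [hl]
      field_simp
      ring
    have h5 := min_le_left (s ^ 2 / (4 * B * m)) (s / (2 * B))
    nlinarith
  · rw [not_le] at hc
    have hl1 : |1 / B| * B ≤ 1 := by
      rw [abs_of_pos (by positivity)]
      field_simp
      exact le_refl _
    have h1 := up_aux hM I Q X hX hQ h0 hB hl1 (m + s)
    have hlp : 0 < 1 / B := by positivity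
    have h2 : pr (fun ω => m + s ≤ ∑ i ∈ I, X i ω) =
        pr (fun ω => 1 / B * (m + s) ≤ 1 / B * ∑ i ∈ I, X i ω) := by
      have : ∀ ω : J → Fin M, (m + s ≤ ∑ i ∈ I, X i ω) =
          (1 / B * (m + s) ≤ 1 / B * ∑ i ∈ I, X i ω) :=
        fun ω => propext ⟨fun h => mul_le_mul_of_nonneg_left h hlp.le,
          fun h => le_of_mul_le_mul_left h hlp⟩
      simp only [this]
    rw [h2]
    refine h1.trans (Real.exp_le_exp.2 ?_)
    have h3 : (1 / B + (1 / B) ^ 2 * B) * ∑ i ∈ I, ex (X i) ≤ (1 / B + (1 / B) ^ 2 * B) * m :=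
      mul_le_mul_of_nonneg_left hm (by positivity)
    have h4 : (1 / B + (1 / B) ^ 2 * B) * m - 1 / B * (m + s) = m / B - s / B := by
      field_simp
      ring
    have h5 := min_le_right (s ^ 2 / (4 * B * m)) (s / (2 * B))
    have h6 : m / B - s / B ≤ -(s / (2 * B)) := by
      rw [← sub_div, neg_div', div_le_div_iff₀ hB0 (by positivity)]
      nlinarith
    linarith

/-- **Chernoff, lower tail.** -/
theorem chern_low (hM : 0 < M) {ι : Type v} (I : Finset ι) (Q : ι → Finset J)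
    (X : ι → (J → Fin M) → ℝ) {B m m0 s : ℝ} (hX : ∀ i ∈ I, DepOnI (Q i) (X i))
    (hQ : ∀ i ∈ I, ∀ i' ∈ I, i ≠ i' → Disjoint (Q i) (Q i'))
    (h0 : ∀ i ∈ I, ∀ ω, 0 ≤ X i ω) (hB : ∀ i ∈ I, ∀ ω, X i ω ≤ B) (hB0 : 0 < B) (hm0 : 0 < m)
    (hm : ∑ i ∈ I, ex (X i) ≤ m) (hmm : m0 ≤ ∑ i ∈ I, ex (X i)) (hs : 0 ≤ s) (hs2 : s ≤ 2 * m) :
    pr (fun ω => ∑ i ∈ I, X i ω ≤ m0 - s) ≤ Real.exp (-(s ^ 2 / (4 * B * m))) := by
  rcases hs.eq_or_lt with hs0 | hs0
  · have : Real.exp (-(s ^ 2 / (4 * B * m))) = 1 := by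
      rw [← hs0]
      simp
    rw [this, pr]
    exact div_le_one_of_le₀ (by
      have := card_le_univ (univ.filter fun ω : J → Fin M => ∑ i ∈ I, X i ω ≤ m0 - s)
      exact_mod_cast this) (Nat.cast_nonneg _)
  set l : ℝ := s / (2 * B * m) with hl
  have hlp : 0 < l := by positivity
  have hl1 : |-l| * B ≤ 1 := by
    rw [abs_neg, abs_of_pos hlp, hl]
    rw [div_mul_eq_mul_div, div_le_one (by positivity)]
    nlinarith
  have h1 := up_aux hM I Q X hX hQ h0 hB hl1 (m0 - s)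
  have h2 : pr (fun ω => ∑ i ∈ I, X i ω ≤ m0 - s) =
      pr (fun ω => -l * (m0 - s) ≤ -l * ∑ i ∈ I, X i ω) := by
    have : ∀ ω : J → Fin M, (∑ i ∈ I, X i ω ≤ m0 - s) =
        (-l * (m0 - s) ≤ -l * ∑ i ∈ I, X i ω) := by
      intro ω
      refine propext ⟨fun h => ?_, fun h => ?_⟩
      · have := mul_le_mul_of_nonneg_left h hlp.le
        linarith
      · have : l * ∑ i ∈ I, X i ω ≤ l * (m0 - s) := by linarith
        exact le_of_mul_le_mul_left this hlp
    simp only [this]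
  rw [h2]
  refine h1.trans (Real.exp_le_exp.2 ?_)
  set T := ∑ i ∈ I, ex (X i) with hT
  have hT0 : 0 ≤ T := sum_nonneg fun i hi => ex_nonneg (h0 i hi)
  have h3 : l ^ 2 * B * T ≤ l ^ 2 * B * m := mul_le_mul_of_nonneg_left hm (by positivity)
  have h4 : l ^ 2 * B * m - l * s = -(s ^ 2 / (4 * B * m)) := by
    rw [hl]
    field_simp
    ring
  have h5 : l * m0 ≤ l * T := mul_le_mul_of_nonneg_left hmm hlp.le
  nlinarith

end Pool.Agent.Work.MP_db9399_en
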