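import Pool.Agent.Work.MP_db9399_en.CERT
import Pool.Agent.Work.MP_db9399_as_helper89.ONESHOT

/-!
# MP_db9399, ENGINE: the good events give a total colouring (helper89)
-/

set_option autoImplicit false

namespace Pool.Agent.Work.MP_db9399_en

open Finset Classical
open Pool.Agent.Work.MP_db9399_all (nb)
open _root_.MP_db9399_co (IsTotalColoring)
open Pool.Agent.Work.MP_db9399_as.helper89

universe u

section One

variable {V : Type u} [Fintype V] {P M : ℕ} {G S : SimpleGraph V} {d r K0 T0 m1 L : ℕ}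
  {ρ D Dt δ Mr : ℝ}
  {c : V → Fin P} {N : Fin P → V → V} {K Km : Finset V} {lab : Fin P → V → Bool}
  {ix : V × V → Fin P → ℕ} {ω : Co V P → Fin M} {θ θ' : ℕ → ℝ}

/-- the bound for `τ` -/
theorem tau_bd (hn : Nm r K0 T0 L P ρ D Dt δ Mr) :
    2 * L * (6 * T0 / Dt / (Dt / 2)) + 6 * T0 / Dt / (Dt / 2) + (6 * T0 / Dt +
      (1 + 4 * δ) * D * ((6 * T0 / Dt + (1 + 4 * δ) * D * (6 * T0 / Dt / (Dt / 2))) /
        (Dt / 8))) / (ρ * Dt / 12) ≤ 25000 * L * K0 ^ 4 * T0 / (ρ * D ^ 2) := by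
  have hD := hn.D0
  have hDt := hn.Dt0
  have hK := hn.k0
  have hK0 := hn.K00
  have hT := hn.t0
  have hL := hn.l0
  have hρ := hn.ρ0
  have hρ1 := hn.ρ1
  have hδ := hn.δ0
  have hδs := hn.δs
  set k : ℝ := (K0 : ℝ) with hk
  set T : ℝ := (T0 : ℝ) with hT'
  set l : ℝ := (L : ℝ) with hl
  have hDe : Dt = D / (2 * k) := by
    rw [← hn.dDt, ← hk]
    field_simp
  set a : ℝ := 1 + 4 * δ with ha
  have ha0 : 0 < a := by positivity
  have ha1 : a ≤ 1 + 1 / 100 := by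
    rw [ha]
    linarith
  have hE : 2 * l * (6 * T / Dt / (Dt / 2)) + 6 * T / Dt / (Dt / 2) + (6 * T / Dt +
      a * D * ((6 * T / Dt + a * D * (6 * T / Dt / (Dt / 2))) / (Dt / 8))) / (ρ * Dt / 12) =
      T / (ρ * D ^ 2) * (96 * l * k ^ 2 * ρ + 48 * k ^ 2 * ρ + 288 * k ^ 2 +
        4608 * a * k ^ 3 + 18432 * a ^ 2 * k ^ 4) := by
    rw [hDe]
    field_simp
    ring
  rw [hE]
  have h1 : k ^ 2 ≤ k ^ 4 := pow_le_pow_right₀ hK (by norm_num)
  have h2 : k ^ 3 ≤ k ^ 4 := pow_le_pow_right₀ hK (by norm_num)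
  have h0 : 0 ≤ k ^ 2 := by positivity
  have h3 : 96 * l * k ^ 2 * ρ ≤ 96 * l * k ^ 4 := by
    calc 96 * l * k ^ 2 * ρ ≤ 96 * l * k ^ 2 * 1 := by
          exact mul_le_mul_of_nonneg_left hρ1 (by positivity)
      _ ≤ _ := by
          rw [mul_one]
          exact mul_le_mul_of_nonneg_left h1 (by positivity)
  have h4 : 48 * k ^ 2 * ρ ≤ 48 * l * k ^ 4 := by
    calc 48 * k ^ 2 * ρ ≤ 48 * k ^ 2 * 1 := mul_le_mul_of_nonneg_left hρ1 (by positivity)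
      _ ≤ 48 * k ^ 4 := by linarith
      _ ≤ _ := by
          have : 0 ≤ k ^ 4 := by positivity
          nlinarith
  have h5 : 288 * k ^ 2 ≤ 288 * l * k ^ 4 := by
    have : 0 ≤ k ^ 4 := by positivity
    nlinarith
  have h6 : 4608 * a * k ^ 3 ≤ 4700 * l * k ^ 4 := by
    have g1 : 4608 * a ≤ 4700 := by linarith
    have : 0 ≤ k ^ 3 := by positivity
    calc 4608 * a * k ^ 3 ≤ 4700 * k ^ 3 := mul_le_mul_of_nonneg_right g1 this
      _ ≤ 4700 * k ^ 4 := by linarith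
      _ ≤ _ := by
          have : 0 ≤ k ^ 4 := by positivity
          nlinarith
  have h7 : 18432 * a ^ 2 * k ^ 4 ≤ 18900 * l * k ^ 4 := by
    have g0 : a ^ 2 ≤ (1 + 1 / 100) ^ 2 := pow_le_pow_left₀ ha0.le ha1 2
    have g1 : 18432 * a ^ 2 ≤ 18900 := by
      norm_num at g0
      linarith
    have : 0 ≤ k ^ 4 := by positivity
    calc 18432 * a ^ 2 * k ^ 4 ≤ 18900 * k ^ 4 := mul_le_mul_of_nonneg_right g1 this
      _ ≤ _ := by nlinarith
  have h8 : 96 * l * k ^ 2 * ρ + 48 * k ^ 2 * ρ + 288 * k ^ 2 +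
        4608 * a * k ^ 3 + 18432 * a ^ 2 * k ^ 4 ≤ 25000 * l * k ^ 4 := by
    have : 0 ≤ l * k ^ 4 := by positivity
    linarith
  calc T / (ρ * D ^ 2) * (96 * l * k ^ 2 * ρ + 48 * k ^ 2 * ρ + 288 * k ^ 2 +
        4608 * a * k ^ 3 + 18432 * a ^ 2 * k ^ 4) ≤ T / (ρ * D ^ 2) * (25000 * l * k ^ 4) :=
        mul_le_mul_of_nonneg_left h8 (by positivity)
    _ = _ := by ring

theorem Qf_nonneg (hE : EIn G S d P r K0 T0 ρ c N K Km) (hn : Nm r K0 T0 L P ρ D Dt δ Mr)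
    (hθ : Wts L θ) (hθ' : Wts L θ') (b : Fin P) (v : V) :
    0 ≤ Qf c N S lab r L ρ δ Mr (6 * T0 / Dt) θ θ' b v := by
  have hDt := hn.Dt0
  have hρ := hn.ρ0
  have hδ := hn.δ0
  obtain ⟨_, g2, _⟩ := q_bd (lab := lab) (b := b) hE hn hθ hθ' v
  have g3 := fun w => ((q_bd (lab := lab) (b := b) hE hn hθ hθ' w).2.2).1
  have g4 : 0 ≤ 24 / ρ * HH S r (q2f c N S lab r L δ Mr (6 * T0 / Dt) θ θ' b) v :=
    mul_nonneg (by positivity) (HH_nonneg g3 v)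
  have g5 : 0 ≤ 4000 / ρ * δ * (6 * T0 / Dt) := by positivity
  rw [Qf]
  linarith [g2.1]

/-- number of colours in which a vertex is active -/
theorem cntX (hE : EIn G S d P r K0 T0 ρ c N K Km) {z1 : ℝ}
    (v1 : ∀ v, (#{b | cn N b v ω < 8} : ℝ) ≤ z1) (s : Bool) (v : V) :
    (#{b | v ∈ XX c N Km lab K0 m1 b s ω} : ℝ) ≤ z1 + K0 := by
  have g1 : (univ.filter fun b => v ∈ XX c N Km lab K0 m1 b s ω) ⊆
      (univ.filter fun b => cn N b v ω < 8) ∪ (univ.filter fun b => v ∈ tk c N b) := by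
    intro b hb
    rw [mem_filter] at hb
    rw [mem_union, mem_filter, mem_filter]
    by_cases h : v ∈ tk c N b
    · exact Or.inr ⟨mem_univ _, h⟩
    · exact Or.inl ⟨mem_univ _, ac_cn (XX_ac hb.2 h)⟩
  have g2 := (card_le_card g1).trans (card_union_le _ _)
  have g3 := hE.tk1 v
  have g4 : (#{b | v ∈ XX c N Km lab K0 m1 b s ω} : ℝ) ≤
      #{b | cn N b v ω < 8} + K0 := by
    exact_mod_cast g2.trans (Nat.add_le_add_left g3 _)
  linarith [v1 v]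

/-- the load of a vertex -/
theorem sumX (hE : EIn G S d P r K0 T0 ρ c N K Km) {Q : Fin P → V → ℝ} {Ψ : ℝ} (hΨ : 0 ≤ Ψ)
    (hQ0 : ∀ b v, 0 ≤ Q b v) (v2 : ∀ v, ∑ b with cn N b v ω < 8, Q b v ≤ 1 / 4)
    (h3 : K0 * Ψ ≤ 1 / 4) (s : Bool) (f : Fin P → V → ℝ)
    (hf1 : ∀ b, ∀ u ∈ XX c N Km lab K0 m1 b s ω, u ∉ tk c N b → f b u ≤ Q b u)
    (hf2 : ∀ b, ∀ u ∈ XX c N Km lab K0 m1 b s ω, f b u ≤ Ψ) (v : V) :
    ∑ b with v ∈ XX c N Km lab K0 m1 b s ω, f b v ≤ 1 / 2 := by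
  rw [← sum_filter_add_sum_filter_not (univ.filter fun b => v ∈ XX c N Km lab K0 m1 b s ω)
    (fun b => v ∈ tk c N b)]
  have g1 : ∑ b ∈ univ.filter (fun b => v ∈ XX c N Km lab K0 m1 b s ω) with v ∈ tk c N b,
      f b v ≤ 1 / 4 := by
    have g2 := sum_le_card_nsmul
      ((univ.filter fun b => v ∈ XX c N Km lab K0 m1 b s ω).filter fun b => v ∈ tk c N b)
      (fun b => f b v) Ψ (fun b hb => by
        rw [mem_filter, mem_filter] at hb
        exact hf2 b v hb.1.2)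
    rw [nsmul_eq_mul] at g2
    refine g2.trans (le_trans (mul_le_mul_of_nonneg_right ?_ hΨ) h3)
    have g3 : ((univ.filter fun b => v ∈ XX c N Km lab K0 m1 b s ω).filter
        fun b => v ∈ tk c N b) ⊆ univ.filter fun b => v ∈ tk c N b := by
      intro b hb
      rw [mem_filter, mem_filter] at hb
      rw [mem_filter]
      exact ⟨mem_univ _, hb.2⟩
    exact_mod_cast (card_le_card g3).trans (hE.tk1 v)
  have g4 : ∑ b ∈ univ.filter (fun b => v ∈ XX c N Km lab K0 m1 b s ω) with ¬ v ∈ tk c N b,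
      f b v ≤ 1 / 4 := by
    refine le_trans (sum_le_sum (g := fun b => Q b v) fun b hb => ?_) (le_trans
      (sum_le_sum_of_subset_of_nonneg ?_ fun b _ _ => hQ0 b v) (v2 v))
    · rw [mem_filter, mem_filter] at hb
      exact hf1 b v hb.1.2 hb.2
    · intro b hb
      rw [mem_filter, mem_filter] at hb
      rw [mem_filter]
      exact ⟨mem_univ _, ac_cn (XX_ac hb.1.2 hb.2)⟩
  linarith

theorem ex_ok (hn : Nm r K0 T0 L P ρ D Dt δ Mr) : (1 + 4 * δ) * D - (1 - 4 * δ) * D +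
    (1 - 4 * δ) * D * (T0 / (Dt / 2)) ≤ 9 * δ * D := by
  have hD := hn.D0
  have hDt := hn.Dt0
  have hδ := hn.δ0
  have g1 : (T0 : ℝ) / (Dt / 2) ≤ δ / 50 := by
    rw [div_le_iff₀ (by positivity)]
    have := hn.tDt
    linarith
  have g2 : (1 - 4 * δ) * D * (T0 / (Dt / 2)) ≤ D * (δ / 50) := by
    refine mul_le_mul ?_ g1 (by positivity) hD.le
    nlinarith
  have g3 : 0 ≤ δ * D := by positivity
  linarith

theorem sig_ok (hn : Nm r K0 T0 L P ρ D Dt δ Mr) : ρ / (1000 * K0 ^ 2) * ((1 + 4 * δ) * D) ≤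
    ρ * Dt / 12 * (Dt / 8 / ((1 + 4 * δ) * D)) - 9 * δ * D := by
  have hD := hn.D0
  have hDt := hn.Dt0
  have hδ := hn.δ0
  have hδs := hn.δs
  have hK := hn.k0
  have hK0 := hn.K00
  have hρ := hn.ρ0
  have hDe : Dt = D / (2 * K0) := by
    rw [← hn.dDt]
    field_simp
  have g1 : ρ * Dt / 12 * (Dt / 8 / ((1 + 4 * δ) * D)) = ρ * D / (384 * K0 ^ 2 * (1 + 4 * δ)) := by
    rw [hDe]
    field_simp
    ring
  rw [g1]
  have hk2 : (0 : ℝ) < K0 ^ 2 := by positivity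
  have g2 : ρ * D / (400 * K0 ^ 2) ≤ ρ * D / (384 * K0 ^ 2 * (1 + 4 * δ)) := by
    refine div_le_div_of_nonneg_left (by positivity) (by positivity) ?_
    nlinarith
  have g3 : 9 * δ * D ≤ ρ * D / (10000 * K0 ^ 2) := by
    rw [le_div_iff₀ (by positivity)]
    have g := mul_le_mul_of_nonneg_right hn.δρ hD.le
    have g' : 0 ≤ K0 ^ 2 * δ * D := by positivity
    linarith
  have g4 : ρ / (1000 * K0 ^ 2) * ((1 + 4 * δ) * D) ≤ ρ * D / (900 * K0 ^ 2) := by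
    have g5 : ρ / (1000 * K0 ^ 2) * ((1 + 4 * δ) * D) =
        ρ * D / (1000 * K0 ^ 2) * (1 + 4 * δ) := by ring
    have g6 : ρ * D / (900 * K0 ^ 2) = ρ * D / (1000 * K0 ^ 2) * (10 / 9) := by
      field_simp
      ring
    rw [g5, g6]
    exact mul_le_mul_of_nonneg_left (by linarith) (by positivity)
  have g7 : ρ * D / (900 * K0 ^ 2) + ρ * D / (10000 * K0 ^ 2) ≤ ρ * D / (400 * K0 ^ 2) := by
    have g8 : ρ * D / (900 * K0 ^ 2) = ρ * D / K0 ^ 2 * (1 / 900) := by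
      field_simp
    have g9 : ρ * D / (10000 * K0 ^ 2) = ρ * D / K0 ^ 2 * (1 / 10000) := by
      field_simp
    have g10 : ρ * D / (400 * K0 ^ 2) = ρ * D / K0 ^ 2 * (1 / 400) := by
      field_simp
    have g11 : 0 ≤ ρ * D / K0 ^ 2 := by positivity
    rw [g8, g9, g10]
    linarith
  linarith

theorem z_ok (hn : Nm r K0 T0 L P ρ D Dt δ Mr) {z τ : ℝ} (hz0 : 0 ≤ z)
    (hτ : τ ≤ 25000 * L * K0 ^ 4 * T0 / (ρ * D ^ 2))
    (hz : 10 ^ 9 * z * L * K0 ^ 6 * T0 * δ ≤ ρ ^ 2 * D) :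
    z * (τ * (9 * δ * D)) ≤ ρ / (1000 * K0 ^ 2) / 2 := by
  have hD := hn.D0
  have hδ := hn.δ0
  have hK0 := hn.K00
  have hρ := hn.ρ0
  have g1 : τ * (9 * δ * D) ≤ 25000 * L * K0 ^ 4 * T0 / (ρ * D ^ 2) * (9 * δ * D) :=
    mul_le_mul_of_nonneg_right hτ (by positivity)
  have g2 : z * (τ * (9 * δ * D)) ≤
      z * (25000 * L * K0 ^ 4 * T0 / (ρ * D ^ 2) * (9 * δ * D)) :=
    mul_le_mul_of_nonneg_left g1 hz0
  refine g2.trans ?_
  rw [div_div, le_div_iff₀ (by positivity)]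
  have g3 : z * (25000 * L * K0 ^ 4 * T0 / (ρ * D ^ 2) * (9 * δ * D)) *
      (1000 * K0 ^ 2 * 2) = (45 / 100) * (10 ^ 9 * z * L * K0 ^ 6 * T0 * δ) / (ρ * D) := by
    field_simp
    ring
  rw [g3, div_le_iff₀ (by positivity)]
  have : 0 ≤ ρ ^ 2 * D := by positivity
  linarith

/-- **The good events give a total colouring.** -/
theorem one (hE : EIn G S d P r K0 T0 ρ c N K Km) (hn : Nm r K0 T0 L P ρ D Dt δ Mr)
    (hθ : Wts L θ) (hθ' : Wts L θ')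
    (hix : ∀ u v, S.Adj u v → ∀ b b', (u ∈ tk c N b ∨ v ∈ tk c N b) →
      (u ∈ tk c N b' ∨ v ∈ tk c N b') → ix (ep u v) b = ix (ep u v) b' → b = b')
    (hG : ∀ b, GdB c N S Km lab ix K0 m1 r T0 L ρ D Dt δ Mr θ θ' K b ω) (z1 : ℝ) (hz0 : 0 ≤ z1)
    (v1 : ∀ v, (#{b | cn N b v ω < 8} : ℝ) ≤ z1)
    (v2 : ∀ v, ∑ b with cn N b v ω < 8, Qf c N S lab r L ρ δ Mr (6 * T0 / Dt) θ θ' b v ≤ 1 / 4)
    (h3 : K0 * (3000 / ρ * (6 * T0 / Dt)) ≤ 1 / 4)
    (hz : 10 ^ 9 * (z1 + K0) * L * K0 ^ 6 * T0 * δ ≤ ρ ^ 2 * D) :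
    ∃ (c : V → Fin (d + 2)) (t : Sym2 V → Fin (d + 2)), IsTotalColoring G c t := by
  have hD := hn.D0
  have hDt := hn.Dt0
  have hρ := hn.ρ0
  have hδ := hn.δ0
  have hδs := hn.δs
  have hK0 := hn.K00
  obtain ⟨τ, hτe⟩ : ∃ τ : ℝ, τ = 2 * L * (6 * T0 / Dt / (Dt / 2)) + 6 * T0 / Dt / (Dt / 2) +
      (6 * T0 / Dt + (1 + 4 * δ) * D * ((6 * T0 / Dt + (1 + 4 * δ) * D *
        (6 * T0 / Dt / (Dt / 2))) / (Dt / 8))) / (ρ * Dt / 12) := ⟨_, rfl⟩
  have hτ0 : 0 ≤ τ := by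
    rw [hτe]
    positivity
  have hτb : τ ≤ 25000 * L * K0 ^ 4 * T0 / (ρ * D ^ 2) := hτe ▸ tau_bd hn
  choose x e hx1 hx2 hx3 hx4 using fun b => cert hE hn (hG b) hθ hθ' true
  choose x' e' hy1 hy2 hy3 hy4 using fun b => cert hE hn (hG b) hθ hθ' false
  simp only [Bool.not_true, Bool.not_false, ← hτe] at hx1 hy1
  have hQ0 := fun b v => Qf_nonneg (lab := lab) hE hn hθ hθ' b v
  have hΨ : 0 ≤ 3000 / ρ * (6 * T0 / Dt) := by positivity
  have hs := fun u => sumX hE hΨ hQ0 v2 h3 true e hx3 hx4 u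
  have hs' := fun u => sumX hE hΨ hQ0 v2 h3 false e' hy3 hy4 u
  have hy1' : ∀ b, Cert (XX c N Km lab K0 m1 b false ω) (XX c N Km lab K0 m1 b true ω) (tk c N b)
        (MM Km K0 m1 false ω) K (fun u v => SS c N S ix K0 m1 b v u ω) (x' b) (e' b)
        ((1 - 4 * δ) * D) (Dt / 2) ((1 + 4 * δ) * D) T0 (ρ * Dt / 12) (Dt / 8) τ := by
    intro b
    have h1 := hy1 b
    have h2 : (fun u y => SS c N S ix K0 m1 b u y ω) = fun u v => SS c N S ix K0 m1 b v u ω := by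
      funext u v
      exact propext (SS_comm b u v)
    rw [h2] at h1
    exact h1
  have hDm : 0 ≤ (1 - 4 * δ) * D := mul_nonneg (by linarith) hD.le
  have k3 : ∀ b, ∀ u ∈ XX c N Km lab K0 m1 b true ω, u ∉ tk c N b →
      N b u ∈ XX c N Km lab K0 m1 b false ω ∧ N b u ∉ tk c N b := by
    intro b u hu hW
    have h := XX_N hE.NN hu hW
    rw [Bool.not_true] at h
    exact h
  have k4 : ∀ b, ∀ u ∈ XX c N Km lab K0 m1 b false ω, u ∉ tk c N b →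
      N b u ∈ XX c N Km lab K0 m1 b true ω ∧ N b u ∉ tk c N b := by
    intro b u hu hW
    have h := XX_N hE.NN hu hW
    rw [Bool.not_false] at h
    exact h
  have key := oneshot G S hE.hSG d P r hE.hP hE.dG c hE.cp N hE.NN hE.NG hE.Nd
    (fun b => XX c N Km lab K0 m1 b true ω) (fun b => XX c N Km lab K0 m1 b false ω) (tk c N)
    (fun b u y => SS c N S ix K0 m1 b u y ω) (fun b => XX_disj b true)
    (fun v => ⟨fun h => XX_c h rfl, fun h => XX_c h rfl⟩)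
    k3 k4
    (fun b v hc h1 h2 => XX_out hE.NN hc h1 h2) (fun b u _ y _ h => h.1)
    (fun b b' u y hu hy h1 h2 => by
      rcases h2 with ⟨h2, h4, h5⟩ | ⟨h2, h4, h5⟩
      · exact SS_inj hix h2 h4 h1 h5
      · exact SS_inj hix h4 h2 h1 ((SS_comm b' y u).1 h5))
    (MM Km K0 m1 true ω) (MM Km K0 m1 false ω) K K MM_disj
    (fun v hv w hw hvw => MM_kept hE hv hw hvw)
  exact key x x' e e' ((1 - 4 * δ) * D) (Dt / 2)
    ((1 + 4 * δ) * D) T0 (ρ * Dt / 12) (Dt / 8) τ (9 * δ * D) (ρ / (1000 * K0 ^ 2)) (z1 + K0)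
    hx1 hy1' hτ0 (by positivity) (by positivity) hDm (by positivity) (by positivity)
    (by positivity) (ex_ok hn) (by positivity) (sig_ok hn)
    (fun b u hu _ => hx2 b u hu) (fun b u hu _ => hy2 b u hu)
    (fun u _ => hs u) (fun u _ => hs' u) (fun u _ => cntX hE v1 true u)
    (fun u _ => cntX hE v1 false u) (z_ok hn (by positivity) hτb hz)

end One

end Pool.Agent.Work.MP_db9399_en
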