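import Pool.Agent.Work.MP_db9399_en.EVT2

/-!
# MP_db9399, ENGINE: the good event at one vertex; statements of the two remaining blocks (helper89)
-/

set_option autoImplicit false

namespace Pool.Agent.Work.MP_db9399_en

open Finset Classical
open Pool.Agent.Work.MP_db9399_all (nb pr DepOnI)

universe u

attribute [-instance] instDecidableEqSum

section Defs

variable {V : Type u} [Fintype V] {P M : ℕ}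

/-- ball of radius 1 -/
noncomputable def b1 (G : SimpleGraph V) (v : V) : Finset V := insert v (nb G v)

/-- ball of radius 2 -/
noncomputable def b2 (G : SimpleGraph V) (v : V) : Finset V := (b1 G v).biUnion (b1 G)

/-- ball of radius 3 -/
noncomputable def b3 (G : SimpleGraph V) (v : V) : Finset V := (b2 G v).biUnion (b1 G)

/-- the coins near `v` -/
noncomputable def Qs (G : SimpleGraph V) (v : V) : Finset (Co V P) :=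
  univ.filter fun j => (∃ b x, j = Sum.inl (b, x) ∧ x ∈ b3 G v) ∨
    (∃ x, j = Sum.inr (Sum.inl x) ∧ x ∈ b3 G v) ∨
    ∃ x y, j = Sum.inr (Sum.inr (x, y)) ∧ x ∈ b3 G v ∧ y ∈ b3 G v

variable (c : V → Fin P) (N : Fin P → V → V) (S : SimpleGraph V) (Km : Finset V)
  (lab : Fin P → V → Bool) (ix : V × V → Fin P → ℕ) (K0 m1 : ℕ)

/-- `AV` at one vertex -/
def AVv (r : ℕ) (D δ : ℝ) (b : Fin P) (v : V) (ω : Co V P → Fin M) (g : V → ℝ) (Φ : ℝ) : Prop :=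
  ∀ s, |∑ w ∈ NG c N S Km K0 m1 b v s ω, g w - D * HH S r g v| ≤ δ * D * Φ

/-- the good event of colour `b` at the vertex `v` -/
structure GdV (r T0 L : ℕ) (ρ D Dt δ Mr : ℝ) (θ θ' : ℕ → ℝ) (K : Finset V) (v : V) (b : Fin P)
    (ω : Co V P → Fin M) : Prop where
  a0 : AVv c N S Km K0 m1 r D δ b v ω (fun _ => 1) 1
  a1 : AVv c N S Km K0 m1 r D δ b v ω (fun v => if v ∈ K then 0 else 1) 1
  a2 : ∀ s, ∀ j : Fin (2 * L), 2 ≤ (j : ℕ) → AVv c N S Km K0 m1 r D δ b v ω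
    (fun v => Mr / 3 * wlk S r (tks c N lab b s) j v) (T0 / D)
  a3 : AVv c N S Km K0 m1 r D δ b v ω (qf c N S lab r L δ Mr (6 * T0 / Dt) θ θ' b) (6 * T0 / Dt)
  a4 : AVv c N S Km K0 m1 r D δ b v ω (q1f c N S lab r L δ Mr (6 * T0 / Dt) θ θ' b)
    (4 * (6 * T0 / Dt))
  a5 : AVv c N S Km K0 m1 r D δ b v ω (q2f c N S lab r L δ Mr (6 * T0 / Dt) θ θ' b)
    (35 * (6 * T0 / Dt))
  e2 : (#(BB N S b v ω) : ℝ) ≤ δ * D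
  e3 : v ∈ tk c N b → ∀ s, |(#(NT c N S Km ix K0 m1 b v s ω) : ℝ) - Dt| ≤ δ * Dt
  e4 : v ∉ tk c N b → ∀ s,
    |∑ w ∈ NG c N S Km K0 m1 b v (!s) ω, tn c N S lab ix K0 m1 b s w ω -
      D * Dt * (Mr / 3 * wlk S r (tks c N lab b s) 2 v)| ≤ δ * D * T0
  e5 : v ∉ K → ∀ s, ρ * D / 12 ≤
    (#{w ∈ NG c N S Km K0 m1 b v s ω | w ∈ MM Km K0 m1 s ω} : ℝ)
  e5t : v ∉ K → v ∈ tk c N b → ∀ s, ρ * Dt / 12 ≤
    (#{w ∈ NT c N S Km ix K0 m1 b v s ω | w ∈ MM Km K0 m1 s ω} : ℝ)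
  e6 : v ∈ tk c N b → ∀ s, Dt / 8 ≤ (#{w ∈ NT c N S Km ix K0 m1 b v s ω | w ∉ K} : ℝ)

end Defs

/-- **LOC** -/
def Stmt_LOC : Prop :=
  ∀ {V : Type u} [Fintype V] (G S : SimpleGraph V) (d P r K0 T0 L m1 M : ℕ) (ρ D Dt δ Mr : ℝ)
    (c : V → Fin P) (N : Fin P → V → V) (K Km : Finset V) (lab : Fin P → V → Bool)
    (ix : V × V → Fin P → ℕ) (θ θ' : ℕ → ℝ), EIn G S d P r K0 T0 ρ c N K Km →
    (∀ v, (Qs (P := P) G v).Nonempty) ∧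
    (∀ v, (#(Qs (P := P) G v) : ℝ) ≤ (P + 1) * ((d : ℝ) + 1) ^ 3 + ((d : ℝ) + 1) ^ 6) ∧
    (∀ y : Co V P, (#{v | y ∈ Qs G v} : ℝ) ≤ ((d : ℝ) + 1) ^ 3) ∧
    (∀ v, DepOnI (Qs G v) (fun ω : Co V P → Fin M =>
      ∀ b, GdV c N S Km lab ix K0 m1 r T0 L ρ D Dt δ Mr θ θ' K v b ω)) ∧
    (∀ v (F : (Fin P → Prop) → Prop), DepOnI (Qs G v)
      (fun ω : Co V P → Fin M => F fun b => cn N b v ω < 8))

/-- **NUM** -/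
def Stmt_NUM : Prop :=
  ∃ d₀ : ℕ, ∀ (d P r K0 T0 L : ℕ) (ρ : ℝ), d₀ ≤ d → P + r = d + 1 → 1 ≤ P → 1 ≤ K0 → 1 ≤ T0 →
    1 ≤ L → ρ ≤ 1 → (d : ℝ) ^ (1 - 1 / 1000 : ℝ) ≤ r → (K0 : ℝ) ≤ (d : ℝ) ^ (1 / 1000 : ℝ) →
    (T0 : ℝ) ≤ (d : ℝ) ^ (1 / 1000 : ℝ) → (L : ℝ) ≤ (d : ℝ) ^ (1 / 1000 : ℝ) →
    (d : ℝ) ^ (-(1 / 1000) : ℝ) ≤ ρ →
    ∃ (m1 M : ℕ) (D Dt δ ξ : ℝ), Nm r K0 T0 L P ρ D Dt δ M ∧ Nx M r K0 T0 m1 P ρ δ ∧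
      3 * 10 ^ 7 * (L * δ * (6 * T0 / Dt) * P) ≤ M * ρ ∧
      K0 * (3000 / ρ * (6 * T0 / Dt)) ≤ 1 / 4 ∧
      10 ^ 9 * (16 * (P + r) / M + K0) * L * K0 ^ 6 * T0 * δ ≤ ρ ^ 2 * D ∧
      ξ ≤ δ ^ 2 * D / 64 ∧ ξ ≤ δ ^ 2 * Dt / 64 ∧ ξ ≤ ρ ^ 2 * D / 9216 ∧ ξ ≤ ρ ^ 2 * Dt / 9216 ∧
      ξ ≤ Dt / 4096 ∧ ξ ≤ δ * D / 16 ∧ ξ ≤ 2 * r / M ∧
      ξ ≤ ρ * Dt / (192000 * T0) ∧ 10000 * ((d : ℝ) + 1) ^ 11 * Real.exp (-ξ) ≤ 1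

end Pool.Agent.Work.MP_db9399_en
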