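import Pool.Agent.Work.MP_db9399_en.EVT3
import Pool.Agent.Work.MP_db9399_en.LOCDEF

/-!
# MP_db9399, ENGINE: assembly (helper89)
-/

set_option autoImplicit false

namespace Pool.Agent.Work.MP_db9399_en

open Finset Classical
open Pool.Agent.Work.MP_db9399_all (nb pr DepOnI)
open _root_.MP_db9399_co (IsTotalColoring)

universe u v

attribute [-instance] instDecidableEqSum

section Union

variable {Ω : Type u} [Fintype Ω]

theorem pr_not_and (A B : Ω → Prop) : pr (fun ω => ¬ (A ω ∧ B ω)) ≤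
    pr (fun ω => ¬ A ω) + pr (fun ω => ¬ B ω) := by
  refine le_trans (pr_mono (F := fun ω => ¬ A ω ∨ ¬ B ω) fun ω h => ?_) (pr_or _ _)
  rwa [← not_and_or]

theorem pr_not_all {ι : Type v} [Fintype ι] (A : ι → Ω → Prop) {p : ℝ}
    (h : ∀ i, pr (fun ω => ¬ A i ω) ≤ p) : pr (fun ω => ¬ ∀ i, A i ω) ≤ Fintype.card ι * p := by
  refine le_trans (pr_mono (F := fun ω => ∃ i, ¬ A i ω) fun ω h => ?_)
    (pr_ex_le (fun i ω => ¬ A i ω) h)
  rwa [← not_forall]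

theorem pr_not_bool (A : Bool → Ω → Prop) {p : ℝ}
    (h : ∀ i, pr (fun ω => ¬ A i ω) ≤ p) : pr (fun ω => ¬ ∀ i, A i ω) ≤ 2 * p := by
  have := pr_not_all A h
  rwa [Fintype.card_bool, Nat.cast_ofNat] at this

theorem pr_not_imp (h : Prop) (A : Ω → Prop) {p : ℝ} (hp : 0 ≤ p)
    (hA : h → pr (fun ω => ¬ A ω) ≤ p) : pr (fun ω => ¬ (h → A ω)) ≤ p := by
  by_cases hh : h
  · refine le_trans (pr_mono fun ω h' => ?_) (hA hh)
    exact fun ha => h' fun _ => ha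
  · refine le_trans (le_of_eq ?_) hp
    rw [← pr_false (Ω := Ω)]
    congr 1
    funext ω
    exact propext ⟨fun h' => h' fun h'' => absurd h'' hh, fun h' => h'.elim⟩

end Union

section Ix

variable {V : Type u} [Fintype V] {P : ℕ}

/-- numbering of the colours with a token at an end -/
noncomputable def ixf (c : V → Fin P) (N : Fin P → V → V) (p : V × V) (b : Fin P) : ℕ :=
  #(univ.filter fun b' => (p.1 ∈ tk c N b' ∨ p.2 ∈ tk c N b') ∧ b' < b)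

theorem ixf_inj {c : V → Fin P} {N : Fin P → V → V} {p : V × V} {b b' : Fin P}
    (h : p.1 ∈ tk c N b ∨ p.2 ∈ tk c N b) (h' : p.1 ∈ tk c N b' ∨ p.2 ∈ tk c N b')
    (he : ixf c N p b = ixf c N p b') : b = b' := by
  have key : ∀ x y : Fin P, (p.1 ∈ tk c N x ∨ p.2 ∈ tk c N x) → x < y →
      ixf c N p x < ixf c N p y := by
    intro x y hx hxy
    refine card_lt_card ⟨fun z hz => ?_, fun hs => ?_⟩
    · rw [mem_filter] at hz ⊢
      exact ⟨mem_univ _, hz.2.1, hz.2.2.trans hxy⟩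
    · have := hs (mem_filter.2 ⟨mem_univ x, hx, hxy⟩)
      rw [mem_filter] at this
      exact lt_irrefl _ this.2.2
  rcases lt_trichotomy b b' with h1 | h1 | h1
  · exact absurd he (key b b' h h1).ne
  · exact h1
  · exact absurd he.symm (key b' b h' h1).ne

theorem ixf_lt {c : V → Fin P} {N : Fin P → V → V} {K0 : ℕ}
    (hk : ∀ v, (univ.filter fun b => v ∈ tk c N b).card ≤ K0) {p : V × V} {b : Fin P}
    (h : p.1 ∈ tk c N b ∨ p.2 ∈ tk c N b) : ixf c N p b < 2 * K0 := by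
  have h1 : ixf c N p b < #(univ.filter fun b' => p.1 ∈ tk c N b' ∨ p.2 ∈ tk c N b') := by
    refine card_lt_card ⟨fun z hz => ?_, fun hs => ?_⟩
    · rw [mem_filter] at hz ⊢
      exact ⟨mem_univ _, hz.2.1⟩
    · have := hs (mem_filter.2 ⟨mem_univ b, h⟩)
      rw [mem_filter] at this
      exact lt_irrefl _ this.2.2
  have h2 : (univ.filter fun b' => p.1 ∈ tk c N b' ∨ p.2 ∈ tk c N b') ⊆
      (univ.filter fun b' => p.1 ∈ tk c N b') ∪ univ.filter fun b' => p.2 ∈ tk c N b' := by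
    intro z hz
    rw [mem_filter] at hz
    rw [mem_union, mem_filter, mem_filter]
    exact hz.2.imp (fun h => ⟨mem_univ _, h⟩) (fun h => ⟨mem_univ _, h⟩)
  have h3 := (card_le_card h2).trans (card_union_le _ _)
  have h4 := hk p.1
  have h5 := hk p.2
  omega

theorem ep_or {c : V → Fin P} {N : Fin P → V → V} {u v : V} {b : Fin P}
    (h : u ∈ tk c N b ∨ v ∈ tk c N b) :
    (ep u v).1 ∈ tk c N b ∨ (ep u v).2 ∈ tk c N b := by
  rcases ep_mem u v with h1 | h1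
  · rw [h1]
    exact h
  · rw [h1]
    exact h.symm

end Ix

section Main

variable {V : Type u} [Fintype V] {P M : ℕ} {G S : SimpleGraph V} {d r K0 T0 m1 L : ℕ}
  {ρ D Dt δ ξ : ℝ}
  {c : V → Fin P} {N : Fin P → V → V} {K Km : Finset V} {lab : Fin P → V → Bool}
  {ix : V × V → Fin P → ℕ} {θ θ' : ℕ → ℝ}

/-- failure probability of one colour at one vertex -/
theorem pr_GdV (hE : EIn G S d P r K0 T0 ρ c N K Km) (hn : Nm r K0 T0 L P ρ D Dt δ M)
    (hx : Nx M r K0 T0 m1 P ρ δ) (hθ : Wts L θ) (hθ' : Wts L θ')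
    (hi : ∀ u v, S.Adj u v → ∀ b, (u ∈ tk c N b ∨ v ∈ tk c N b) → ix (ep u v) b < 2 * K0)
    (x1 : ξ ≤ δ ^ 2 * D / 64) (x2 : ξ ≤ δ ^ 2 * Dt / 64) (x3 : ξ ≤ ρ ^ 2 * D / 9216)
    (x4 : ξ ≤ ρ ^ 2 * Dt / 9216) (x5 : ξ ≤ Dt / 4096) (x6 : ξ ≤ δ * D / 16) (x7 : ξ ≤ 2 * r / M)
    (v : V) (b : Fin P) :
    pr (fun ω : Co V P → Fin M => ¬ GdV c N S Km lab ix K0 m1 r T0 L ρ D Dt δ M θ θ' K v b ω) ≤
      60 * L * Real.exp (-ξ) := by
  have hL := hn.l0
  have hT := hn.t0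
  have hDt := hn.Dt0
  have hD := hn.D0
  have hMr := hx.Mr
  have hr := hn.r0
  have hP : (0 : ℝ) < P := by
    have := Nat.lt_of_le_of_lt (Nat.zero_le _) (c v).2
    exact_mod_cast this
  obtain ⟨q, hq⟩ : ∃ q : ℝ, q = Real.exp (-ξ) := ⟨_, rfl⟩
  have hq0 : 0 < q := by
    rw [hq]
    exact Real.exp_pos _
  have hle : ∀ x : ℝ, ξ ≤ x → Real.exp (-x) ≤ q := by
    intro x hx
    rw [hq]
    exact Real.exp_le_exp.2 (by linarith)
  have e1 := hle _ x1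
  have e2 := hle _ x2
  have e3 := hle _ x3
  have e4 := hle _ x4
  have e5 := hle _ x5
  have e6 := hle _ x6
  have e7 := hle _ x7
  have e8 : Real.exp (-(2 * ((P : ℝ) + r) / M)) ≤ q := by
    refine hle _ (x7.trans ?_)
    refine div_le_div_of_nonneg_right ?_ hMr.le
    linarith
  rw [← hq]
  have hA : ∀ (g : V → ℝ) (Φ : ℝ), 0 < Φ → (∀ v, 0 ≤ g v ∧ g v ≤ Φ) →
      pr (fun ω : Co V P → Fin M => ¬ AVv c N S Km K0 m1 r D δ b v ω g Φ) ≤ 4 * q := by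
    intro g Φ hΦ hg
    have := pr_not_bool (Ω := Co V P → Fin M)
      (fun s ω => |∑ w ∈ NG c N S Km K0 m1 b v s ω, g w - D * HH S r g v| ≤ δ * D * Φ)
      (p := 2 * q) (fun s => (ev_a hE hn hx hΦ hg b v s).trans (by linarith))
    refine le_trans this (by linarith)
  have hΦ : 0 < 6 * (T0 : ℝ) / Dt := by positivity
  have f0 := hA (fun _ => 1) 1 one_pos (fun _ => ⟨zero_le_one, le_rfl⟩)
  have f1 := hA (fun v => if v ∈ K then 0 else 1) 1 one_pos (fun v => by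
    split_ifs <;> norm_num)
  have f2 : pr (fun ω : Co V P → Fin M => ¬ ∀ s, ∀ j : Fin (2 * L), 2 ≤ (j : ℕ) →
      AVv c N S Km K0 m1 r D δ b v ω (fun v => M / 3 * wlk S r (tks c N lab b s) j v) (T0 / D)) ≤
      2 * (2 * L * (4 * q)) := by
    refine pr_not_bool _ fun s => ?_
    have := pr_not_all (Ω := Co V P → Fin M) (fun (j : Fin (2 * L)) ω => 2 ≤ (j : ℕ) →
      AVv c N S Km K0 m1 r D δ b v ω (fun v => M / 3 * wlk S r (tks c N lab b s) j v) (T0 / D))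
      (p := 4 * q) (fun j => pr_not_imp _ _ (by positivity) fun hj => hA _ _ (by positivity)
        fun v => F_bd hE hn s (by omega) j.2.le v)
    rw [Fintype.card_fin] at this
    push_cast at this
    exact this
  have f3 := hA _ _ hΦ (fun v => (q_bd (lab := lab) (b := b) hE hn hθ hθ' v).1)
  have f4 := hA _ _ (by positivity) (fun v => (q_bd (lab := lab) (b := b) hE hn hθ hθ' v).2.1)
  have f5 := hA _ _ (by positivity) (fun v => (q_bd (lab := lab) (b := b) hE hn hθ hθ' v).2.2)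
  have g2 : pr (fun ω : Co V P → Fin M => ¬ (#(BB N S b v ω) : ℝ) ≤ δ * D) ≤ 3 * q :=
    (ev_e2 hE hn hx b v).trans (by linarith)
  have g3 : pr (fun ω : Co V P → Fin M => ¬ (v ∈ tk c N b → ∀ s,
      |(#(NT c N S Km ix K0 m1 b v s ω) : ℝ) - Dt| ≤ δ * Dt)) ≤ 4 * q := by
    refine pr_not_imp _ _ (by positivity) fun hv => ?_
    refine (pr_not_bool _ (p := 2 * q) fun s => ?_).trans (by linarith)
    exact (ev_e3 hE hn hx b v s fun w hw => hi v w hw b (Or.inl hv)).trans (by linarith)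
  have g4 : pr (fun ω : Co V P → Fin M => ¬ (v ∉ tk c N b → ∀ s,
      |∑ w ∈ NG c N S Km K0 m1 b v (!s) ω, tn c N S lab ix K0 m1 b s w ω -
      D * Dt * (M / 3 * wlk S r (tks c N lab b s) 2 v)| ≤ δ * D * T0)) ≤ 4 * q := by
    refine pr_not_imp _ _ (by positivity) fun hv => ?_
    refine (pr_not_bool _ (p := 2 * q) fun s => ?_).trans (by linarith)
    exact (ev_e4 hE hn hx b v hv s fun w z hw hz => hi w z hw b (Or.inr hz)).trans (by linarith)
  have g5 : pr (fun ω : Co V P → Fin M => ¬ (v ∉ K → ∀ s, ρ * D / 12 ≤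
      (#{w ∈ NG c N S Km K0 m1 b v s ω | w ∈ MM Km K0 m1 s ω} : ℝ))) ≤ 2 * q := by
    refine pr_not_imp _ _ (by positivity) fun hv => pr_not_bool _ fun s => ?_
    exact (ev_e5 hE hn hx b v hv s).trans e3
  have g6 : pr (fun ω : Co V P → Fin M => ¬ (v ∉ K → v ∈ tk c N b → ∀ s, ρ * Dt / 12 ≤
      (#{w ∈ NT c N S Km ix K0 m1 b v s ω | w ∈ MM Km K0 m1 s ω} : ℝ))) ≤ 2 * q := by
    refine pr_not_imp _ _ (by positivity) fun hv => pr_not_imp _ _ (by positivity) fun hv' =>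
      pr_not_bool _ fun s => ?_
    exact (ev_e5t hE hn hx b v hv s fun w hw => hi v w hw b (Or.inl hv')).trans e4
  have g7 : pr (fun ω : Co V P → Fin M => ¬ (v ∈ tk c N b → ∀ s, Dt / 8 ≤
      (#{w ∈ NT c N S Km ix K0 m1 b v s ω | w ∉ K} : ℝ))) ≤ 2 * q := by
    refine pr_not_imp _ _ (by positivity) fun hv => pr_not_bool _ fun s => ?_
    exact (ev_e6 hE hn hx b v s fun w hw => hi v w hw b (Or.inl hv)).trans e5
  -- all together
  have hor : ∀ (A : (Co V P → Fin M) → Prop) (B : (Co V P → Fin M) → Prop) (x y : ℝ),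
      pr (fun ω => ¬ A ω) ≤ x → pr (fun ω => ¬ B ω) ≤ y → pr (fun ω => ¬ (A ω ∧ B ω)) ≤ x + y :=
    fun A B x y h1 h2 => (pr_not_and A B).trans (add_le_add h1 h2)
  have key := hor _ _ _ _ f0 (hor _ _ _ _ f1 (hor _ _ _ _ f2 (hor _ _ _ _ f3 (hor _ _ _ _ f4
    (hor _ _ _ _ f5 (hor _ _ _ _ g2 (hor _ _ _ _ g3 (hor _ _ _ _ g4 (hor _ _ _ _ g5
    (hor _ _ _ _ g6 g7))))))))))
  refine le_trans (pr_mono fun ω hω => ?_) (key.trans ?_)
  · rintro ⟨h0, h1, h2, h3, h4, h5, h6, h7, h8, h9, h10, h11⟩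
    exact hω ⟨h0, h1, h2, h3, h4, h5, h6, h7, h8, h9, h10, h11⟩
  · nlinarith

/-- ENGINE from the two blocks -/
theorem engine (hLOC : Stmt_LOC.{u}) (hNUM : Stmt_NUM) : Stmt_ENGINE.{u} := by
  obtain ⟨d₀, hd₀⟩ := hNUM
  refine ⟨1 / 1000, 1 / 40000, max d₀ 1, by norm_num, by norm_num, ?_⟩
  intro V _ G S d P r K0 T0 L ρ c N K Km lab θ θ' hE hθ hθ' hd hK hT hρ1 hr hK' hT' hL' hρ hres
  by_cases hV : IsEmpty V
  · refine ⟨fun v => (hV.false v).elim, fun e => ?_, ?_, ?_, ?_⟩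
    · exact (Sym2.ind (fun v _ => (hV.false v).elim) e : False).elim
    · exact fun v => (hV.false v).elim
    · exact fun v => (hV.false v).elim
    · exact fun v => (hV.false v).elim
  rw [not_isEmpty_iff] at hV
  obtain ⟨v0⟩ := hV
  have hd1 : 1 ≤ d := (le_max_right _ _).trans hd
  have hP1 : 1 ≤ P := Nat.lt_of_le_of_lt (Nat.zero_le _) (c v0).2
  have hL1 : 1 ≤ L := by
    by_contra h
    have h0 : L = 0 := by omega
    have h1 := hθ.zero 0 (by omega)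
    rw [hθ.w0] at h1
    exact one_ne_zero h1
  obtain ⟨m1, M, D, Dt, δ, ξ, hn, hx, u5, h3, hz, x1, x2, x3, x4, x5, x6, x7, x9, hfin⟩ :=
    hd₀ d P r K0 T0 L ρ ((le_max_left _ _).trans hd) hE.hP hP1 hK hT hL1 hρ1 hr hK' hT' hL' hρ
  have hMr := hx.Mr
  have hr0 := hn.r0
  obtain ⟨ix, hix⟩ : ∃ ix : V × V → Fin P → ℕ, ix = ixf c N := ⟨_, rfl⟩
  have hi : ∀ u v, S.Adj u v → ∀ b, (u ∈ tk c N b ∨ v ∈ tk c N b) → ix (ep u v) b < 2 * K0 := by
    intro u v _ b h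
    rw [hix]
    exact ixf_lt hE.tk1 (ep_or h)
  have hinj : ∀ u v, S.Adj u v → ∀ b b', (u ∈ tk c N b ∨ v ∈ tk c N b) →
      (u ∈ tk c N b' ∨ v ∈ tk c N b') → ix (ep u v) b = ix (ep u v) b' → b = b' := by
    intro u v _ b b' h h' he
    rw [hix] at he
    exact ixf_inj (ep_or h) (ep_or h') he
  obtain ⟨l1, l2, l3, l4, l5⟩ := hLOC G S d P r K0 T0 L m1 M ρ D Dt δ M c N K Km lab ix θ θ' hE
  -- the event at a vertex
  obtain ⟨F, hF⟩ : ∃ F : V → (Fin P → Prop) → Prop, F = fun v s => ∃ X : Finset (Fin P),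
      (∀ b, b ∈ X ↔ s b) ∧ (#X : ℝ) ≤ 16 * (P + r) / M ∧
        ∑ b ∈ X, Qf c N S lab r L ρ δ M (6 * T0 / Dt) θ θ' b v ≤ 1 / 4 := ⟨_, rfl⟩
  have hF' : ∀ (v : V) (ω : Co V P → Fin M), F v (fun b => cn N b v ω < 8) ↔
      (#{b | cn N b v ω < 8} : ℝ) ≤ 16 * (P + r) / M ∧
        ∑ b with cn N b v ω < 8, Qf c N S lab r L ρ δ M (6 * T0 / Dt) θ θ' b v ≤ 1 / 4 := by
    intro v ω
    rw [hF]
    constructor
    · rintro ⟨X, hX, h1, h2⟩
      have : X = univ.filter fun b => cn N b v ω < 8 := by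
        ext b
        rw [hX, mem_filter]
        exact ⟨fun h => ⟨mem_univ _, h⟩, fun h => h.2⟩
      rw [← this]
      exact ⟨h1, h2⟩
    · rintro ⟨h1, h2⟩
      refine ⟨univ.filter fun b => cn N b v ω < 8, fun b => ?_, h1, h2⟩
      rw [mem_filter]
      exact ⟨fun h => h.2, fun h => ⟨mem_univ _, h⟩⟩
  have hp : ∀ v, pr (fun ω : Co V P → Fin M =>
      ¬ ((∀ b, GdV c N S Km lab ix K0 m1 r T0 L ρ D Dt δ M θ θ' K v b ω) ∧
        F v fun b => cn N b v ω < 8)) ≤ 62 * ((d : ℝ) + 1) ^ 2 * Real.exp (-ξ) := by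
    intro v
    have q1 := pr_not_all (Ω := Co V P → Fin M) (fun b ω =>
      GdV c N S Km lab ix K0 m1 r T0 L ρ D Dt δ M θ θ' K v b ω)
      (fun b => pr_GdV hE hn hx hθ hθ' hi x1 x2 x3 x4 x5 x6 x7 v b)
    rw [Fintype.card_fin] at q1
    have hPr : (0 : ℝ) < P := by exact_mod_cast hP1
    have q2 := ev_v1 (N := N) hPr hx v
    have q3 := ev_v2 (lab := lab) hE hn hx hθ hθ' hres u5 v
    have q4 : Real.exp (-(2 * ((P : ℝ) + r) / M)) ≤ Real.exp (-ξ) := by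
      refine Real.exp_le_exp.2 (neg_le_neg (x7.trans ?_))
      refine div_le_div_of_nonneg_right ?_ hMr.le
      linarith
    have q5 : Real.exp (-(ρ * Dt / (192000 * T0))) ≤ Real.exp (-ξ) :=
      Real.exp_le_exp.2 (neg_le_neg x9)
    have q6 : pr (fun ω : Co V P → Fin M => ¬ F v fun b => cn N b v ω < 8) ≤
        Real.exp (-ξ) + Real.exp (-ξ) := by
      simp only [hF']
      exact (pr_not_and _ _).trans (add_le_add (q2.trans q4) (q3.trans q5))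
    refine (pr_not_and _ _).trans ?_
    have hq0 := Real.exp_pos (-ξ)
    have hPd : (P : ℝ) ≤ d + 1 := by
      have : P ≤ d + 1 := by
        have := hE.hP
        omega
      exact_mod_cast this
    have hLd : (L : ℝ) ≤ d + 1 := by
      have h1 : (d : ℝ) ^ (1 / 1000 : ℝ) ≤ (d : ℝ) ^ (1 : ℝ) :=
        Real.rpow_le_rpow_of_exponent_le (by exact_mod_cast hd1) (by norm_num)
      rw [Real.rpow_one] at h1
      linarith
    have h5 : (P : ℝ) * (60 * L * Real.exp (-ξ)) ≤ 60 * ((d : ℝ) + 1) ^ 2 * Real.exp (-ξ) := by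
      have h6 : (P : ℝ) * L ≤ (d + 1) * (d + 1) :=
        mul_le_mul hPd hLd (Nat.cast_nonneg _) (by positivity)
      nlinarith
    have h7 : (1 : ℝ) ≤ ((d : ℝ) + 1) ^ 2 := by
      refine one_le_pow₀ ?_
      have : (0 : ℝ) ≤ d := Nat.cast_nonneg _
      linarith
    nlinarith
  have hqq : (1 : ℝ) ≤ ((P : ℝ) + 1) * ((d : ℝ) + 1) ^ 3 + ((d : ℝ) + 1) ^ 6 := by
    have h1 : (1 : ℝ) ≤ ((d : ℝ) + 1) ^ 6 := by
      refine one_le_pow₀ ?_
      have : (0 : ℝ) ≤ d := Nat.cast_nonneg _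
      linarith
    have h2 : 0 ≤ ((P : ℝ) + 1) * ((d : ℝ) + 1) ^ 3 := by positivity
    linarith
  have hll : 8 * ((d : ℝ) + 1) ^ 3 * (((P : ℝ) + 1) * ((d : ℝ) + 1) ^ 3 + ((d : ℝ) + 1) ^ 6) *
      (62 * ((d : ℝ) + 1) ^ 2 * Real.exp (-ξ)) ≤ 1 := by
    have hd0 : (1 : ℝ) ≤ d := by exact_mod_cast hd1
    have hPd : (P : ℝ) ≤ d + 1 := by
      have : P ≤ d + 1 := by
        have := hE.hP
        omega
      exact_mod_cast this
    have h1 : ((P : ℝ) + 1) * ((d : ℝ) + 1) ^ 3 + ((d : ℝ) + 1) ^ 6 ≤ 2 * ((d : ℝ) + 1) ^ 6 := by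
      have h2 : (P : ℝ) + 1 ≤ ((d : ℝ) + 1) ^ 3 := by
        have : (d : ℝ) + 2 ≤ ((d : ℝ) + 1) ^ 3 := by nlinarith [sq_nonneg (d : ℝ)]
        linarith
      have h3 : ((P : ℝ) + 1) * ((d : ℝ) + 1) ^ 3 ≤ ((d : ℝ) + 1) ^ 3 * ((d : ℝ) + 1) ^ 3 :=
        mul_le_mul_of_nonneg_right h2 (by positivity)
      have h4 : ((d : ℝ) + 1) ^ 3 * ((d : ℝ) + 1) ^ 3 = ((d : ℝ) + 1) ^ 6 := by ring
      linarith
    have hq0 := Real.exp_pos (-ξ)
    calc 8 * ((d : ℝ) + 1) ^ 3 * (((P : ℝ) + 1) * ((d : ℝ) + 1) ^ 3 + ((d : ℝ) + 1) ^ 6) *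
          (62 * ((d : ℝ) + 1) ^ 2 * Real.exp (-ξ))
        ≤ 8 * ((d : ℝ) + 1) ^ 3 * (2 * ((d : ℝ) + 1) ^ 6) *
          (62 * ((d : ℝ) + 1) ^ 2 * Real.exp (-ξ)) := by
          refine mul_le_mul_of_nonneg_right ?_ (by positivity)
          exact mul_le_mul_of_nonneg_left h1 (by positivity)
      _ = 992 * ((d : ℝ) + 1) ^ 11 * Real.exp (-ξ) := by ring
      _ ≤ 10000 * ((d : ℝ) + 1) ^ 11 * Real.exp (-ξ) := by
          refine mul_le_mul_of_nonneg_right ?_ hq0.le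
          exact mul_le_mul_of_nonneg_right (by norm_num) (by positivity)
      _ ≤ 1 := hfin
  obtain ⟨ω, hω⟩ := lll_simple hx.M0 (fun (v : V) (ω : Co V P → Fin M) =>
      ¬ ((∀ b, GdV c N S Km lab ix K0 m1 r T0 L ρ D Dt δ M θ θ' K v b ω) ∧
        F v fun b => cn N b v ω < 8)) (Qs G) (fun v => dep_not (dep_and (l4 v) (l5 v (F v)))) l1
    (q := ((P : ℝ) + 1) * ((d : ℝ) + 1) ^ 3 + ((d : ℝ) + 1) ^ 6) (n := ((d : ℝ) + 1) ^ 3)
    (p := 62 * ((d : ℝ) + 1) ^ 2 * Real.exp (-ξ)) hqq l2 l3 hp (by positivity) hll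
  have hg : ∀ v, (∀ b, GdV c N S Km lab ix K0 m1 r T0 L ρ D Dt δ M θ θ' K v b ω) ∧
      F v fun b => cn N b v ω < 8 := fun v => not_not.1 (hω v)
  refine one (m1 := m1) hE hn hθ hθ' hinj (ω := ω) (fun b => ?_) (16 * ((P : ℝ) + r) / M) (by positivity)
    (fun v => ((hF' v ω).1 (hg v).2).1) (fun v => ((hF' v ω).1 (hg v).2).2) h3 hz
  have hb := fun v => (hg v).1 b
  exact {
    a0 := fun v s => (hb v).a0 s
    a1 := fun v s => (hb v).a1 s
    a2 := fun t j h2 hj v s => (hb v).a2 t ⟨j, hj⟩ h2 s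
    a3 := fun v s => (hb v).a3 s
    a4 := fun v s => (hb v).a4 s
    a5 := fun v s => (hb v).a5 s
    e2 := fun v => (hb v).e2
    e3 := fun v hv s => (hb v).e3 hv s
    e4 := fun v hv s => (hb v).e4 hv s
    e5 := fun v hv s => (hb v).e5 hv s
    e5t := fun v hv hv' s => (hb v).e5t hv hv' s
    e6 := fun v hv s => (hb v).e6 hv s }

end Main

end Pool.Agent.Work.MP_db9399_en
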