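import Mathlib

/-!
# MP_db9399, ENGINE: the walk on the reserve graph of one colour is the walk on `S` (helper89)

Deterministic.  `Z j` is the side of step `j`, `R` the reserve graph of the colour, `dg` its degrees,
`f` the walk, `F` the predicted values.
-/

set_option autoImplicit false

namespace Pool.Agent.Work.MP_db9399_en

open Finset Classical

universe u

section Apx

variable {V : Type u} {Z : ℕ → Finset V} {R : V → V → Prop} {W : Finset V} {dg : V → ℝ}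
  {f F : ℕ → V → ℝ} {D Dl δ T Φ : ℝ}

theorem sum_split_W (X : Finset V) (P : V → Prop) (W : Finset V) (g : V → ℝ) :
    ∑ w ∈ X with P w, g w = ∑ w ∈ X with (w ∉ W ∧ P w), g w + ∑ w ∈ X with (w ∈ W ∧ P w), g w := by
  simp only [sum_filter]
  rw [← sum_add_distrib]
  refine sum_congr rfl fun y _ => ?_
  by_cases h1 : P y <;> by_cases h2 : y ∈ W <;> simp [h1, h2]

/-- sizes: all values of the walk are at most `(T / Dl) (1 + 5 δ) ^ j` -/
theorem crude (hδ : 0 ≤ δ) (hδ4 : δ ≤ 1 / 4) (hD : 0 < D) (hDl : 0 < Dl) (hT : 0 ≤ T)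
    (hTD : T / Dl ≤ δ)
    (hf : ∀ j, ∀ v ∈ Z (j + 1), f (j + 1) v = ∑ w ∈ Z j with R w v, f j w / dg w)
    (hf0 : ∀ v ∈ Z 0, (v ∉ W → f 0 v = 0) ∧ 0 ≤ f 0 v ∧ f 0 v ≤ 1)
    (hdg : ∀ j, ∀ w ∈ Z j, w ∉ W → (1 - δ) * D ≤ dg w)
    (hdgt : ∀ j, ∀ w ∈ Z j, Dl ≤ dg w)
    (hn : ∀ j, ∀ v ∈ Z (j + 1), (#{w ∈ Z j | w ∉ W ∧ R w v} : ℝ) ≤ (1 + δ) * D)
    (hnt : ∀ j, ∀ v ∈ Z (j + 1), (#{w ∈ Z j | w ∈ W ∧ R w v} : ℝ) ≤ T) (j : ℕ) :
    ∀ v ∈ Z (j + 1), 0 ≤ f (j + 1) v ∧ f (j + 1) v ≤ T / Dl * (1 + 5 * δ) ^ j := by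
  have hTl : 0 ≤ T / Dl := div_nonneg hT hDl.le
  induction j with
  | zero =>
    intro v hv
    rw [hf 0 v hv, sum_split_W (Z 0) (fun w => R w v) W]
    have h1 : ∑ w ∈ Z 0 with (w ∉ W ∧ R w v), f 0 w / dg w = 0 := by
      refine sum_eq_zero fun w hw => ?_
      rw [mem_filter] at hw
      rw [(hf0 w hw.1).1 hw.2.1, zero_div]
    rw [h1, zero_add, pow_zero, mul_one]
    refine ⟨sum_nonneg fun w hw => ?_, ?_⟩
    · rw [mem_filter] at hw
      exact div_nonneg (hf0 w hw.1).2.1 (hDl.le.trans (hdgt 0 w hw.1))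
    · have h2 : ∑ w ∈ Z 0 with (w ∈ W ∧ R w v), f 0 w / dg w ≤
          #{w ∈ Z 0 | w ∈ W ∧ R w v} • (1 / Dl) := by
        refine sum_le_card_nsmul _ _ _ fun w hw => ?_
        rw [mem_filter] at hw
        exact div_le_div₀ zero_le_one (hf0 w hw.1).2.2 hDl (hdgt 0 w hw.1)
      refine h2.trans ?_
      rw [nsmul_eq_mul, mul_one_div]
      exact div_le_div_of_nonneg_right (hnt 0 v hv) hDl.le
  | succ j ih =>
    intro v hv
    set m := T / Dl * (1 + 5 * δ) ^ j with hm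
    have hm0 : 0 ≤ m := by positivity
    have hp : 0 < (1 - δ) * D := by
      have : 0 < 1 - δ := by linarith
      positivity
    rw [hf (j + 1) v hv, sum_split_W (Z (j + 1)) (fun w => R w v) W]
    constructor
    · refine add_nonneg (sum_nonneg fun w hw => ?_) (sum_nonneg fun w hw => ?_) <;>
      · rw [mem_filter] at hw
        exact div_nonneg (ih w hw.1).1 (hDl.le.trans (hdgt _ w hw.1))
    · have h1 : ∑ w ∈ Z (j + 1) with (w ∉ W ∧ R w v), f (j + 1) w / dg w ≤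
          #{w ∈ Z (j + 1) | w ∉ W ∧ R w v} • (m / ((1 - δ) * D)) := by
        refine sum_le_card_nsmul _ _ _ fun w hw => ?_
        rw [mem_filter] at hw
        exact div_le_div₀ hm0 (ih w hw.1).2 hp (hdg _ w hw.1 hw.2.1)
      have h2 : ∑ w ∈ Z (j + 1) with (w ∈ W ∧ R w v), f (j + 1) w / dg w ≤
          #{w ∈ Z (j + 1) | w ∈ W ∧ R w v} • (m / Dl) := by
        refine sum_le_card_nsmul _ _ _ fun w hw => ?_
        rw [mem_filter] at hw
        exact div_le_div₀ hm0 (ih w hw.1).2 hDl (hdgt _ w hw.1)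
      rw [nsmul_eq_mul] at h1 h2
      have h3 : (#{w ∈ Z (j + 1) | w ∉ W ∧ R w v} : ℝ) * (m / ((1 - δ) * D)) ≤
          (1 + δ) * D * (m / ((1 - δ) * D)) :=
        mul_le_mul_of_nonneg_right (hn _ v hv) (by positivity)
      have h4 : (#{w ∈ Z (j + 1) | w ∈ W ∧ R w v} : ℝ) * (m / Dl) ≤ T * (m / Dl) :=
        mul_le_mul_of_nonneg_right (hnt _ v hv) (by positivity)
      have h5 : (1 + δ) * D * (m / ((1 - δ) * D)) = (1 + δ) / (1 - δ) * m := by
        have : (1 - δ) ≠ 0 := by linarith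
        field_simp
      have h6 : T * (m / Dl) = T / Dl * m := by ring
      have h7 : (1 + δ) / (1 - δ) ≤ 1 + 4 * δ := by
        rw [div_le_iff₀ (by linarith)]
        nlinarith
      have h8 : (1 + δ) / (1 - δ) * m ≤ (1 + 4 * δ) * m := mul_le_mul_of_nonneg_right h7 hm0
      have h9 : T / Dl * m ≤ δ * m := mul_le_mul_of_nonneg_right hTD hm0
      have h10 : T / Dl * (1 + 5 * δ) ^ (j + 1) = (1 + 5 * δ) * m := by
        rw [hm, pow_succ]
        ring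
      rw [h10]
      linarith

/-- the error grows slowly -/
theorem approx (hδ : 0 ≤ δ) (hδ4 : δ ≤ 1 / 4) (hD : 0 < D) (hDl : 0 < Dl) (hΦ : 0 ≤ Φ)
    (hTD : T / Dl ≤ δ)
    (hf : ∀ j, ∀ v ∈ Z (j + 1), f (j + 1) v = ∑ w ∈ Z j with R w v, f j w / dg w)
    (hdg : ∀ j, ∀ w ∈ Z j, w ∉ W → |dg w - D| ≤ δ * D)
    (hdgt : ∀ j, ∀ w ∈ Z j, Dl ≤ dg w)
    (hn : ∀ j, ∀ v ∈ Z (j + 1), (#{w ∈ Z j | w ∉ W ∧ R w v} : ℝ) ≤ (1 + δ) * D)
    (hnt : ∀ j, ∀ v ∈ Z (j + 1), (#{w ∈ Z j | w ∈ W ∧ R w v} : ℝ) ≤ T)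
    {n : ℕ}
    (hF : ∀ j, 2 ≤ j → j < n → ∀ v ∈ Z (j + 1), v ∉ W →
      |∑ w ∈ Z j with (w ∉ W ∧ R w v), F j w - D * F (j + 1) v| ≤ δ * D * Φ)
    (hF0 : ∀ j, 2 ≤ j → j < n → ∀ v ∈ Z j, 0 ≤ F j v ∧ F j v ≤ Φ)
    (hf0 : ∀ j, 2 ≤ j → j < n → ∀ v ∈ Z j, 0 ≤ f j v ∧ f j v ≤ Φ)
    {η : ℝ} (hη : 0 ≤ η) (hb : ∀ v ∈ Z 2, v ∉ W → |f 2 v - F 2 v| ≤ η) (j : ℕ) (hj : j + 2 ≤ n) :
    ∀ v ∈ Z (j + 2), v ∉ W → |f (j + 2) v - F (j + 2) v| ≤
      (1 + 4 * δ) ^ j * (η + 4 * j * (δ * Φ)) := by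
  induction j with
  | zero =>
    intro v hv hvW
    simpa using hb v hv hvW
  | succ j ih =>
    intro v hv hvW
    have hj' : j + 2 ≤ n := by omega
    have hjn : j + 2 < n := by omega
    have ih := ih hj'
    set e := (1 + 4 * δ) ^ j * (η + 4 * j * (δ * Φ)) with he
    have he0 : 0 ≤ e := by positivity
    have hp : 0 < (1 - δ) * D := by
      have : 0 < 1 - δ := by linarith
      positivity
    have hpd : ∀ w ∈ Z (j + 2), w ∉ W → (1 - δ) * D ≤ dg w := by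
      intro w hw hwW
      have := (abs_le.1 (hdg _ w hw hwW)).1
      linarith
    rw [show j + 1 + 2 = j + 2 + 1 by ring, hf (j + 2) v hv,
      sum_split_W (Z (j + 2)) (fun w => R w v) W]
    have hv' : v ∈ Z (j + 2 + 1) := hv
    -- generic part
    have h1 : |∑ w ∈ Z (j + 2) with (w ∉ W ∧ R w v), f (j + 2) w / dg w -
        (∑ w ∈ Z (j + 2) with (w ∉ W ∧ R w v), F (j + 2) w) / D| ≤
        (1 + δ) * D * ((e + δ * Φ) / ((1 - δ) * D)) := by
      rw [sum_div, ← sum_sub_distrib]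
      refine (abs_sum_le_sum_abs _ _).trans ?_
      have g1 : ∑ w ∈ Z (j + 2) with (w ∉ W ∧ R w v), |f (j + 2) w / dg w - F (j + 2) w / D| ≤
          #{w ∈ Z (j + 2) | w ∉ W ∧ R w v} • ((e + δ * Φ) / ((1 - δ) * D)) := by
        refine sum_le_card_nsmul _ _ _ fun w hw => ?_
        rw [mem_filter] at hw
        have k1 := hpd w hw.1 hw.2.1
        have k2 : 0 < dg w := hp.trans_le k1
        have k3 := ih w hw.1 hw.2.1
        have k4 := hdg _ w hw.1 hw.2.1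
        obtain ⟨k5, k6⟩ := hF0 (j + 2) (by omega) hjn w hw.1
        have k7 : f (j + 2) w / dg w - F (j + 2) w / D =
            ((f (j + 2) w - F (j + 2) w) - F (j + 2) w * ((dg w - D) / D)) / dg w := by
          field_simp
          ring
        rw [k7, abs_div, abs_of_pos k2]
        refine div_le_div₀ (by positivity) ?_ hp k1
        have k8 : |F (j + 2) w * ((dg w - D) / D)| ≤ δ * Φ := by
          rw [abs_mul, abs_div, abs_of_pos hD, abs_of_nonneg k5]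
          have k9 : |dg w - D| / D ≤ δ := by
            rw [div_le_iff₀ hD]
            exact k4
          calc F (j + 2) w * (|dg w - D| / D) ≤ Φ * δ :=
                mul_le_mul k6 k9 (by positivity) hΦ
            _ = δ * Φ := by ring
        exact (abs_sub _ _).trans (add_le_add k3 k8)
      refine g1.trans ?_
      rw [nsmul_eq_mul]
      exact mul_le_mul_of_nonneg_right (hn _ v hv') (by positivity)
    -- tokens
    have h2 : |∑ w ∈ Z (j + 2) with (w ∈ W ∧ R w v), f (j + 2) w / dg w| ≤ δ * Φ := by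
      rw [abs_of_nonneg (sum_nonneg fun w hw => by
        rw [mem_filter] at hw
        exact div_nonneg (hf0 (j + 2) (by omega) hjn w hw.1).1 (hDl.le.trans (hdgt _ w hw.1)))]
      have g1 : ∑ w ∈ Z (j + 2) with (w ∈ W ∧ R w v), f (j + 2) w / dg w ≤
          #{w ∈ Z (j + 2) | w ∈ W ∧ R w v} • (Φ / Dl) := by
        refine sum_le_card_nsmul _ _ _ fun w hw => ?_
        rw [mem_filter] at hw
        exact div_le_div₀ hΦ (hf0 (j + 2) (by omega) hjn w hw.1).2 hDl (hdgt _ w hw.1)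
      refine g1.trans ?_
      rw [nsmul_eq_mul]
      have g2 : (#{w ∈ Z (j + 2) | w ∈ W ∧ R w v} : ℝ) * (Φ / Dl) ≤ T * (Φ / Dl) :=
        mul_le_mul_of_nonneg_right (hnt _ v hv') (by positivity)
      have g3 : T * (Φ / Dl) = T / Dl * Φ := by ring
      rw [g3] at g2
      exact g2.trans (mul_le_mul_of_nonneg_right hTD hΦ)
    have h3 : |(∑ w ∈ Z (j + 2) with (w ∉ W ∧ R w v), F (j + 2) w) / D - F (j + 2 + 1) v| ≤
        δ * Φ := by
      have g1 := hF (j + 2) (by omega) hjn v hv' hvW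
      have g2 : (∑ w ∈ Z (j + 2) with (w ∉ W ∧ R w v), F (j + 2) w) / D - F (j + 2 + 1) v =
          (∑ w ∈ Z (j + 2) with (w ∉ W ∧ R w v), F (j + 2) w - D * F (j + 2 + 1) v) / D := by
        field_simp
      rw [g2, abs_div, abs_of_pos hD, div_le_iff₀ hD]
      linarith
    have h4 : (1 + δ) * D * ((e + δ * Φ) / ((1 - δ) * D)) ≤ (1 + 4 * δ) * (e + δ * Φ) := by
      have g1 : (1 + δ) * D * ((e + δ * Φ) / ((1 - δ) * D)) = (1 + δ) / (1 - δ) * (e + δ * Φ) := by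
        have : (1 - δ) ≠ 0 := by linarith
        field_simp
      rw [g1]
      refine mul_le_mul_of_nonneg_right ?_ (by positivity)
      rw [div_le_iff₀ (by linarith)]
      nlinarith
    have h5 : |(∑ w ∈ Z (j + 2) with (w ∉ W ∧ R w v), f (j + 2) w / dg w +
        ∑ w ∈ Z (j + 2) with (w ∈ W ∧ R w v), f (j + 2) w / dg w) - F (j + 2 + 1) v| ≤
        (1 + 4 * δ) * (e + δ * Φ) + δ * Φ + δ * Φ := by
      rw [abs_le] at h1 h2 h3 ⊢
      constructor <;> linarith [h1.1, h1.2, h2.1, h2.2, h3.1, h3.2]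
    refine h5.trans ?_
    have h6 : (1 + 4 * δ) ^ (j + 1) * (η + 4 * ((j + 1 : ℕ) : ℝ) * (δ * Φ)) =
        (1 + 4 * δ) * e + (1 + 4 * δ) ^ (j + 1) * (4 * (δ * Φ)) := by
      rw [he, pow_succ]
      push_cast
      ring
    rw [h6]
    have h7 : (1 : ℝ) ≤ (1 + 4 * δ) ^ (j + 1) := one_le_pow₀ (by linarith)
    have h8 : 0 ≤ δ * Φ := by positivity
    have h9 : 4 * (δ * Φ) ≤ (1 + 4 * δ) ^ (j + 1) * (4 * (δ * Φ)) := by
      have := mul_le_mul_of_nonneg_right h7 (by positivity : 0 ≤ 4 * (δ * Φ))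
      linarith
    have h10 : 4 * δ * (δ * Φ) ≤ δ * Φ := by
      have : 4 * δ ≤ 1 := by linarith
      have := mul_le_mul_of_nonneg_right this h8
      linarith
    nlinarith

/-- the first two steps -/
theorem base {Dt : ℝ} (hδ : 0 ≤ δ) (hδ4 : δ ≤ 1 / 4) (hD : 0 < D) (hDl : 0 < Dl) (hDt : 0 < Dt)
    (hΦ : 0 ≤ Φ) (hT : 0 ≤ T) (hTD : T / Dl ≤ δ)
    (hf : ∀ j, ∀ v ∈ Z (j + 1), f (j + 1) v = ∑ w ∈ Z j with R w v, f j w / dg w)
    (hf0 : ∀ v ∈ Z 0, f 0 v = if v ∈ W then 1 else 0)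
    (hf1 : ∀ v ∈ Z 1, 0 ≤ f 1 v ∧ f 1 v ≤ Φ)
    (hdg : ∀ j, ∀ w ∈ Z j, w ∉ W → |dg w - D| ≤ δ * D)
    (hdgW : ∀ w ∈ Z 0, w ∈ W → |dg w - Dt| ≤ 2 * δ * Dt)
    (hdgt : ∀ j, ∀ w ∈ Z j, Dl ≤ dg w)
    (hn : ∀ j, ∀ v ∈ Z (j + 1), (#{w ∈ Z j | w ∉ W ∧ R w v} : ℝ) ≤ (1 + δ) * D)
    (hnt : ∀ j, ∀ v ∈ Z (j + 1), (#{w ∈ Z j | w ∈ W ∧ R w v} : ℝ) ≤ T)
    (hF : ∀ v ∈ Z 2, v ∉ W →
      |∑ w ∈ Z 1 with (w ∉ W ∧ R w v), (#{z ∈ Z 0 | z ∈ W ∧ R z w} : ℝ) - D * Dt * F 2 v| ≤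
        δ * D * T) :
    ∀ v ∈ Z 2, v ∉ W → |f 2 v - F 2 v| ≤ 11 * δ * (T / Dt) + δ * Φ := by
  intro v hv hvW
  have hp : 0 < (1 - δ) * D := by
    have : 0 < 1 - δ := by linarith
    positivity
  have hTt : 0 ≤ T / Dt := by positivity
  set n : V → ℝ := fun w => (#{z ∈ Z 0 | z ∈ W ∧ R z w} : ℝ) with hnn
  have hn0 : ∀ w, 0 ≤ n w := fun w => Nat.cast_nonneg _
  have hnT : ∀ w ∈ Z 1, n w ≤ T := fun w hw => hnt 0 w hw
  -- the first step
  have h1 : ∀ w ∈ Z 1, |f 1 w - n w / Dt| ≤ 4 * δ * (T / Dt) := by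
    intro w hw
    have g0 : ∑ z ∈ Z 0 with (z ∉ W ∧ R z w), f 0 z / dg z = 0 := by
      refine sum_eq_zero fun z hz => ?_
      rw [mem_filter] at hz
      rw [hf0 z hz.1, if_neg hz.2.1, zero_div]
    have g1 : f 1 w = ∑ z ∈ Z 0 with (z ∈ W ∧ R z w), 1 / dg z := by
      rw [hf 0 w hw, sum_split_W (Z 0) (fun z => R z w) W, g0, zero_add]
      refine sum_congr rfl fun z hz => ?_
      rw [mem_filter] at hz
      rw [hf0 z hz.1, if_pos hz.2.1]
    have g2 : n w / Dt = ∑ z ∈ Z 0 with (z ∈ W ∧ R z w), 1 / Dt := by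
      rw [sum_const, nsmul_eq_mul, mul_one_div]
    rw [g1, g2, ← sum_sub_distrib]
    refine (abs_sum_le_sum_abs _ _).trans ?_
    have g3 : ∑ z ∈ Z 0 with (z ∈ W ∧ R z w), |1 / dg z - 1 / Dt| ≤
        #{z ∈ Z 0 | z ∈ W ∧ R z w} • (4 * δ * (1 / Dt)) := by
      refine sum_le_card_nsmul _ _ _ fun z hz => ?_
      rw [mem_filter] at hz
      have k1 := hdgW z hz.1 hz.2.1
      have k2 : (1 / 2) * Dt ≤ dg z := by
        have := (abs_le.1 k1).1
        nlinarith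
      have k3 : 0 < dg z := by
        have : 0 < (1 / 2) * Dt := by positivity
        linarith
      have k4 : 1 / dg z - 1 / Dt = -(dg z - Dt) / (dg z * Dt) := by
        field_simp
        ring
      rw [k4, abs_div, abs_neg, abs_of_pos (mul_pos k3 hDt)]
      rw [div_le_iff₀ (mul_pos k3 hDt)]
      refine k1.trans ?_
      have k5 : 4 * δ * (1 / Dt) * (dg z * Dt) = 4 * δ * dg z := by
        field_simp
      rw [k5]
      nlinarith
    refine g3.trans ?_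
    rw [nsmul_eq_mul]
    have g4 : (#{z ∈ Z 0 | z ∈ W ∧ R z w} : ℝ) * (4 * δ * (1 / Dt)) ≤ T * (4 * δ * (1 / Dt)) :=
      mul_le_mul_of_nonneg_right (hnt 0 w hw) (by positivity)
    refine g4.trans (le_of_eq ?_)
    ring
  rw [hf 1 v hv, sum_split_W (Z 1) (fun w => R w v) W]
  have h2 : |∑ w ∈ Z 1 with (w ∉ W ∧ R w v), f 1 w / dg w -
      (∑ w ∈ Z 1 with (w ∉ W ∧ R w v), n w) / (D * Dt)| ≤
      (1 + δ) * D * (5 * δ * (T / Dt) / ((1 - δ) * D)) := by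
    rw [sum_div, ← sum_sub_distrib]
    refine (abs_sum_le_sum_abs _ _).trans ?_
    have g1 : ∑ w ∈ Z 1 with (w ∉ W ∧ R w v), |f 1 w / dg w - n w / (D * Dt)| ≤
        #{w ∈ Z 1 | w ∉ W ∧ R w v} • (5 * δ * (T / Dt) / ((1 - δ) * D)) := by
      refine sum_le_card_nsmul _ _ _ fun w hw => ?_
      rw [mem_filter] at hw
      have k4 := hdg 1 w hw.1 hw.2.1
      have k1 : (1 - δ) * D ≤ dg w := by
        have := (abs_le.1 k4).1
        linarith
      have k2 : 0 < dg w := hp.trans_le k1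
      have k7 : f 1 w / dg w - n w / (D * Dt) =
          ((f 1 w - n w / Dt) - n w / Dt * ((dg w - D) / D)) / dg w := by
        field_simp
        ring
      rw [k7, abs_div, abs_of_pos k2]
      refine div_le_div₀ (by positivity) ?_ hp k1
      have k8 : |n w / Dt * ((dg w - D) / D)| ≤ T / Dt * δ := by
        rw [abs_mul, abs_div (dg w - D) D, abs_of_pos hD, abs_of_nonneg (div_nonneg (hn0 w) hDt.le)]
        have k9 : |dg w - D| / D ≤ δ := by
          rw [div_le_iff₀ hD]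
          exact k4
        exact mul_le_mul (div_le_div_of_nonneg_right (hnT w hw.1) hDt.le) k9 (by positivity) hTt
      refine (abs_sub _ _).trans ((add_le_add (h1 w hw.1) k8).trans (le_of_eq ?_))
      ring
    refine g1.trans ?_
    rw [nsmul_eq_mul]
    exact mul_le_mul_of_nonneg_right (hn 1 v hv) (by positivity)
  have h3 : |∑ w ∈ Z 1 with (w ∈ W ∧ R w v), f 1 w / dg w| ≤ δ * Φ := by
    rw [abs_of_nonneg (sum_nonneg fun w hw => by
      rw [mem_filter] at hw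
      exact div_nonneg (hf1 w hw.1).1 (hDl.le.trans (hdgt _ w hw.1)))]
    have g1 : ∑ w ∈ Z 1 with (w ∈ W ∧ R w v), f 1 w / dg w ≤
        #{w ∈ Z 1 | w ∈ W ∧ R w v} • (Φ / Dl) := by
      refine sum_le_card_nsmul _ _ _ fun w hw => ?_
      rw [mem_filter] at hw
      exact div_le_div₀ hΦ (hf1 w hw.1).2 hDl (hdgt _ w hw.1)
    refine g1.trans ?_
    rw [nsmul_eq_mul]
    have g2 : (#{w ∈ Z 1 | w ∈ W ∧ R w v} : ℝ) * (Φ / Dl) ≤ T * (Φ / Dl) :=
      mul_le_mul_of_nonneg_right (hnt _ v hv) (by positivity)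
    have g3 : T * (Φ / Dl) = T / Dl * Φ := by ring
    rw [g3] at g2
    exact g2.trans (mul_le_mul_of_nonneg_right hTD hΦ)
  have h4 : |(∑ w ∈ Z 1 with (w ∉ W ∧ R w v), n w) / (D * Dt) - F 2 v| ≤ δ * (T / Dt) := by
    have g1 := hF v hv hvW
    have g2 : (∑ w ∈ Z 1 with (w ∉ W ∧ R w v), n w) / (D * Dt) - F 2 v =
        (∑ w ∈ Z 1 with (w ∉ W ∧ R w v), n w - D * Dt * F 2 v) / (D * Dt) := by
      field_simp
    rw [g2, abs_div, abs_of_pos (mul_pos hD hDt), div_le_iff₀ (mul_pos hD hDt)]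
    refine g1.trans (le_of_eq ?_)
    field_simp
  have h5 : (1 + δ) * D * (5 * δ * (T / Dt) / ((1 - δ) * D)) ≤ 10 * δ * (T / Dt) := by
    have g1 : (1 + δ) * D * (5 * δ * (T / Dt) / ((1 - δ) * D)) =
        (1 + δ) / (1 - δ) * (5 * δ * (T / Dt)) := by
      have : (1 - δ) ≠ 0 := by linarith
      field_simp
    rw [g1]
    have g2 : (1 + δ) / (1 - δ) ≤ 2 := by
      rw [div_le_iff₀ (by linarith)]
      linarith
    have g3 := mul_le_mul_of_nonneg_right g2 (by positivity : 0 ≤ 5 * δ * (T / Dt))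
    linarith
  rw [abs_le] at h2 h3 h4 ⊢
  constructor <;> linarith [h2.1, h2.2, h3.1, h3.2, h4.1, h4.2]

end Apx

end Pool.Agent.Work.MP_db9399_en
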