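import Pool.Agent.Work.MP_db9399_as_helper89.SERIES

/-!
# MP_db9399, ENGINE: the load `pe` of a star vertex in one colour (helper89)
-/

set_option autoImplicit false

namespace Pool.Agent.Work.MP_db9399_en

open Finset Classical
open Pool.Agent.Work.MP_db9399_as.helper89

universe u

section Load

variable {V : Type u} {A C W MA K : Finset V} {S : V → V → Prop} {pA pC : V → ℝ}

/-- a sum over neighbours, generic ones and tokens -/
theorem nsum {X : Finset V} {P : V → Prop} [DecidablePred P] {W : Finset V} {g d a : V → ℝ} {D₁ Dl Φ T E : ℝ}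
    (hΦ : 0 ≤ Φ) (hD₁ : 0 < D₁) (hDl : 0 < Dl)
    (hg : ∀ w ∈ X, P w → 0 ≤ g w ∧ g w ≤ Φ) (hga : ∀ w ∈ X, P w → w ∉ W → g w ≤ a w)
    (hd : ∀ w ∈ X, P w → w ∉ W → D₁ ≤ d w) (hdl : ∀ w ∈ X, P w → Dl ≤ d w)
    (hT : (#{w ∈ X | w ∈ W ∧ P w} : ℝ) ≤ T)
    (hE : ∑ w ∈ X with (w ∉ W ∧ P w), a w ≤ E) :
    ∑ w ∈ X with P w, g w / d w ≤ E / D₁ + T / Dl * Φ := by
  have h0 : ∑ w ∈ X with P w, g w / d w = ∑ w ∈ X with (w ∉ W ∧ P w), g w / d w +
      ∑ w ∈ X with (w ∈ W ∧ P w), g w / d w := by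
    simp only [sum_filter]
    rw [← sum_add_distrib]
    refine sum_congr rfl fun y _ => ?_
    by_cases h1 : P y <;> by_cases h2 : y ∈ W <;> simp [h1, h2]
  rw [h0]
  refine add_le_add ?_ ?_
  · rw [le_div_iff₀ hD₁, sum_mul]
    refine le_trans (sum_le_sum fun w hw => ?_) hE
    rw [mem_filter] at hw
    have h1 := hd w hw.1 hw.2.2 hw.2.1
    have h2 : 0 < d w := hD₁.trans_le h1
    rw [div_mul_eq_mul_div, div_le_iff₀ h2]
    calc g w * D₁ ≤ g w * d w := mul_le_mul_of_nonneg_left h1 (hg w hw.1 hw.2.2).1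
      _ ≤ a w * d w := mul_le_mul_of_nonneg_right (hga w hw.1 hw.2.2 hw.2.1) h2.le
  · have h1 : ∑ w ∈ X with (w ∈ W ∧ P w), g w / d w ≤ #{w ∈ X | w ∈ W ∧ P w} • (Φ / Dl) := by
      refine sum_le_card_nsmul _ _ _ fun w hw => ?_
      rw [mem_filter] at hw
      exact div_le_div₀ hΦ (hg w hw.1 hw.2.2).2 hDl (hdl w hw.1 hw.2.2)
    refine h1.trans ?_
    rw [nsmul_eq_mul]
    have h2 := mul_le_mul_of_nonneg_right hT (by positivity : 0 ≤ Φ / Dl)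
    refine h2.trans (le_of_eq ?_)
    ring

/-- the load in one colour -/
theorem load {q h1 q1 h2 q2 h3 : V → ℝ} {D Dt Dl δ T Φ Φ₁ Φ₂ mg m m' : ℝ}
    (hδ : 0 ≤ δ) (hδ1 : δ ≤ 1 / 4) (hD : 0 < D) (hDl : 0 < Dl) (hΦ : 0 ≤ Φ)
    (hmg : 0 < mg) (hm : 0 < m) (hm' : 0 < m')
    (hTl : T / Dl ≤ δ) (hTm : T / m ≤ δ) (hTm' : T / m' ≤ δ) (hDt : 2 * Dt ≤ D)
    -- degrees
    (dAg : ∀ u ∈ A, u ∉ W → (#{y ∈ C | y ∉ W ∧ S u y} : ℝ) ≤ (1 + δ) * D)
    (dAt : ∀ u ∈ A, u ∈ W → (#{y ∈ C | y ∉ W ∧ S u y} : ℝ) ≤ 2 * Dt)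
    (dAn : ∀ u ∈ A, (#{y ∈ C | y ∈ W ∧ S u y} : ℝ) ≤ T)
    (dCg : ∀ y ∈ C, y ∉ W → (#{u ∈ A | u ∉ W ∧ S u y} : ℝ) ≤ (1 + δ) * D)
    (dCt : ∀ y ∈ C, y ∈ W → (#{u ∈ A | u ∉ W ∧ S u y} : ℝ) ≤ 2 * Dt)
    (dCn : ∀ y ∈ C, (#{u ∈ A | u ∈ W ∧ S u y} : ℝ) ≤ T)
    (dC2 : ∀ y ∈ C, y ∉ W → D / 2 ≤ dC A S y) (dCl : ∀ y ∈ C, Dl ≤ dC A S y)
    (dO2 : ∀ u ∈ A, u ∉ W → D / 8 ≤ dO C K S u) (dOl : ∀ u ∈ A, m' ≤ dO C K S u)
    (dM2 : ∀ y ∈ C, y ∉ K → y ∉ W → mg ≤ dM A MA S y) (dMl : ∀ y ∈ C, y ∉ K → m ≤ dM A MA S y)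
    -- residuals
    (hpA : ∀ u ∈ A, 0 ≤ pA u ∧ pA u ≤ Φ) (hpC : ∀ y ∈ C, 0 ≤ pC y ∧ pC y ≤ Φ)
    (hpAq : ∀ u ∈ A, u ∉ W → pA u ≤ q u) (hpCq : ∀ y ∈ C, y ∉ W → pC y ≤ q y)
    (hq2 : ∀ v, 0 ≤ q2 v)
    -- averages
    (e1 : ∀ u ∈ A, u ∉ W → ∑ y ∈ C with (y ∉ W ∧ S u y), q y ≤ D * h1 u + δ * D * Φ)
    (e2 : ∀ y ∈ C, y ∉ W → ∑ u ∈ A with (u ∉ W ∧ S u y), q1 u ≤ D * h2 y + δ * D * Φ₁)
    (e3 : ∀ u ∈ A, u ∉ W → ∑ y ∈ C with (y ∉ W ∧ S u y), q2 y ≤ D * h3 u + δ * D * Φ₂)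
    (hq1d : ∀ v, q v + 2 * h1 v + 3 * δ * Φ ≤ q1 v)
    (hq2d : ∀ v, q v + 8 * h2 v + 8 * δ * Φ₁ + 4 * δ * Φ ≤ q2 v) :
    (∀ u ∈ A, u ∈ MA → u ∉ W →
      pe A C MA K S pA pC u ≤ q1 u + D / mg * h3 u + δ * (D / mg) * Φ₂ + 45 * δ * Φ) ∧
    ∀ u ∈ A, u ∈ MA → pe A C MA K S pA pC u ≤ 4 * Φ + 2 * (D / mg) * (45 * Φ) + 45 * δ * Φ := by
  have hD2 : 0 < D / 2 := by positivity
  have hD8 : 0 < D / 8 := by positivity
  -- constant averages
  have cA : ∀ u ∈ A, (#{y ∈ C | y ∉ W ∧ S u y} : ℝ) ≤ (1 + δ) * D := by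
    intro u hu
    by_cases hW : u ∈ W
    · have := dAt u hu hW
      nlinarith
    · exact dAg u hu hW
  have cC : ∀ y ∈ C, (#{u ∈ A | u ∉ W ∧ S u y} : ℝ) ≤ (1 + δ) * D := by
    intro y hy
    by_cases hW : y ∈ W
    · have := dCt y hy hW
      nlinarith
    · exact dCg y hy hW
  -- `sa`
  have hsub : ∀ u ∈ A, ∑ y ∈ C with y ∈ K ∧ S u y, pC y / dC A S y ≤
      ∑ y ∈ C with S u y, pC y / dC A S y := by
    intro u _
    refine sum_le_sum_of_subset_of_nonneg ?_ ?_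
    · intro y hy
      rw [mem_filter] at hy ⊢
      exact ⟨hy.1, hy.2.2⟩
    · intro y hy _
      rw [mem_filter] at hy
      exact div_nonneg (hpC y hy.1).1 (hDl.le.trans (dCl y hy.1))
  have hsa0 : ∀ u ∈ A, 0 ≤ sa A C K S pA pC u := by
    intro u hu
    refine add_nonneg (hpA u hu).1 (sum_nonneg fun y hy => ?_)
    rw [mem_filter] at hy
    exact div_nonneg (hpC y hy.1).1 (hDl.le.trans (dCl y hy.1))
  have hsa : ∀ u ∈ A, sa A C K S pA pC u ≤ 4 * Φ := by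
    intro u hu
    have g1 := nsum (X := C) (P := fun y => S u y) (W := W) (g := pC) (d := dC A S)
      (a := fun _ => Φ) (E := (1 + δ) * D * Φ) hΦ hD2 hDl (fun y hy _ => hpC y hy)
      (fun y hy _ _ => (hpC y hy).2) (fun y hy _ hW => dC2 y hy hW) (fun y hy _ => dCl y hy)
      (dAn u hu) (by
        rw [sum_const, nsmul_eq_mul]
        exact mul_le_mul_of_nonneg_right (cA u hu) hΦ)
    have g2 := hsub u hu
    have g3 := (hpA u hu).2
    have g4 : (1 + δ) * D * Φ / (D / 2) = 2 * (1 + δ) * Φ := by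
      field_simp
    have g5 := mul_le_mul_of_nonneg_right hTl hΦ
    have g6 : 2 * (1 + δ) * Φ + δ * Φ ≤ 3 * Φ := by
      have : 2 * (1 + δ) + δ ≤ 3 := by linarith
      have := mul_le_mul_of_nonneg_right this hΦ
      linarith
    rw [sa]
    linarith
  have hsaq : ∀ u ∈ A, u ∉ W → sa A C K S pA pC u ≤ q1 u := by
    intro u hu hW
    have g1 := nsum (X := C) (P := fun y => S u y) (W := W) (g := pC) (d := dC A S)
      (a := q) (E := D * h1 u + δ * D * Φ) hΦ hD2 hDl (fun y hy _ => hpC y hy)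
      (fun y hy _ hW => hpCq y hy hW) (fun y hy _ hW => dC2 y hy hW) (fun y hy _ => dCl y hy)
      (dAn u hu) (e1 u hu hW)
    have g2 := hsub u hu
    have g3 := hpAq u hu hW
    have g4 : (D * h1 u + δ * D * Φ) / (D / 2) = 2 * h1 u + 2 * δ * Φ := by
      field_simp
    have g5 := mul_le_mul_of_nonneg_right hTl hΦ
    have g6 := hq1d u
    rw [sa]
    linarith
  -- `sc`
  have hsub2 : ∀ y ∈ C, ∑ u ∈ A with u ∉ MA ∧ S u y, sa A C K S pA pC u / dO C K S u ≤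
      ∑ u ∈ A with S u y, sa A C K S pA pC u / dO C K S u := by
    intro y _
    refine sum_le_sum_of_subset_of_nonneg ?_ ?_
    · intro u hu
      rw [mem_filter] at hu ⊢
      exact ⟨hu.1, hu.2.2⟩
    · intro u hu _
      rw [mem_filter] at hu
      exact div_nonneg (hsa0 u hu.1) (hm'.le.trans (dOl u hu.1))
  have hsc0 : ∀ y ∈ C, 0 ≤ sc A C MA K S pA pC y := by
    intro y hy
    refine add_nonneg (hpC y hy).1 (sum_nonneg fun u hu => ?_)
    rw [mem_filter] at hu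
    exact div_nonneg (hsa0 u hu.1) (hm'.le.trans (dOl u hu.1))
  have h4Φ : 0 ≤ 4 * Φ := by positivity
  have hsc : ∀ y ∈ C, sc A C MA K S pA pC y ≤ 45 * Φ := by
    intro y hy
    have g1 := nsum (X := A) (P := fun u => S u y) (W := W) (g := sa A C K S pA pC)
      (d := dO C K S) (a := fun _ => 4 * Φ) (E := (1 + δ) * D * (4 * Φ)) h4Φ hD8 hm'
      (fun u hu _ => ⟨hsa0 u hu, hsa u hu⟩)
      (fun u hu _ _ => hsa u hu) (fun u hu _ hW => dO2 u hu hW) (fun u hu _ => dOl u hu)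
      (dCn y hy) (by
        rw [sum_const, nsmul_eq_mul]
        exact mul_le_mul_of_nonneg_right (cC y hy) h4Φ)
    have g2 := hsub2 y hy
    have g3 := (hpC y hy).2
    have g4 : (1 + δ) * D * (4 * Φ) / (D / 8) = 32 * (1 + δ) * Φ := by
      field_simp
      ring
    have g5 := mul_le_mul_of_nonneg_right hTm' h4Φ
    have g6 : 32 * (1 + δ) * Φ + δ * (4 * Φ) ≤ 44 * Φ := by
      have : 32 * (1 + δ) + 4 * δ ≤ 44 := by linarith
      have := mul_le_mul_of_nonneg_right this hΦ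
      linarith
    rw [sc]
    linarith
  have hscq : ∀ y ∈ C, y ∉ W → sc A C MA K S pA pC y ≤ q2 y := by
    intro y hy hW
    have g1 := nsum (X := A) (P := fun u => S u y) (W := W) (g := sa A C K S pA pC)
      (d := dO C K S) (a := q1) (E := D * h2 y + δ * D * Φ₁) h4Φ hD8 hm'
      (fun u hu _ => ⟨hsa0 u hu, hsa u hu⟩)
      (fun u hu _ hW => hsaq u hu hW) (fun u hu _ hW => dO2 u hu hW) (fun u hu _ => dOl u hu)
      (dCn y hy) (e2 y hy hW)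
    have g2 := hsub2 y hy
    have g3 := hpCq y hy hW
    have g4 : (D * h2 y + δ * D * Φ₁) / (D / 8) = 8 * h2 y + 8 * δ * Φ₁ := by
      field_simp
    have g5 := mul_le_mul_of_nonneg_right hTm' h4Φ
    have g6 := hq2d y
    rw [sc]
    linarith
  have h45Φ : 0 ≤ 45 * Φ := by positivity
  constructor
  · intro u hu hMA hW
    have g1 := nsum (X := C) (P := fun y => y ∉ K ∧ S u y) (W := W) (g := sc A C MA K S pA pC)
      (d := dM A MA S) (a := q2) (E := D * h3 u + δ * D * Φ₂) (T := T) h45Φ hmg hm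
      (fun y hy _ => ⟨hsc0 y hy, hsc y hy⟩)
      (fun y hy _ hW => hscq y hy hW) (fun y hy hK hW => dM2 y hy hK.1 hW)
      (fun y hy hK => dMl y hy hK.1) (by
        refine le_trans ?_ (dAn u hu)
        norm_cast
        refine card_le_card fun y hy => ?_
        rw [mem_filter] at hy ⊢
        exact ⟨hy.1, hy.2.1, hy.2.2.2⟩) (by
        refine le_trans ?_ (e3 u hu hW)
        refine sum_le_sum_of_subset_of_nonneg ?_ fun y _ _ => hq2 y
        intro y hy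
        rw [mem_filter] at hy ⊢
        exact ⟨hy.1, hy.2.1, hy.2.2.2⟩)
    have g2 := hsaq u hu hW
    have g4 : (D * h3 u + δ * D * Φ₂) / mg = D / mg * h3 u + δ * (D / mg) * Φ₂ := by
      field_simp
    have g5 := mul_le_mul_of_nonneg_right hTm h45Φ
    rw [pe, if_pos hMA]
    linarith
  · intro u hu hMA
    have g1 := nsum (X := C) (P := fun y => y ∉ K ∧ S u y) (W := W) (g := sc A C MA K S pA pC)
      (d := dM A MA S) (a := fun _ => 45 * Φ) (E := (1 + δ) * D * (45 * Φ)) (T := T) h45Φ hmg hm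
      (fun y hy _ => ⟨hsc0 y hy, hsc y hy⟩)
      (fun y hy _ _ => hsc y hy) (fun y hy hK hW => dM2 y hy hK.1 hW)
      (fun y hy hK => dMl y hy hK.1) (by
        refine le_trans ?_ (dAn u hu)
        norm_cast
        refine card_le_card fun y hy => ?_
        rw [mem_filter] at hy ⊢
        exact ⟨hy.1, hy.2.1, hy.2.2.2⟩) (by
        rw [sum_const, nsmul_eq_mul]
        refine mul_le_mul_of_nonneg_right (le_trans ?_ (cA u hu)) h45Φ
        norm_cast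
        refine card_le_card fun y hy => ?_
        rw [mem_filter] at hy ⊢
        exact ⟨hy.1, hy.2.1, hy.2.2.2⟩)
    have g2 := hsa u hu
    have g4 : (1 + δ) * D * (45 * Φ) / mg = (1 + δ) * (D / mg) * (45 * Φ) := by
      field_simp
    have g5 := mul_le_mul_of_nonneg_right hTm h45Φ
    have g6 : (1 + δ) * (D / mg) * (45 * Φ) ≤ 2 * (D / mg) * (45 * Φ) := by
      refine mul_le_mul_of_nonneg_right (mul_le_mul_of_nonneg_right (by linarith) ?_) h45Φ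
      positivity
    rw [pe, if_pos hMA]
    linarith

end Load

end Pool.Agent.Work.MP_db9399_en
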