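import Pool.Agent.Work.MP_db9399_en.LOCDEF

/-!
# MP_db9399, ENGINE: locality of the good event (helper89)
-/

set_option autoImplicit false

namespace Pool.Agent.Work.MP_db9399_en

open Finset Classical
open Pool.Agent.Work.MP_db9399_all (nb pr DepOnI)

universe u

attribute [-instance] instDecidableEqSum

section Balls

variable {V : Type u} [Fintype V] {P M : ℕ} {G S : SimpleGraph V} {d r K0 T0 m1 L : ℕ}
  {ρ : ℝ} {c : V → Fin P} {N : Fin P → V → V} {K Km : Finset V}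

theorem mem_b1 {v x : V} : x ∈ b1 G v ↔ x = v ∨ G.Adj v x := by
  rw [b1, mem_insert, mem_nb]

theorem b1_symm {v x : V} (h : x ∈ b1 G v) : v ∈ b1 G x := by
  rw [mem_b1] at h ⊢
  rcases h with h | h
  · exact Or.inl h.symm
  · exact Or.inr h.symm

theorem b1_self (v : V) : v ∈ b1 G v := mem_b1.2 (Or.inl rfl)

theorem b2_of {v y x : V} (h : y ∈ b1 G v) (h' : x ∈ b1 G y) : x ∈ b2 G v :=
  mem_biUnion.2 ⟨y, h, h'⟩

theorem b3_of {v y x : V} (h : y ∈ b2 G v) (h' : x ∈ b1 G y) : x ∈ b3 G v :=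
  mem_biUnion.2 ⟨y, h, h'⟩

theorem b2_sub {v x : V} (h : x ∈ b2 G v) : x ∈ b3 G v := b3_of h (b1_self x)

theorem b1_sub {v x : V} (h : x ∈ b1 G v) : x ∈ b2 G v := b2_of h (b1_self x)

theorem b3_symm {v x : V} (h : x ∈ b3 G v) : v ∈ b3 G x := by
  obtain ⟨y, hy, hxy⟩ := mem_biUnion.1 h
  obtain ⟨z, hz, hyz⟩ := mem_biUnion.1 hy
  exact b3_of (b2_of (b1_symm hxy) (b1_symm hyz)) (b1_symm hz)

theorem b3_card (hd : ∀ v, (nb G v).card ≤ d) (v : V) : #(b3 G v) ≤ (d + 1) ^ 3 := by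
  have h1 : ∀ v, #(b1 G v) ≤ d + 1 := fun v => (card_insert_le _ _).trans
    (Nat.add_le_add_right (hd v) 1)
  have h2 : ∀ v, #(b2 G v) ≤ (d + 1) * (d + 1) := fun v =>
    card_biUnion_le_card_mul _ _ _ (fun x _ => h1 x) |>.trans (Nat.mul_le_mul_right _ (h1 v))
  have h3 : #(b3 G v) ≤ (d + 1) * (d + 1) * (d + 1) :=
    card_biUnion_le_card_mul _ _ _ (fun x _ => h1 x) |>.trans (Nat.mul_le_mul_right _ (h2 v))
  refine h3.trans (le_of_eq ?_)
  ring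

theorem mem_Qs1 {v x : V} {b : Fin P} : (Sum.inl (b, x) : Co V P) ∈ Qs G v ↔ x ∈ b3 G v := by
  rw [Qs, mem_filter]
  constructor
  · rintro ⟨_, ⟨b', x', h, hx⟩ | ⟨x', h, hx⟩ | ⟨x', y', h, hx⟩⟩
    · rw [Sum.inl.injEq, Prod.mk.injEq] at h
      rw [h.2]
      exact hx
    · cases h
    · cases h
  · intro h
    exact ⟨mem_univ _, Or.inl ⟨b, x, rfl, h⟩⟩

theorem mem_Qs2 {v x : V} : (Sum.inr (Sum.inl x) : Co V P) ∈ Qs G v ↔ x ∈ b3 G v := by
  rw [Qs, mem_filter]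
  constructor
  · rintro ⟨_, ⟨b', x', h, hx⟩ | ⟨x', h, hx⟩ | ⟨x', y', h, hx⟩⟩
    · cases h
    · rw [Sum.inr.injEq, Sum.inl.injEq] at h
      rw [h]
      exact hx
    · rw [Sum.inr.injEq] at h
      cases h
  · intro h
    exact ⟨mem_univ _, Or.inr (Or.inl ⟨x, rfl, h⟩)⟩

theorem mem_Qs3 {v x y : V} : (Sum.inr (Sum.inr (x, y)) : Co V P) ∈ Qs G v ↔
    x ∈ b3 G v ∧ y ∈ b3 G v := by
  rw [Qs, mem_filter]
  constructor
  · rintro ⟨_, ⟨b', x', h, hx⟩ | ⟨x', h, hx⟩ | ⟨x', y', h, hx⟩⟩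
    · cases h
    · rw [Sum.inr.injEq] at h
      cases h
    · rw [Sum.inr.injEq, Sum.inr.injEq, Prod.mk.injEq] at h
      rw [h.1, h.2]
      exact hx
  · intro h
    exact ⟨mem_univ _, Or.inr (Or.inr ⟨x, y, rfl, h⟩)⟩

theorem Qs_card (hd : ∀ v, (nb G v).card ≤ d) (v : V) :
    #(Qs (P := P) G v) ≤ (P + 1) * (d + 1) ^ 3 + (d + 1) ^ 6 := by
  have h1 : Qs (P := P) G v ⊆
      (((univ : Finset (Fin P)) ×ˢ b3 G v).image fun p => (Sum.inl p : Co V P)) ∪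
      (((b3 G v).image fun x => (Sum.inr (Sum.inl x) : Co V P)) ∪
      ((b3 G v ×ˢ b3 G v).image fun p => (Sum.inr (Sum.inr p) : Co V P))) := by
    intro j hj
    rw [mem_union, mem_union, mem_image, mem_image, mem_image]
    rcases j with ⟨b, x⟩ | x | ⟨x, y⟩
    · exact Or.inl ⟨(b, x), mem_product.2 ⟨mem_univ _, mem_Qs1.1 hj⟩, rfl⟩
    · exact Or.inr (Or.inl ⟨x, mem_Qs2.1 hj, rfl⟩)
    · exact Or.inr (Or.inr ⟨(x, y), mem_product.2 (mem_Qs3.1 hj), rfl⟩)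
  have h2 := (card_le_card h1).trans (card_union_le _ _)
  have h3 := card_union_le ((b3 G v).image fun x => (Sum.inr (Sum.inl x) : Co V P))
    ((b3 G v ×ˢ b3 G v).image fun p => (Sum.inr (Sum.inr p) : Co V P))
  have h4 : #(((univ : Finset (Fin P)) ×ˢ b3 G v).image fun p => (Sum.inl p : Co V P)) ≤
      P * (d + 1) ^ 3 := by
    refine card_image_le.trans ?_
    rw [card_product, card_univ, Fintype.card_fin]
    exact Nat.mul_le_mul_left _ (b3_card hd v)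
  have h5 : #((b3 G v).image fun x => (Sum.inr (Sum.inl x) : Co V P)) ≤ (d + 1) ^ 3 :=
    card_image_le.trans (b3_card hd v)
  have h6 : #((b3 G v ×ˢ b3 G v).image fun p => (Sum.inr (Sum.inr p) : Co V P)) ≤
      (d + 1) ^ 3 * (d + 1) ^ 3 := by
    refine card_image_le.trans ?_
    rw [card_product]
    exact Nat.mul_le_mul (b3_card hd v) (b3_card hd v)
  have h7 : (P + 1) * (d + 1) ^ 3 + (d + 1) ^ 6 =
      P * (d + 1) ^ 3 + ((d + 1) ^ 3 + (d + 1) ^ 3 * (d + 1) ^ 3) := by ring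
  rw [h7]
  omega

theorem Qs_cnt (hd : ∀ v, (nb G v).card ≤ d) (y : Co V P) :
    #(univ.filter fun v => y ∈ Qs G v) ≤ (d + 1) ^ 3 := by
  rcases y with ⟨b, x⟩ | x | ⟨x, y⟩
  · refine (card_le_card fun v hv => ?_).trans (b3_card hd x)
    rw [mem_filter, mem_Qs1] at hv
    exact b3_symm hv.2
  · refine (card_le_card fun v hv => ?_).trans (b3_card hd x)
    rw [mem_filter, mem_Qs2] at hv
    exact b3_symm hv.2
  · refine (card_le_card fun v hv => ?_).trans (b3_card hd x)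
    rw [mem_filter, mem_Qs3] at hv
    exact b3_symm hv.2.1

end Balls

section Loc

variable {V : Type u} [Fintype V] {P M : ℕ} {G S : SimpleGraph V} {d r K0 T0 m1 L : ℕ}
  {ρ D Dt δ Mr : ℝ}
  {c : V → Fin P} {N : Fin P → V → V} {K Km : Finset V} {lab : Fin P → V → Bool}
  {ix : V × V → Fin P → ℕ} {θ θ' : ℕ → ℝ} {ω ω' : Co V P → Fin M} {v : V}

theorem N_b1 (hE : EIn G S d P r K0 T0 ρ c N K Km) (b : Fin P) (w : V) : N b w ∈ b1 G w := by
  rw [mem_b1]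
  by_cases h : N b w = w
  · exact Or.inl h
  · exact Or.inr (hE.NG b w h).1

theorem S_b1 (hE : EIn G S d P r K0 T0 ρ c N K Km) {v w : V} (h : S.Adj v w) : w ∈ b1 G v :=
  mem_b1.2 (Or.inr (hE.hSG h))

theorem loc_cn (hE : EIn G S d P r K0 T0 ρ c N K Km) (h : ∀ j ∈ Qs G v, ω j = ω' j) (b : Fin P)
    {w : V} (hw : w ∈ b2 G v) : cn N b w ω = cn N b w ω' := by
  rw [cn, cn, h]
  rw [mem_Qs1]
  rcases rp_mem N b w with h1 | h1
  · rw [h1]
    exact b2_sub hw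
  · rw [h1]
    exact b3_of hw (N_b1 hE b w)

theorem loc_st (h : ∀ j ∈ Qs G v, ω j = ω' j) {w : V} (hw : w ∈ b3 G v) : st w ω = st w ω' := by
  rw [st, st, h]
  exact mem_Qs2.2 hw

theorem loc_eg (h : ∀ j ∈ Qs G v, ω j = ω' j) {x y : V} (hx : x ∈ b3 G v) (hy : y ∈ b3 G v) :
    eg x y ω = eg x y ω' := by
  rw [eg, eg, h]
  rcases ep_mem x y with h1 | h1
  · rw [h1]
    exact mem_Qs3.2 ⟨hx, hy⟩
  · rw [h1]
    exact mem_Qs3.2 ⟨hy, hx⟩

theorem loc_ac (hE : EIn G S d P r K0 T0 ρ c N K Km) (h : ∀ j ∈ Qs G v, ω j = ω' j) (b : Fin P)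
    {w : V} (hw : w ∈ b2 G v) (s : Bool) :
    ac c N Km K0 m1 b w s ω ↔ ac c N Km K0 m1 b w s ω' := by
  have h1 := loc_cn hE h b hw
  have h2 := loc_st h (b2_sub hw)
  have h3 := loc_st h (b3_of hw (N_b1 hE b w))
  simp only [ac, dbl, h1, h2, h3]

theorem loc_NG (hE : EIn G S d P r K0 T0 ρ c N K Km) (h : ∀ j ∈ Qs G v, ω j = ω' j) (b : Fin P)
    (s : Bool) : NG c N S Km K0 m1 b v s ω = NG c N S Km K0 m1 b v s ω' := by
  ext w
  rw [mem_NG, mem_NG]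
  refine and_congr_right fun hw => ?_
  have h1 := b1_sub (S_b1 hE hw)
  have h2 := loc_ac (m1 := m1) hE h b h1 s
  have h3 := loc_eg h (b2_sub (b1_sub (b1_self v))) (b2_sub h1)
  simp only [gn, h2, h3]

theorem loc_NT (hE : EIn G S d P r K0 T0 ρ c N K Km) (h : ∀ j ∈ Qs G v, ω j = ω' j) (b : Fin P)
    (s : Bool) : NT c N S Km ix K0 m1 b v s ω = NT c N S Km ix K0 m1 b v s ω' := by
  ext w
  rw [mem_NT, mem_NT]
  refine and_congr_right fun hw => ?_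
  have h1 := b1_sub (S_b1 hE hw)
  have h2 := loc_ac (m1 := m1) hE h b h1 s
  have h3 := loc_eg h (b2_sub (b1_sub (b1_self v))) (b2_sub h1)
  simp only [pk, h2, h3]

theorem loc_BB (hE : EIn G S d P r K0 T0 ρ c N K Km) (h : ∀ j ∈ Qs G v, ω j = ω' j) (b : Fin P) :
    BB N S b v ω = BB N S b v ω' := by
  ext w
  rw [BB, BB, mem_filter, mem_filter, mem_nb]
  refine and_congr_right fun hw => ?_
  have h1 := b1_sub (S_b1 hE hw)
  have h2 : ∀ b', cn N b' w ω = cn N b' w ω' := fun b' => loc_cn hE h b' h1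
  have h3 : ∀ b', cn N b' v ω = cn N b' v ω' := fun b' => loc_cn hE h b' (b1_sub (b1_self v))
  simp only [bl, h2, h3]

theorem loc_MM (h : ∀ j ∈ Qs G v, ω j = ω' j) {w : V} (hw : w ∈ b3 G v) (s : Bool) :
    w ∈ MM Km K0 m1 s ω ↔ w ∈ MM Km K0 m1 s ω' := by
  rw [mem_MM, mem_MM, loc_st h hw]

theorem loc_tn (hE : EIn G S d P r K0 T0 ρ c N K Km) (h : ∀ j ∈ Qs G v, ω j = ω' j) (b : Fin P)
    (s : Bool) {w : V} (hw : w ∈ b1 G v) :
    tn c N S lab ix K0 m1 b s w ω = tn c N S lab ix K0 m1 b s w ω' := by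
  rw [tn, tn]
  congr 2
  ext z
  rw [mem_filter, mem_filter, mem_nb]
  refine and_congr_right fun hz => ?_
  have h3 := loc_eg h (b2_sub (b1_sub hw)) (b2_sub (b2_of hw (S_b1 hE hz)))
  simp only [pk, h3]

theorem loc_GdV (hE : EIn G S d P r K0 T0 ρ c N K Km) (h : ∀ j ∈ Qs G v, ω j = ω' j) (b : Fin P)
    (hG : GdV c N S Km lab ix K0 m1 r T0 L ρ D Dt δ Mr θ θ' K v b ω) :
    GdV c N S Km lab ix K0 m1 r T0 L ρ D Dt δ Mr θ θ' K v b ω' := by
  have hNG := fun s => loc_NG (m1 := m1) hE h b s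
  have hNT := fun s => loc_NT (ix := ix) (m1 := m1) hE h b s
  have hA : ∀ (g : V → ℝ) (Φ : ℝ), AVv c N S Km K0 m1 r D δ b v ω g Φ →
      AVv c N S Km K0 m1 r D δ b v ω' g Φ := by
    intro g Φ hg s
    rw [← hNG s]
    exact hg s
  have hMM : ∀ s, ∀ w, S.Adj v w → (w ∈ MM Km K0 m1 s ω ↔ w ∈ MM Km K0 m1 s ω') := fun s w hw =>
    loc_MM h (b2_sub (b1_sub (S_b1 hE hw))) s
  refine ⟨hA _ _ hG.a0, hA _ _ hG.a1, fun s j hj => hA _ _ (hG.a2 s j hj), hA _ _ hG.a3,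
    hA _ _ hG.a4, hA _ _ hG.a5, ?_, ?_, ?_, ?_, ?_, ?_⟩
  · rw [← loc_BB hE h b]
    exact hG.e2
  · intro hv s
    rw [← hNT s]
    exact hG.e3 hv s
  · intro hv s
    have h1 := hG.e4 hv s
    have h2 : ∑ w ∈ NG c N S Km K0 m1 b v (!s) ω', tn c N S lab ix K0 m1 b s w ω' =
        ∑ w ∈ NG c N S Km K0 m1 b v (!s) ω, tn c N S lab ix K0 m1 b s w ω := by
      rw [← hNG]
      refine sum_congr rfl fun w hw => ?_
      exact (loc_tn hE h b s (S_b1 hE (mem_NG.1 hw).1)).symm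
    rw [h2]
    exact h1
  · intro hv s
    refine (hG.e5 hv s).trans (le_of_eq ?_)
    congr 2
    ext w
    rw [mem_filter, mem_filter, ← hNG s]
    exact and_congr_right fun hw => hMM s w (mem_NG.1 hw).1
  · intro hv hv' s
    refine (hG.e5t hv hv' s).trans (le_of_eq ?_)
    congr 2
    ext w
    rw [mem_filter, mem_filter, ← hNT s]
    exact and_congr_right fun hw => hMM s w (mem_NT.1 hw).1
  · intro hv s
    rw [← hNT s]
    exact hG.e6 hv s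

end Loc

theorem stmt_LOC : Stmt_LOC.{u} := by
  intro V _ G S d P r K0 T0 L m1 M ρ D Dt δ Mr c N K Km lab ix θ θ' hE
  refine ⟨fun v => ⟨Sum.inl (c v, v), mem_Qs1.2 (b2_sub (b1_sub (b1_self v)))⟩, fun v => ?_,
    fun y => ?_, fun v ω ω' h => ?_, fun v F ω ω' h => ?_⟩
  · exact_mod_cast Qs_card hE.dG v
  · exact_mod_cast Qs_cnt hE.dG y
  · refine propext ⟨fun hG b => loc_GdV hE h b (hG b), fun hG b => loc_GdV hE ?_ b (hG b)⟩
    intro j hj
    exact (h j hj).symm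
  · have h1 : ∀ b, cn N b v ω = cn N b v ω' := fun b => loc_cn hE h b (b1_sub (b1_self v))
    simp only [h1]

end Pool.Agent.Work.MP_db9399_en
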