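import Pool.Agent.Work.MP_db9399_en.Interface

/-!
# MP_db9399, ENGINE: the random objects (helper89)

Coordinates: `(b, v)` the coin of the `N b`-edge with representative `v`; `v` the star coin;
`(u, v)` the coin of an edge of the reserve.  All coins are uniform in `Fin M`, `M = 4 K0 m1`.
-/

set_option autoImplicit false

namespace Pool.Agent.Work.MP_db9399_en

open Finset Classical
open Pool.Agent.Work.MP_db9399_all (nb)

universe u

/-- the coordinates -/
abbrev Co (V : Type u) (P : ℕ) : Type u := (Fin P × V) ⊕ (V ⊕ (V × V))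

section Defs

variable {V : Type u} [Fintype V] {P M : ℕ}

/-- a numbering of the vertices -/
noncomputable def enc (v : V) : ℕ := (Fintype.equivFin V v : ℕ)

theorem enc_inj {v w : V} (h : enc v = enc w) : v = w := by
  have := Fin.ext h
  exact (Fintype.equivFin V).injective this

/-- the representative of the `N b`-edge of `v` -/
noncomputable def rp (N : Fin P → V → V) (b : Fin P) (v : V) : V :=
  if enc v ≤ enc (N b v) then v else N b v

/-- the representative of the pair `u v` -/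
noncomputable def ep (u v : V) : V × V := if enc u ≤ enc v then (u, v) else (v, u)

theorem ep_comm (u v : V) : ep u v = ep v u := by
  rcases lt_trichotomy (enc u) (enc v) with h | h | h
  · rw [ep, ep, if_pos h.le, if_neg (not_le.2 h)]
  · rw [enc_inj h]
  · rw [ep, ep, if_neg (not_le.2 h), if_pos h.le]

theorem ep_mem (u v : V) : ep u v = (u, v) ∨ ep u v = (v, u) := by
  rw [ep]
  split_ifs
  · exact Or.inl rfl
  · exact Or.inr rfl

variable (c : V → Fin P) (N : Fin P → V → V) (S : SimpleGraph V) (Km : Finset V)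
  (lab : Fin P → V → Bool) (ix : V × V → Fin P → ℕ) (K0 m1 : ℕ)

/-- the coin of `v` in colour `b` -/
noncomputable def cn (b : Fin P) (v : V) (ω : Co V P → Fin M) : ℕ := (ω (Sum.inl (b, rp N b v)) : ℕ)

/-- the star coin -/
def st (v : V) (ω : Co V P → Fin M) : ℕ := (ω (Sum.inr (Sum.inl v)) : ℕ)

/-- the coin of a reserve edge -/
noncomputable def eg (u v : V) (ω : Co V P → Fin M) : ℕ := (ω (Sum.inr (Sum.inr (ep u v))) : ℕ)

/-- `v` is a star vertex of type `s` -/
def star (v : V) (s : Bool) (ω : Co V P → Fin M) : Prop :=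
  v ∈ Km ∧ st v ω / (K0 * m1) = if s then 0 else 1

/-- the star vertices of type `s` -/
noncomputable def MM (s : Bool) (ω : Co V P → Fin M) : Finset V := {v | star Km K0 m1 v s ω}

/-- both ends of the `N b`-edge of `v` may be star vertices -/
def spc (b : Fin P) (v : V) : Prop := v ∈ Km ∧ N b v ∈ Km

/-- width of the windows -/
noncomputable def hh (b : Fin P) (v : V) : ℕ := if spc N Km b v then 4 else 3

/-- both ends of the `N b`-edge of `v` are star vertices -/
def dbl (b : Fin P) (v : V) (ω : Co V P → Fin M) : Prop :=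
  v ∈ Km ∧ N b v ∈ Km ∧ st v ω / (K0 * m1) < 2 ∧ st (N b v) ω / (K0 * m1) < 2

/-- `v`, not a token, is active in colour `b` on the side `s` -/
def ac (b : Fin P) (v : V) (s : Bool) (ω : Co V P → Fin M) : Prop :=
  c v ≠ b ∧ v ∉ tk c N b ∧ ¬ dbl N Km K0 m1 b v ω ∧
    if decide (v = rp N b v) = s then cn N b v ω < hh N Km b v
      else hh N Km b v ≤ cn N b v ω ∧ cn N b v ω < 2 * hh N Km b v

/-- the side `s` of colour `b` -/
noncomputable def XX (b : Fin P) (s : Bool) (ω : Co V P → Fin M) : Finset V :=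
  {v | v ∈ tks c N lab b s ∨ ac c N Km K0 m1 b v s ω}

/-- generic edge -/
def gn (u v : V) (ω : Co V P → Fin M) : Prop := eg u v ω < 2 * (K0 * m1)

/-- the edge has picked colour `b` -/
def pk (b : Fin P) (u v : V) (ω : Co V P → Fin M) : Prop :=
  2 * (K0 * m1) ≤ eg u v ω ∧ (eg u v ω - 2 * (K0 * m1)) / m1 = ix (ep u v) b

/-- the edge is blocked for `b` -/
def bl (b : Fin P) (u v : V) (ω : Co V P → Fin M) : Prop :=
  ∃ b', b' ≠ b ∧ cn N b' u ω < 8 ∧ cn N b' v ω < 8

/-- the reserve graph of colour `b` -/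
def SS (b : Fin P) (u v : V) (ω : Co V P → Fin M) : Prop :=
  S.Adj u v ∧ (((u ∈ tk c N b ∨ v ∈ tk c N b) ∧ pk ix K0 m1 b u v ω) ∨
    (u ∉ tk c N b ∧ v ∉ tk c N b ∧ gn K0 m1 u v ω ∧ ¬ bl N b u v ω))

end Defs

section Facts

variable {V : Type u} [Fintype V] {P M : ℕ} {G S : SimpleGraph V} {d r K0 T0 m1 : ℕ} {ρ : ℝ}
  {c : V → Fin P} {N : Fin P → V → V} {K Km : Finset V} {lab : Fin P → V → Bool}
  {ix : V × V → Fin P → ℕ} {ω : Co V P → Fin M}

theorem rp_N (hN : ∀ b v, N b (N b v) = v) (b : Fin P) (v : V) : rp N b (N b v) = rp N b v := by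
  rw [rp, rp, hN]
  rcases lt_trichotomy (enc v) (enc (N b v)) with h | h | h
  · rw [if_neg (not_le.2 h), if_pos h.le]
  · rw [if_pos h.ge, if_pos h.le]
    exact (enc_inj h).symm
  · rw [if_pos h.le, if_neg (not_le.2 h)]

theorem rp_mem (N : Fin P → V → V) (b : Fin P) (v : V) : rp N b v = v ∨ rp N b v = N b v := by
  rw [rp]
  split_ifs
  · exact Or.inl rfl
  · exact Or.inr rfl

theorem rp_rp (hN : ∀ b v, N b (N b v) = v) (b : Fin P) (v : V) : rp N b (rp N b v) = rp N b v := by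
  rcases rp_mem N b v with h | h
  · rw [h, h]
  · rw [h, rp_N hN, h]

theorem rp_eq (hN : ∀ b v, N b (N b v) = v) {b : Fin P} {v w : V} (h : rp N b v = rp N b w) :
    w = v ∨ w = N b v := by
  rcases rp_mem N b v with h1 | h1 <;> rcases rp_mem N b w with h2 | h2
  · left
    rw [← h1, h, h2]
  · right
    rw [h1, h2] at h
    rw [h, hN]
  · right
    rw [← h1, h, h2]
  · left
    rw [h1, h2] at h
    rw [← hN b v, h, hN]

omit [Fintype V] in
theorem mem_nb [Fintype V] {S : SimpleGraph V} {v w : V} : w ∈ nb S v ↔ S.Adj v w := by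
  simp only [nb, mem_filter, mem_univ, true_and]

theorem mem_tk {b : Fin P} {v : V} : v ∈ tk c N b ↔ c v ≠ b ∧ (N b v = v ∨ c (N b v) = b) := by
  simp only [tk, mem_filter, mem_univ, true_and]

theorem mem_tks {b : Fin P} {s : Bool} {v : V} :
    v ∈ tks c N lab b s ↔ v ∈ tk c N b ∧ lab b v = s := by
  simp only [tks, mem_filter]

theorem mem_XX {b : Fin P} {s : Bool} {v : V} :
    v ∈ XX c N Km lab K0 m1 b s ω ↔ v ∈ tks c N lab b s ∨ ac c N Km K0 m1 b v s ω := by
  simp only [XX, mem_filter, mem_univ, true_and]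

omit [Fintype V] in
theorem star_iff {v : V} {s : Bool} {ω : Co V P → Fin M} :
    star Km K0 m1 v s ω ↔ v ∈ Km ∧ st v ω / (K0 * m1) = if s then 0 else 1 := Iff.rfl

theorem mem_MM {v : V} {s : Bool} {ω : Co V P → Fin M} :
    v ∈ MM Km K0 m1 s ω ↔ v ∈ Km ∧ st v ω / (K0 * m1) = if s then 0 else 1 := by
  rw [MM, mem_filter, star_iff]
  exact ⟨fun h => h.2, fun h => ⟨mem_univ _, h⟩⟩

theorem not_tk {b : Fin P} {v : V} (hc : c v ≠ b) (h : v ∉ tk c N b) :
    N b v ≠ v ∧ c (N b v) ≠ b := by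
  rw [mem_tk, not_and] at h
  have := h hc
  push Not at this
  exact this

theorem tk_N (hN : ∀ b v, N b (N b v) = v) {b : Fin P} {v : V} (hc : c v ≠ b)
    (h : v ∉ tk c N b) : N b v ∉ tk c N b := by
  obtain ⟨h1, h2⟩ := not_tk hc h
  rw [mem_tk, not_and, hN]
  intro _
  push Not
  exact ⟨fun h' => h1 h'.symm, hc⟩

theorem XX_tk {b : Fin P} {s : Bool} {v : V} (hv : v ∈ XX c N Km lab K0 m1 b s ω)
    (h : v ∈ tk c N b) : v ∈ tks c N lab b s := by
  rcases mem_XX.1 hv with h1 | h1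
  · exact h1
  · exact absurd h h1.2.1

theorem XX_ac {b : Fin P} {s : Bool} {v : V} (hv : v ∈ XX c N Km lab K0 m1 b s ω)
    (h : v ∉ tk c N b) : ac c N Km K0 m1 b v s ω := by
  rcases mem_XX.1 hv with h1 | h1
  · exact absurd (mem_tks.1 h1).1 h
  · exact h1

theorem XX_c {b : Fin P} {s : Bool} {v : V} (hv : v ∈ XX c N Km lab K0 m1 b s ω) : c v ≠ b := by
  rcases mem_XX.1 hv with h1 | h1
  · exact (mem_tk.1 (mem_tks.1 h1).1).1
  · exact h1.1

theorem ac_cn {b : Fin P} {s : Bool} {v : V} (h : ac c N Km K0 m1 b v s ω) : cn N b v ω < 8 := by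
  have h1 := h.2.2.2
  have h2 : hh N Km b v ≤ 4 := by
    rw [hh]
    split_ifs <;> norm_num
  split_ifs at h1 <;> omega

theorem XX_disj (b : Fin P) (s : Bool) :
    Disjoint (XX c N Km lab K0 m1 b s ω) (XX c N Km lab K0 m1 b (!s) ω) := by
  rw [Finset.disjoint_left]
  intro v h1 h2
  by_cases h : v ∈ tk c N b
  · have h3 := (mem_tks.1 (XX_tk h1 h)).2
    have h4 := (mem_tks.1 (XX_tk h2 h)).2
    rw [h3] at h4
    cases s <;> simp at h4
  · have h3 := (XX_ac h1 h).2.2.2
    have h4 := (XX_ac h2 h).2.2.2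
    by_cases hd : decide (v = rp N b v) = s
    · rw [if_pos hd] at h3
      rw [if_neg (by rw [hd]; cases s <;> simp)] at h4
      omega
    · rw [if_neg hd] at h3
      rw [if_pos (by cases s <;> simpa using hd)] at h4
      omega

theorem XX_N (hN : ∀ b v, N b (N b v) = v) {b : Fin P} {s : Bool} {v : V}
    (hv : v ∈ XX c N Km lab K0 m1 b s ω) (h : v ∉ tk c N b) :
    N b v ∈ XX c N Km lab K0 m1 b (!s) ω ∧ N b v ∉ tk c N b := by
  obtain ⟨h1, h2, h3, h4⟩ := XX_ac hv h
  obtain ⟨h5, h6⟩ := not_tk h1 h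
  have h7 := tk_N hN h1 h
  refine ⟨mem_XX.2 (Or.inr ⟨h6, h7, ?_, ?_⟩), h7⟩
  · intro hd
    refine h3 ⟨?_, hd.1, ?_, hd.2.2.1⟩
    · rw [← hN b v]
      exact hd.2.1
    · have := hd.2.2.2
      rwa [hN] at this
  · have e1 : hh N Km b (N b v) = hh N Km b v := by
      rw [hh, hh]
      have : spc N Km b (N b v) ↔ spc N Km b v := by
        rw [spc, spc, hN]
        exact and_comm
      by_cases hs : spc N Km b v
      · rw [if_pos hs, if_pos (this.2 hs)]
      · rw [if_neg hs, if_neg (fun h' => hs (this.1 h'))]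
    have e2 : cn N b (N b v) ω = cn N b v ω := by
      rw [cn, cn, rp_N hN]
    have e3 : decide (N b v = rp N b (N b v)) = !decide (v = rp N b v) := by
      rw [rp_N hN]
      rcases rp_mem N b v with h8 | h8
      · rw [h8]
        simp [h5]
      · rw [h8]
        simp
        exact fun h' => h5 h'.symm
    rw [e1, e2, e3]
    by_cases hd : decide (v = rp N b v) = s
    · rw [if_pos hd] at h4
      rw [if_pos (by rw [hd])]
      exact h4
    · rw [if_neg hd] at h4
      rw [if_neg (by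
        intro h'
        apply hd
        cases s <;> simpa using h')]
      exact h4

theorem XX_out (hN : ∀ b v, N b (N b v) = v) {b : Fin P} {v : V} (hc : c v ≠ b)
    (h1 : v ∉ XX c N Km lab K0 m1 b true ω) (h2 : v ∉ XX c N Km lab K0 m1 b false ω) :
    N b v ≠ v ∧ c (N b v) ≠ b ∧ N b v ∉ XX c N Km lab K0 m1 b true ω ∧
      N b v ∉ XX c N Km lab K0 m1 b false ω := by
  have h3 : v ∉ tk c N b := by
    intro h
    cases hl : lab b v
    · exact h2 (mem_XX.2 (Or.inl (mem_tks.2 ⟨h, hl⟩)))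
    · exact h1 (mem_XX.2 (Or.inl (mem_tks.2 ⟨h, hl⟩)))
  obtain ⟨h4, h5⟩ := not_tk hc h3
  have h6 := tk_N hN hc h3
  refine ⟨h4, h5, fun h => ?_, fun h => ?_⟩
  · have := (XX_N hN h h6).1
    rw [hN] at this
    exact h2 this
  · have := (XX_N hN h h6).1
    rw [hN] at this
    exact h1 this

theorem SS_comm (b : Fin P) (u v : V) :
    SS c N S ix K0 m1 b u v ω ↔ SS c N S ix K0 m1 b v u ω := by
  have e1 : eg u v ω = eg v u ω := by rw [eg, eg, ep_comm]
  have e2 : bl N b u v ω ↔ bl N b v u ω := by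
    simp only [bl]
    constructor <;>
    · rintro ⟨b', h1, h2, h3⟩
      exact ⟨b', h1, h3, h2⟩
  simp only [SS, pk, gn, e1, e2, ep_comm u v, S.adj_comm u v]
  constructor <;>
  · rintro ⟨h1, h2⟩
    refine ⟨h1, ?_⟩
    rcases h2 with h2 | h2
    · exact Or.inl ⟨h2.1.symm, h2.2⟩
    · exact Or.inr ⟨h2.2.1, h2.1, h2.2.2⟩

/-- the reserve edges of different colours are different -/
theorem SS_inj (hix : ∀ u v, S.Adj u v → ∀ b b', (u ∈ tk c N b ∨ v ∈ tk c N b) →
      (u ∈ tk c N b' ∨ v ∈ tk c N b') → ix (ep u v) b = ix (ep u v) b' → b = b')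
    {b b' : Fin P} {s' t' : Bool} {u v : V}
    (hu' : u ∈ XX c N Km lab K0 m1 b' s' ω) (hv' : v ∈ XX c N Km lab K0 m1 b' t' ω)
    (h : SS c N S ix K0 m1 b u v ω) (h' : SS c N S ix K0 m1 b' u v ω) : b = b' := by
  obtain ⟨hS, h⟩ := h
  obtain ⟨_, h'⟩ := h'
  rcases h with ⟨h1, h2⟩ | ⟨h1, h2, h3, h4⟩
  · rcases h' with ⟨h1', h2'⟩ | ⟨_, _, h3', _⟩
    · exact hix u v hS b b' h1 h1' (h2.2.symm.trans h2'.2)
    · exfalso
      have := h2.1
      rw [gn] at h3'
      omega
  · rcases h' with ⟨_, h2'⟩ | ⟨h1', h2', _, _⟩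
    · exfalso
      have := h2'.1
      rw [gn] at h3
      omega
    · by_contra hne
      exact h4 ⟨b', fun e => hne e.symm, ac_cn (XX_ac hu' h1'), ac_cn (XX_ac hv' h2')⟩

theorem MM_disj : Disjoint (MM Km K0 m1 true ω) (MM Km K0 m1 false ω) := by
  rw [Finset.disjoint_left]
  intro v h1 h2
  have h3 := (mem_MM.1 h1).2
  have h4 := (mem_MM.1 h2).2
  rw [h3] at h4
  simp at h4

/-- two adjacent star vertices are joined by a kept edge -/
theorem MM_kept (h : EIn G S d P r K0 T0 ρ c N K Km) {v w : V}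
    (hv : v ∈ MM Km K0 m1 true ω ∪ MM Km K0 m1 false ω)
    (hw : w ∈ MM Km K0 m1 true ω ∪ MM Km K0 m1 false ω) (hvw : G.Adj v w) :
    ∃ b, N b v = w ∧ c v ≠ b ∧ v ∉ XX c N Km lab K0 m1 b true ω ∧
      v ∉ XX c N Km lab K0 m1 b false ω := by
  have key : ∀ x, x ∈ MM Km K0 m1 true ω ∪ MM Km K0 m1 false ω →
      x ∈ Km ∧ st x ω / (K0 * m1) < 2 := by
    intro x hx
    rcases mem_union.1 hx with hx | hx
    · rw [mem_MM] at hx
      refine ⟨hx.1, ?_⟩
      rw [hx.2]
      norm_num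
    · rw [mem_MM] at hx
      refine ⟨hx.1, ?_⟩
      rw [hx.2]
      norm_num
  obtain ⟨v1, v2⟩ := key v hv
  obtain ⟨w1, w2⟩ := key w hw
  obtain ⟨b, h1, h2, h3⟩ := h.K3 v v1 w w1 hvw
  have h4 : v ∉ tk c N b := by
    rw [mem_tk, not_and, h1]
    intro _
    push Not
    exact ⟨hvw.ne', h3⟩
  refine ⟨b, h1, h2, fun hx => ?_, fun hx => ?_⟩ <;>
  · refine (XX_ac hx h4).2.2.1 ⟨v1, ?_, v2, ?_⟩
    · rw [h1]
      exact w1
    · rw [h1]
      exact w2

end Facts

end Pool.Agent.Work.MP_db9399_en
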