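import Pool.Agent.Work.MP_db9399_en.FIN
import Pool.Agent.Work.MP_db9399_en.LOC
import Pool.Agent.Work.MP_db9399_en.NUM

/-!
# MP_db9399, ENGINE (helper89)
-/

set_option autoImplicit false

namespace Pool.Agent.Work.MP_db9399_en

universe u

/-- **ENGINE.** -/
theorem stmt_ENGINE : Stmt_ENGINE.{u} := engine stmt_LOC stmt_NUM

end Pool.Agent.Work.MP_db9399_en
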