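import Pool.Agent.Work.MP_db9399_en.PROB2
import Pool.Agent.Work.MP_db9399_en.GOOD

/-!
# MP_db9399, ENGINE: probabilities of the basic events (helper89)
-/

set_option autoImplicit false

namespace Pool.Agent.Work.MP_db9399_en

open Finset Classical
open Pool.Agent.Work.MP_db9399_all (nb pr DepOnI)

universe u v w

attribute [-instance] instDecidableEqSum

section Conc

variable {J : Type u} [Fintype J] {M : ℕ}

/-- two sided concentration -/
theorem conc (hM : 0 < M) {ι : Type v} {κ : Type w} (I : Finset ι) (f : ι → κ)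
    (hf : ∀ k, #{i ∈ I | f i = k} ≤ 2) (Q : ι → Finset J)
    (hQ : ∀ i ∈ I, ∀ i' ∈ I, f i ≠ f i' → Disjoint (Q i) (Q i')) (X : ι → (J → Fin M) → ℝ)
    {B m a e : ℝ}
    (hB : 0 < B) (hX : ∀ i ∈ I, DepOnI (Q i) (X i)) (h0 : ∀ i ∈ I, ∀ ω, 0 ≤ X i ω)
    (hXB : ∀ i ∈ I, ∀ ω, X i ω ≤ B) (he : 0 < e) (ha : 0 ≤ a) (ham : a + e ≤ m)
    (h1 : ∑ i ∈ I, ex (X i) ≤ a + e) (h2 : a - e ≤ ∑ i ∈ I, ex (X i)) :
    pr (fun ω => ¬ |∑ i ∈ I, X i ω - a| ≤ 2 * e) ≤ 2 * Real.exp (-(e ^ 2 / (8 * B * m))) := by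
  have hae : 0 < a + e := by positivity
  have hm : 0 < m := by linarith
  have g1 := grp_up hM I f hf Q hQ X hB hX h0 hXB hae h1 he.le
  have g2 := grp_low hM I f hf Q hQ X hB hX h0 hXB hm (h1.trans ham) h2 he.le (by linarith)
  have g3 : Real.exp (-(min (e ^ 2 / (8 * B * (a + e))) (e / (4 * B)))) ≤
      Real.exp (-(e ^ 2 / (8 * B * m))) := by
    refine Real.exp_le_exp.2 (neg_le_neg (le_min ?_ ?_))
    · refine div_le_div_of_nonneg_left (by positivity) (by positivity) ?_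
      exact mul_le_mul_of_nonneg_left ham (by positivity)
    · rw [div_le_div_iff₀ (by positivity) (by positivity)]
      have : e ^ 2 * (4 * B) = e * (4 * B) * e := by ring
      have h' : e * (8 * B * m) = e * (4 * B) * (2 * m) := by ring
      rw [this, h']
      exact mul_le_mul_of_nonneg_left (by linarith) (by positivity)
  refine le_trans (pr_mono (F := fun ω => a + e + e ≤ ∑ i ∈ I, X i ω ∨
    ∑ i ∈ I, X i ω ≤ a - e - e) ?_) ((pr_or _ _).trans (by linarith))
  intro ω hω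
  by_contra hc
  rw [not_or] at hc
  apply hω
  rw [abs_le]
  constructor <;> linarith [hc.1, hc.2]

theorem conc_low (hM : 0 < M) {ι : Type v} {κ : Type w} (I : Finset ι) (f : ι → κ)
    (hf : ∀ k, #{i ∈ I | f i = k} ≤ 2) (Q : ι → Finset J)
    (hQ : ∀ i ∈ I, ∀ i' ∈ I, f i ≠ f i' → Disjoint (Q i) (Q i')) (X : ι → (J → Fin M) → ℝ)
    {B m m0 s : ℝ}
    (hB : 0 < B) (hX : ∀ i ∈ I, DepOnI (Q i) (X i)) (h0 : ∀ i ∈ I, ∀ ω, 0 ≤ X i ω)
    (hXB : ∀ i ∈ I, ∀ ω, X i ω ≤ B) (hm0 : 0 < m) (hm : ∑ i ∈ I, ex (X i) ≤ m)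
    (hmm : m0 ≤ ∑ i ∈ I, ex (X i)) (hs : 0 ≤ s) (hs2 : s ≤ 2 * m) :
    pr (fun ω => ¬ m0 - s ≤ ∑ i ∈ I, X i ω) ≤ Real.exp (-(s ^ 2 / (8 * B * m))) := by
  refine le_trans (pr_mono fun ω hω => ?_) (grp_low hM I f hf Q hQ X hB hX h0 hXB hm0 hm hmm hs hs2)
  exact (not_le.1 hω).le

end Conc

section Coins

variable {V : Type u} [Fintype V] {P M : ℕ} {G S : SimpleGraph V} {d r K0 T0 m1 : ℕ} {ρ : ℝ}
  {c : V → Fin P} {N : Fin P → V → V} {K Km : Finset V} {lab : Fin P → V → Bool}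
  {ix : V × V → Fin P → ℕ}

/-- scope of the events of colour `b` at the neighbour `w` of `v` -/
noncomputable def sc (N : Fin P → V → V) (b : Fin P) (v w : V) : Finset (Co V P) :=
  {Sum.inl (b, rp N b w), Sum.inr (Sum.inl w), Sum.inr (Sum.inl (N b w)),
    Sum.inr (Sum.inr (ep v w))}

theorem mem_sc {b : Fin P} {v w : V} {j : Co V P} : j ∈ sc N b v w ↔
    j = Sum.inl (b, rp N b w) ∨ j = Sum.inr (Sum.inl w) ∨ j = Sum.inr (Sum.inl (N b w)) ∨
      j = Sum.inr (Sum.inr (ep v w)) := by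
  simp only [sc, mem_insert, mem_singleton]

theorem ep_right {v w w' : V} (h : ep v w = ep v w') : w = w' := by
  rcases ep_mem v w with h1 | h1 <;> rcases ep_mem v w' with h2 | h2 <;>
    rw [h1, h2, Prod.mk.injEq] at h
  · exact h.2
  · rw [← h.1, h.2]
  · rw [h.1, h.2]
  · exact h.1

theorem sc_disj (hN : ∀ b v, N b (N b v) = v) {b : Fin P} {v w w' : V}
    (h : rp N b w ≠ rp N b w') : Disjoint (sc N b v w) (sc N b v w') := by
  have h1 : w ≠ w' := fun e => h (by rw [e])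
  have h2 : w ≠ N b w' := fun e => h (by rw [e, rp_N hN])
  have h3 : N b w ≠ w' := fun e => h (by rw [← e, rp_N hN])
  have h4 : N b w ≠ N b w' := fun e => h1 (by rw [← hN b w, e, hN])
  rw [Finset.disjoint_left]
  intro j hj hj'
  rw [mem_sc] at hj hj'
  rcases hj with rfl | rfl | rfl | rfl
  · rcases hj' with h' | h' | h' | h'
    · rw [Sum.inl.injEq, Prod.mk.injEq] at h'
      exact h h'.2
    · cases h'
    · cases h'
    · cases h'
  · rcases hj' with h' | h' | h' | h'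
    · cases h'
    · rw [Sum.inr.injEq, Sum.inl.injEq] at h'
      exact h1 h'
    · rw [Sum.inr.injEq, Sum.inl.injEq] at h'
      exact h2 h'
    · rw [Sum.inr.injEq] at h'
      cases h'
  · rcases hj' with h' | h' | h' | h'
    · cases h'
    · rw [Sum.inr.injEq, Sum.inl.injEq] at h'
      exact h3 h'
    · rw [Sum.inr.injEq, Sum.inl.injEq] at h'
      exact h4 h'
    · rw [Sum.inr.injEq] at h'
      cases h'
  · rcases hj' with h' | h' | h' | h'
    · cases h'
    · rw [Sum.inr.injEq] at h'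
      cases h'
    · rw [Sum.inr.injEq] at h'
      cases h'
    · rw [Sum.inr.injEq, Sum.inr.injEq] at h'
      exact h1 (ep_right h')

theorem rp_fib (hN : ∀ b v, N b (N b v) = v) (b : Fin P) (X : Finset V) (k : V) :
    #{w ∈ X | rp N b w = k} ≤ 2 := by
  have : ({w ∈ X | rp N b w = k} : Finset V) ⊆ {k, N b k} := by
    intro w hw
    rw [mem_filter] at hw
    rw [mem_insert, mem_singleton]
    rcases rp_mem N b w with h | h
    · left
      rw [← hw.2, h]
    · right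
      rw [← hw.2, h, hN]
  exact (card_le_card this).trans card_le_two

/-! ### scopes -/

theorem cn_dep (b : Fin P) (w : V) (F : ℕ → Prop) :
    DepOnI {(Sum.inl (b, rp N b w) : Co V P)} (fun ω : Co V P → Fin M => F (cn N b w ω)) :=
  dep_coord (Sum.inl (b, rp N b w)) fun x => F (x : ℕ)

omit [Fintype V] in
theorem st_dep (w : V) (F : ℕ → Prop) :
    DepOnI {(Sum.inr (Sum.inl w) : Co V P)} (fun ω : Co V P → Fin M => F (st w ω)) :=
  dep_coord (Sum.inr (Sum.inl w)) fun x => F (x : ℕ)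

theorem eg_dep (v w : V) (F : ℕ → Prop) :
    DepOnI {(Sum.inr (Sum.inr (ep v w)) : Co V P)} (fun ω : Co V P → Fin M => F (eg v w ω)) :=
  dep_coord (Sum.inr (Sum.inr (ep v w))) fun x => F (x : ℕ)

theorem gn_dep (v w : V) :
    DepOnI {(Sum.inr (Sum.inr (ep v w)) : Co V P)} (fun ω : Co V P → Fin M => gn K0 m1 v w ω) :=
  eg_dep v w fun x => x < 2 * (K0 * m1)

theorem pk_dep (b : Fin P) (v w : V) :
    DepOnI {(Sum.inr (Sum.inr (ep v w)) : Co V P)}
      (fun ω : Co V P → Fin M => pk ix K0 m1 b v w ω) :=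
  eg_dep v w fun x => 2 * (K0 * m1) ≤ x ∧ (x - 2 * (K0 * m1)) / m1 = ix (ep v w) b

/-- scope of the activity -/
noncomputable def sa0 (N : Fin P → V → V) (b : Fin P) (w : V) : Finset (Co V P) :=
  {Sum.inl (b, rp N b w), Sum.inr (Sum.inl w), Sum.inr (Sum.inl (N b w))}

theorem sa0_sub (b : Fin P) (v w : V) : sa0 N b w ⊆ sc N b v w := by
  intro j hj
  simp only [sa0, mem_insert, mem_singleton] at hj
  rw [mem_sc]
  tauto

theorem ac_dep (b : Fin P) (w : V) (s : Bool) :
    DepOnI (sa0 N b w) (fun ω : Co V P → Fin M => ac c N Km K0 m1 b w s ω) := by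
  intro a a' h
  have h1 : cn N b w a = cn N b w a' := by
    rw [cn, cn, h _ (by simp [sa0])]
  have h2 : st w a = st w a' := by
    rw [st, st, h _ (by simp [sa0])]
  have h3 : st (N b w) a = st (N b w) a' := by
    rw [st, st, h _ (by simp [sa0])]
  simp only [ac, dbl, h1, h2, h3]

theorem star_dep (w : V) (s : Bool) : DepOnI {(Sum.inr (Sum.inl w) : Co V P)}
    (fun ω : Co V P → Fin M => w ∈ MM Km K0 m1 s ω) := by
  intro a a' h
  have h2 : st w a = st w a' := by
    rw [st, st, h _ (by simp)]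
  simp only [mem_MM, h2]

/-! ### probabilities -/

theorem pr_gn (hM : M = 4 * (K0 * m1)) (hK : 1 ≤ K0) (hm : 1 ≤ m1) (v w : V) :
    pr (fun ω : Co V P → Fin M => gn K0 m1 v w ω) = 1 / 2 := by
  have hp : 0 < K0 * m1 := Nat.mul_pos hK hm
  have h := pr_win (M := M) (by omega) (Sum.inr (Sum.inr (ep v w)) : Co V P) 0 (2 * (K0 * m1))
    (by omega)
  simp only [Nat.zero_le, true_and, Nat.zero_add] at h
  refine h.trans ?_
  have : (0 : ℝ) < K0 * m1 := by exact_mod_cast hp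
  rw [hM]
  push_cast
  field_simp
  norm_num

theorem pr_pk (hM : M = 4 * (K0 * m1)) (hK : 1 ≤ K0) (hm : 1 ≤ m1) {b : Fin P} {v w : V}
    (hi : ix (ep v w) b < 2 * K0) :
    pr (fun ω : Co V P → Fin M => pk ix K0 m1 b v w ω) = 1 / (4 * K0) := by
  have hp : 0 < K0 * m1 := Nat.mul_pos hK hm
  set i := ix (ep v w) b with hie
  have h5 : (i + 1) * m1 ≤ 2 * K0 * m1 := Nat.mul_le_mul_right m1 hi
  have h6 : 2 * K0 * m1 = 2 * (K0 * m1) := by ring
  have h7 : (i + 1) * m1 = i * m1 + m1 := by ring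
  have h := pr_win (M := M) (by omega) (Sum.inr (Sum.inr (ep v w)) : Co V P)
    (2 * (K0 * m1) + i * m1) m1 (by omega)
  have e : (fun ω : Co V P → Fin M => pk ix K0 m1 b v w ω) = fun ω : Co V P → Fin M =>
      2 * (K0 * m1) + i * m1 ≤ (ω (Sum.inr (Sum.inr (ep v w))) : ℕ) ∧
        (ω (Sum.inr (Sum.inr (ep v w))) : ℕ) < 2 * (K0 * m1) + i * m1 + m1 := by
    funext ω
    refine propext ?_
    rw [pk, eg, ← hie]
    generalize (ω (Sum.inr (Sum.inr (ep v w))) : ℕ) = x
    constructor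
    · rintro ⟨h1, h2⟩
      rw [Nat.div_eq_iff hm] at h2
      omega
    · rintro ⟨h1, h2⟩
      refine ⟨by omega, ?_⟩
      rw [Nat.div_eq_iff hm]
      omega
  rw [e, h, hM]
  have h8 : (0 : ℝ) < m1 := by exact_mod_cast hm
  have h9 : (0 : ℝ) < K0 := by exact_mod_cast hK
  push_cast
  field_simp

theorem pr_st2 (hM : M = 4 * (K0 * m1)) (hK : 1 ≤ K0) (hm : 1 ≤ m1) (w : V) :
    pr (fun ω : Co V P → Fin M => st w ω / (K0 * m1) < 2) = 1 / 2 := by
  have hp : 0 < K0 * m1 := Nat.mul_pos hK hm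
  have h := pr_win (M := M) (by omega) (Sum.inr (Sum.inl w) : Co V P) 0 (2 * (K0 * m1))
    (by omega)
  simp only [Nat.zero_le, true_and, Nat.zero_add] at h
  have e : (fun ω : Co V P → Fin M => st w ω / (K0 * m1) < 2) =
      fun ω : Co V P → Fin M => (ω (Sum.inr (Sum.inl w)) : ℕ) < 2 * (K0 * m1) := by
    funext ω
    rw [st, Nat.div_lt_iff_lt_mul hp]
  rw [e, h, hM]
  have : (0 : ℝ) < K0 * m1 := by exact_mod_cast hp
  push_cast
  field_simp
  norm_num

theorem pr_sts (hM : M = 4 * (K0 * m1)) (hK : 1 ≤ K0) (hm : 1 ≤ m1) (w : V) (s : Bool) :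
    pr (fun ω : Co V P → Fin M => st w ω / (K0 * m1) = if s then 0 else 1) = 1 / 4 := by
  have hp : 0 < K0 * m1 := Nat.mul_pos hK hm
  have h9 : (0 : ℝ) < K0 * m1 := by exact_mod_cast hp
  have h := pr_win (M := M) (by omega) (Sum.inr (Sum.inl w) : Co V P)
    ((if s then 0 else 1) * (K0 * m1)) (K0 * m1) (by
      cases s
      · simp only [Bool.false_eq_true, if_false]
        omega
      · simp only [if_true]
        omega)
  have e : (fun ω : Co V P → Fin M => st w ω / (K0 * m1) = if s then 0 else 1) =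
      fun ω : Co V P → Fin M => (if s then 0 else 1) * (K0 * m1) ≤ (ω (Sum.inr (Sum.inl w)) : ℕ) ∧
        (ω (Sum.inr (Sum.inl w)) : ℕ) < (if s then 0 else 1) * (K0 * m1) + K0 * m1 := by
    funext ω
    refine propext ?_
    rw [st, Nat.div_eq_iff hp]
    generalize (ω (Sum.inr (Sum.inl w)) : ℕ) = x
    cases s
    · simp only [Bool.false_eq_true, if_false]
      omega
    · simp only [if_true]
      omega
  rw [e, h, hM]
  push_cast
  field_simp

/-- start of the window -/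
noncomputable def wn (N : Fin P → V → V) (Km : Finset V) (b : Fin P) (w : V) (s : Bool) : ℕ :=
  if decide (w = rp N b w) = s then 0 else hh N Km b w

theorem ac_iff {b : Fin P} {w : V} {s : Bool} {ω : Co V P → Fin M} (h1 : c w ≠ b)
    (h2 : w ∉ tk c N b) : ac c N Km K0 m1 b w s ω ↔
      (wn N Km b w s ≤ cn N b w ω ∧ cn N b w ω < wn N Km b w s + hh N Km b w) ∧
        ¬ dbl N Km K0 m1 b w ω := by
  rw [ac, wn]
  split_ifs with h
  · constructor
    · rintro ⟨_, _, h3, h4⟩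
      exact ⟨⟨by omega, by omega⟩, h3⟩
    · rintro ⟨h3, h4⟩
      exact ⟨h1, h2, h4, by omega⟩
  · constructor
    · rintro ⟨_, _, h3, h4⟩
      exact ⟨⟨by omega, by omega⟩, h3⟩
    · rintro ⟨h3, h4⟩
      exact ⟨h1, h2, h4, by omega⟩

omit [Fintype V] in
theorem hh_le (b : Fin P) (w : V) : hh N Km b w ≤ 4 := by
  rw [hh]
  split_ifs <;> norm_num

theorem wn_le (b : Fin P) (w : V) (s : Bool) : wn N Km b w s + hh N Km b w ≤ 8 := by
  have := hh_le (N := N) (Km := Km) b w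
  rw [wn]
  split_ifs <;> omega

theorem pr_wn (hM8 : 8 ≤ M) (b : Fin P) (w : V) (s : Bool) :
    pr (fun ω : Co V P → Fin M => wn N Km b w s ≤ cn N b w ω ∧
      cn N b w ω < wn N Km b w s + hh N Km b w) = (hh N Km b w : ℝ) / M :=
  pr_win (by omega) (Sum.inl (b, rp N b w) : Co V P) _ _
    ((wn_le (N := N) (Km := Km) b w s).trans hM8)

theorem pr_cn8 (hM8 : 8 ≤ M) (b : Fin P) (w : V) :
    pr (fun ω : Co V P → Fin M => cn N b w ω < 8) = 8 / M := by
  have h := pr_win (M := M) (by omega) (Sum.inl (b, rp N b w) : Co V P) 0 8 (by omega)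
  simp only [Nat.zero_le, true_and, Nat.zero_add] at h
  refine h.trans ?_
  norm_num

theorem pr_not (hM : 0 < M) {J : Type u} [Fintype J] (E : (J → Fin M) → Prop) :
    pr (fun ω => ¬ E ω) = 1 - pr E := by
  rw [pr_ex, pr_ex, ← ex_one (J := J) hM]
  have : ex (fun ω : J → Fin M => ind (fun ω => ¬ E ω) ω + ind E ω) = ex fun _ : J → Fin M => 1 := by
    congr 1
    funext ω
    simp only [ind]
    by_cases h : E ω <;> simp [h]
  rw [ex_add] at this
  linarith

theorem pr_ac (hM : M = 4 * (K0 * m1)) (hK : 1 ≤ K0) (hm : 1 ≤ m1) (hM8 : 8 ≤ M) {b : Fin P}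
    {w : V} (h1 : c w ≠ b) (h2 : w ∉ tk c N b) (s : Bool) :
    pr (fun ω : Co V P → Fin M => ac c N Km K0 m1 b w s ω) = 3 / M := by
  have hM0 : 0 < M := by omega
  have e : (fun ω : Co V P → Fin M => ac c N Km K0 m1 b w s ω) = fun ω : Co V P → Fin M =>
      (wn N Km b w s ≤ cn N b w ω ∧ cn N b w ω < wn N Km b w s + hh N Km b w) ∧
        ¬ dbl N Km K0 m1 b w ω := by
    funext ω
    exact propext (ac_iff h1 h2)
  have hne : N b w ≠ w := (not_tk h1 h2).1
  by_cases hs : spc N Km b w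
  · have hd : (fun ω : Co V P → Fin M => dbl N Km K0 m1 b w ω) = fun ω : Co V P → Fin M =>
        st w ω / (K0 * m1) < 2 ∧ st (N b w) ω / (K0 * m1) < 2 := by
      funext ω
      refine propext ?_
      rw [dbl]
      exact ⟨fun h => h.2.2, fun h => ⟨hs.1, hs.2, h⟩⟩
    have hpd : pr (fun ω : Co V P → Fin M => dbl N Km K0 m1 b w ω) = 1 / 4 := by
      rw [hd, pr_ind' hM0 (st_dep w fun x => x / (K0 * m1) < 2)
        (st_dep (N b w) fun x => x / (K0 * m1) < 2) (by
          rw [disjoint_singleton]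
          simp [hne.symm]), pr_st2 hM hK hm, pr_st2 hM hK hm]
      norm_num
    have hdd : DepOnI {(Sum.inr (Sum.inl w) : Co V P), Sum.inr (Sum.inl (N b w))}
        (fun ω : Co V P → Fin M => ¬ dbl N Km K0 m1 b w ω) := by
      intro a a' h
      have h3 : st w a = st w a' := by
        rw [st, st, h _ (by simp)]
      have h4 : st (N b w) a = st (N b w) a' := by
        rw [st, st, h _ (by simp)]
      simp only [dbl, h3, h4]
    rw [e, pr_ind' hM0 (cn_dep b w fun x => wn N Km b w s ≤ x ∧ x < wn N Km b w s + hh N Km b w)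
      hdd (by simp), pr_wn hM8, pr_not hM0, hpd, hh, if_pos hs]
    ring
  · have hd : (fun ω : Co V P → Fin M => (wn N Km b w s ≤ cn N b w ω ∧
        cn N b w ω < wn N Km b w s + hh N Km b w) ∧ ¬ dbl N Km K0 m1 b w ω) =
        fun ω : Co V P → Fin M => wn N Km b w s ≤ cn N b w ω ∧
          cn N b w ω < wn N Km b w s + hh N Km b w := by
      funext ω
      refine propext ⟨fun h => h.1, fun h => ⟨h, fun h' => hs ⟨h'.1, h'.2.1⟩⟩⟩
    rw [e, hd, pr_wn hM8, hh, if_neg hs]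
    norm_num

/-- active star vertices -/
theorem pr_acst (hM : M = 4 * (K0 * m1)) (hK : 1 ≤ K0) (hm : 1 ≤ m1) (hM8 : 8 ≤ M) {b : Fin P}
    {w : V} (h1 : c w ≠ b) (h2 : w ∉ tk c N b) (hw : w ∈ Km) (s : Bool) :
    1 / (2 * M) ≤
      pr (fun ω : Co V P → Fin M => ac c N Km K0 m1 b w s ω ∧ w ∈ MM Km K0 m1 s ω) := by
  have hM0 : 0 < M := by omega
  have hMr : (0 : ℝ) < M := by exact_mod_cast hM0
  have hne : N b w ≠ w := (not_tk h1 h2).1
  by_cases hs : spc N Km b w
  · have g1 : pr (fun ω : Co V P → Fin M => (wn N Km b w s ≤ cn N b w ω ∧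
        cn N b w ω < wn N Km b w s + hh N Km b w) ∧ ((st w ω / (K0 * m1) = if s then 0 else 1) ∧
          ¬ st (N b w) ω / (K0 * m1) < 2)) = 1 / (2 * M) := by
      have hd : DepOnI {(Sum.inr (Sum.inl w) : Co V P), Sum.inr (Sum.inl (N b w))}
          (fun ω : Co V P → Fin M => (st w ω / (K0 * m1) = if s then 0 else 1) ∧
          ¬ st (N b w) ω / (K0 * m1) < 2) := by
        intro a a' h
        have h3 : st w a = st w a' := by
          rw [st, st, h _ (by simp)]
        have h4 : st (N b w) a = st (N b w) a' := by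
          rw [st, st, h _ (by simp)]
        simp only [h3, h4]
      rw [pr_ind' hM0 (cn_dep b w fun x => wn N Km b w s ≤ x ∧ x < wn N Km b w s + hh N Km b w)
        hd (by simp), pr_wn hM8,
        pr_ind' hM0 (st_dep w fun x => x / (K0 * m1) = if s then 0 else 1)
        (st_dep (N b w) fun x => ¬ x / (K0 * m1) < 2) (by
          rw [disjoint_singleton]
          simp [hne.symm]), pr_sts hM hK hm, pr_not hM0, pr_st2 hM hK hm, hh, if_pos hs]
      field_simp
      norm_num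
    rw [← g1]
    refine pr_mono fun ω hω => ?_
    obtain ⟨h3, h4, h5⟩ := hω
    exact ⟨(ac_iff h1 h2).2 ⟨h3, fun hd => h5 hd.2.2.2⟩, mem_MM.2 ⟨hw, h4⟩⟩
  · have g1 : pr (fun ω : Co V P → Fin M => (wn N Km b w s ≤ cn N b w ω ∧
        cn N b w ω < wn N Km b w s + hh N Km b w) ∧ (st w ω / (K0 * m1) = if s then 0 else 1)) =
        3 / (4 * M) := by
      rw [pr_ind' hM0 (cn_dep b w fun x => wn N Km b w s ≤ x ∧ x < wn N Km b w s + hh N Km b w)
        (st_dep w fun x => x / (K0 * m1) = if s then 0 else 1) (by simp), pr_wn hM8,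
        pr_sts hM hK hm, hh, if_neg hs]
      field_simp
      norm_num
    have g2 : 1 / (2 * (M : ℝ)) ≤ 3 / (4 * M) := by
      rw [div_le_div_iff₀ (by positivity) (by positivity)]
      linarith
    refine g2.trans ?_
    rw [← g1]
    refine pr_mono fun ω hω => ?_
    exact ⟨(ac_iff h1 h2).2 ⟨hω.1, fun hd => hs ⟨hd.1, hd.2.1⟩⟩, mem_MM.2 ⟨hw, hω.2⟩⟩

end Coins

end Pool.Agent.Work.MP_db9399_en
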