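import Pool.Agent.Work.MP_db9399_all.Interface
import Pool.Agent.Work.MP_db9399_co.Defs

/-!
# MP_db9399, ENGINE (helper89): the input and the statement

The reserve `S`, the matchings `N b`, the own colours `c`, the labels `lab` of the tokens are given.
If the residual functions of the walk on `S` are small in the sum over the colours at every vertex,
then there is a total colouring with `d + 2` colours.
-/

set_option autoImplicit false

namespace Pool.Agent.Work.MP_db9399_en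

open Finset Classical
open Pool.Agent.Work.MP_db9399_all (nb)
open _root_.MP_db9399_co (IsTotalColoring)

universe u

section Defs

variable {V : Type u} [Fintype V] {P : ℕ}

/-- the tokens of colour `b` -/
noncomputable def tk (c : V → Fin P) (N : Fin P → V → V) (b : Fin P) : Finset V :=
  {v | c v ≠ b ∧ (N b v = v ∨ c (N b v) = b)}

/-- the tokens of colour `b` with label `s` -/
noncomputable def tks (c : V → Fin P) (N : Fin P → V → V) (lab : Fin P → V → Bool) (b : Fin P)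
    (s : Bool) : Finset V := {v ∈ tk c N b | lab b v = s}

/-- the averaging operator of the reserve -/
noncomputable def HH (S : SimpleGraph V) (r : ℕ) (f : V → ℝ) (v : V) : ℝ := (∑ w ∈ nb S v, f w) / r

/-- `j` steps of the walk from a set -/
noncomputable def wlk (S : SimpleGraph V) (r : ℕ) (A : Finset V) (j : ℕ) : V → ℝ :=
  (HH S r)^[j] fun v => if v ∈ A then 1 else 0

/-- residual on the side of the tokens `A` -/
noncomputable def resE (S : SimpleGraph V) (r L : ℕ) (θ θ' : ℕ → ℝ) (A B : Finset V) (v : V) : ℝ :=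
  ∑ i ∈ range L, (θ (2 * i + 1) - θ (2 * i + 2)) * wlk S r A (2 * i + 2) v -
    ∑ i ∈ range L, (θ' (2 * i) - θ' (2 * i + 1)) * wlk S r B (2 * i + 1) v

/-- residual on the other side -/
noncomputable def resO (S : SimpleGraph V) (r L : ℕ) (θ θ' : ℕ → ℝ) (A B : Finset V) (v : V) : ℝ :=
  ∑ i ∈ range L, (θ (2 * i) - θ (2 * i + 1)) * wlk S r A (2 * i + 1) v -
    ∑ i ∈ range L, (θ' (2 * i + 1) - θ' (2 * i + 2)) * wlk S r B (2 * i + 2) v

/-- sum of the absolute values of the four residuals of colour `b` -/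
noncomputable def resT (S : SimpleGraph V) (r L : ℕ) (θ θ' : ℕ → ℝ) (c : V → Fin P)
    (N : Fin P → V → V) (lab : Fin P → V → Bool) (b : Fin P) (v : V) : ℝ :=
  ∑ s : Bool, (|resE S r L θ θ' (tks c N lab b s) (tks c N lab b (!s)) v| +
    |resO S r L θ θ' (tks c N lab b s) (tks c N lab b (!s)) v|)

/-- the weights of the series -/
structure Wts (L : ℕ) (θ : ℕ → ℝ) : Prop where
  w0 : θ 0 = 1
  w1 : θ 1 = 1
  anti : ∀ i, θ (i + 1) ≤ θ i
  nonneg : ∀ i, 0 ≤ θ i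
  zero : ∀ i, 2 * L ≤ i → θ i = 0

/-- the input of the engine -/
structure EIn (G S : SimpleGraph V) (d P r K0 T0 : ℕ) (ρ : ℝ) (c : V → Fin P)
    (N : Fin P → V → V) (K Km : Finset V) : Prop where
  hSG : S ≤ G
  hP : P + r = d + 1
  dG : ∀ v, (nb G v).card ≤ d
  dS1 : ∀ v, r ≤ (nb S v).card
  dS2 : ∀ v, (nb S v).card ≤ r + K0
  cp : ∀ v w, G.Adj v w → c v ≠ c w
  NN : ∀ b v, N b (N b v) = v
  NG : ∀ b v, N b v ≠ v → G.Adj v (N b v) ∧ ¬ S.Adj v (N b v)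
  Nd : ∀ b b' v, N b v ≠ v → N b v = N b' v → b = b'
  tk1 : ∀ v, (univ.filter fun b => v ∈ tk c N b).card ≤ K0
  tk2 : ∀ b v, ((nb S v).filter fun w => w ∈ tk c N b).card ≤ T0
  ow : ∀ b v, ((nb S v).filter fun w => c w = b).card ≤ T0
  K1 : ∀ v ∈ K, ∀ w ∈ K, ¬ S.Adj v w
  K2 : Km ⊆ K
  K3 : ∀ v ∈ Km, ∀ w ∈ Km, G.Adj v w → ∃ b, N b v = w ∧ c v ≠ b ∧ c w ≠ b
  K4 : ∀ v, v ∉ K → ρ * r ≤ (((nb S v).filter fun w => w ∈ Km).card : ℝ)
  K5 : ∀ v, (r : ℝ) / 4 ≤ (((nb S v).filter fun w => w ∉ K).card : ℝ)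

end Defs

/-- **ENGINE.** -/
def Stmt_ENGINE : Prop :=
  ∃ (ε₀ c₀ : ℝ) (d₀ : ℕ), 0 < ε₀ ∧ 0 < c₀ ∧
    ∀ {V : Type u} [Fintype V] (G S : SimpleGraph V) (d P r K0 T0 L : ℕ) (ρ : ℝ) (c : V → Fin P)
      (N : Fin P → V → V) (K Km : Finset V) (lab : Fin P → V → Bool) (θ θ' : ℕ → ℝ),
      EIn G S d P r K0 T0 ρ c N K Km → Wts L θ → Wts L θ' → d₀ ≤ d → 1 ≤ K0 → 1 ≤ T0 → ρ ≤ 1 →
      (d : ℝ) ^ (1 - ε₀) ≤ r → (K0 : ℝ) ≤ (d : ℝ) ^ ε₀ → (T0 : ℝ) ≤ (d : ℝ) ^ ε₀ →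
      (L : ℝ) ≤ (d : ℝ) ^ ε₀ → (d : ℝ) ^ (-ε₀) ≤ ρ →
      (∀ v, ∑ b, resT S r L θ θ' c N lab b v ≤ c₀ * ρ) →
      ∃ (c : V → Fin (d + 2)) (t : Sym2 V → Fin (d + 2)), IsTotalColoring G c t

end Pool.Agent.Work.MP_db9399_en
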