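import Pool.Agent.Work.MP_db9399_en.PROB
import Pool.Agent.Work.MP_db9399_all_helper6.LLLI

/-!
# MP_db9399, ENGINE: probabilities in a product space, continued (helper89)
-/

set_option autoImplicit false

namespace Pool.Agent.Work.MP_db9399_en

open Finset Classical
open Pool.Agent.Work.MP_db9399_all (pr DepOnI PackI Stmt_LLLI)

universe u v w

section Basic

variable {J : Type u} [Fintype J] {M : ℕ}

/-- indicator -/
noncomputable def ind {Ω : Type u} (E : Ω → Prop) (ω : Ω) : ℝ := if E ω then 1 else 0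

theorem ind_nonneg {Ω : Type u} (E : Ω → Prop) (ω : Ω) : 0 ≤ ind E ω := by
  rw [ind]
  split_ifs <;> norm_num

theorem ind_le_one {Ω : Type u} (E : Ω → Prop) (ω : Ω) : ind E ω ≤ 1 := by
  rw [ind]
  split_ifs <;> norm_num

theorem pr_ex (E : (J → Fin M) → Prop) : pr E = ex (ind E) := by
  rw [pr, ex]
  simp only [ind]
  rw [sum_boole]

theorem pr_nonneg {Ω : Type u} [Fintype Ω] (E : Ω → Prop) : 0 ≤ pr E := by
  rw [pr]
  positivity

theorem pr_le_one {Ω : Type u} [Fintype Ω] (E : Ω → Prop) : pr E ≤ 1 := by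
  rw [pr]
  exact div_le_one_of_le₀ (by exact_mod_cast card_le_univ _) (Nat.cast_nonneg _)

theorem pr_mono {Ω : Type u} [Fintype Ω] {E F : Ω → Prop} (h : ∀ ω, E ω → F ω) : pr E ≤ pr F := by
  rw [pr, pr]
  refine div_le_div_of_nonneg_right ?_ (Nat.cast_nonneg _)
  exact_mod_cast card_le_card fun ω hω => by
    rw [mem_filter] at hω ⊢
    exact ⟨mem_univ _, h ω hω.2⟩

theorem pr_or {Ω : Type u} [Fintype Ω] (E F : Ω → Prop) : pr (fun ω => E ω ∨ F ω) ≤ pr E + pr F := by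
  rw [pr, pr, pr, ← add_div]
  refine div_le_div_of_nonneg_right ?_ (Nat.cast_nonneg _)
  rw [← Nat.cast_add, Nat.cast_le]
  refine le_trans (card_le_card ?_) (card_union_le _ _)
  intro ω hω
  simpa [mem_union] using hω

theorem pr_bUnion {Ω : Type u} [Fintype Ω] {ι : Type v} (I : Finset ι) (E : ι → Ω → Prop) :
    pr (fun ω => ∃ i ∈ I, E i ω) ≤ ∑ i ∈ I, pr (E i) := by
  induction I using Finset.induction_on with
  | empty => simp [pr]
  | @insert i I hi ih =>
    rw [sum_insert hi]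
    refine le_trans (pr_mono (F := fun ω => E i ω ∨ ∃ i ∈ I, E i ω) ?_) ((pr_or _ _).trans
      (by linarith))
    rintro ω ⟨k, hk, hE⟩
    rcases mem_insert.1 hk with rfl | hk
    · exact Or.inl hE
    · exact Or.inr ⟨k, hk, hE⟩

theorem pr_ex_le {Ω : Type u} [Fintype Ω] {ι : Type v} [Fintype ι] (E : ι → Ω → Prop) {p : ℝ}
    (h : ∀ i, pr (E i) ≤ p) : pr (fun ω => ∃ i, E i ω) ≤ Fintype.card ι * p := by
  refine le_trans (pr_mono (F := fun ω => ∃ i ∈ (univ : Finset ι), E i ω) ?_)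
    ((pr_bUnion _ _).trans ?_)
  · rintro ω ⟨i, hi⟩
    exact ⟨i, mem_univ _, hi⟩
  · refine (sum_le_card_nsmul _ _ p fun i _ => h i).trans ?_
    rw [nsmul_eq_mul, card_univ]

theorem pr_false {Ω : Type u} [Fintype Ω] : pr (fun _ : Ω => False) = 0 := by
  simp [pr]

omit [Fintype J] in
theorem ind_dep {Q : Finset J} {E : (J → Fin M) → Prop} (h : DepOnI Q E) : DepOnI Q (ind E) := by
  intro a b hab
  simp only [ind, h a b hab]

/-- independence -/
theorem pr_ind (hM : 0 < M) (Q : Finset J) (A B : (J → Fin M) → Prop) (hA : DepOnI Q A)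
    (hB : DepOnI Qᶜ B) : pr (fun ω => A ω ∧ B ω) = pr A * pr B := by
  rw [pr_ex, pr_ex, pr_ex, ← ex_mul hM Q _ _ (ind_dep hA) (ind_dep hB)]
  congr 1
  funext ω
  simp only [ind]
  by_cases h1 : A ω <;> by_cases h2 : B ω <;> simp [h1, h2]

/-- independence, two scopes -/
theorem pr_ind' (hM : 0 < M) {Q Q' : Finset J} {A B : (J → Fin M) → Prop} (hA : DepOnI Q A)
    (hB : DepOnI Q' B) (h : Disjoint Q Q') : pr (fun ω => A ω ∧ B ω) = pr A * pr B :=
  pr_ind hM Q A B hA (depI_mono (fun j hj => by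
    rw [mem_compl]
    exact fun hj' => (Finset.disjoint_left.1 h hj') hj) hB)

theorem ex_ind' (hM : 0 < M) {Q Q' : Finset J} {f g : (J → Fin M) → ℝ} (hf : DepOnI Q f)
    (hg : DepOnI Q' g) (h : Disjoint Q Q') : ex (fun ω => f ω * g ω) = ex f * ex g :=
  ex_mul hM Q f g hf (depI_mono (fun j hj => by
    rw [mem_compl]
    exact fun hj' => (Finset.disjoint_left.1 h hj') hj) hg)

/-- one coordinate -/
theorem pr_coord (hM : 0 < M) (j : J) (A : Finset (Fin M)) :
    pr (fun ω : J → Fin M => ω j ∈ A) = (#A : ℝ) / M := by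
  have h1 : (univ.filter fun ω : J → Fin M => ω j ∈ A) =
      Fintype.piFinset (Function.update (fun _ => (univ : Finset (Fin M))) j A) := by
    ext ω
    rw [mem_filter, Fintype.mem_piFinset]
    constructor
    · rintro ⟨_, h⟩ i
      by_cases hi : i = j
      · subst hi
        rw [Function.update_self]
        exact h
      · rw [Function.update_of_ne hi]
        exact mem_univ _
    · intro h
      have := h j
      rw [Function.update_self] at this
      exact ⟨mem_univ _, this⟩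
  have h2 : (#(Fintype.piFinset (Function.update (fun _ => (univ : Finset (Fin M))) j A)) : ℝ) =
      #A * (M : ℝ) ^ (Fintype.card J - 1) := by
    rw [Fintype.card_piFinset, ← mul_prod_erase univ _ (mem_univ j), Function.update_self]
    rw [prod_congr rfl (g := fun _ => M) fun i hi => by
      rw [Function.update_of_ne (ne_of_mem_erase hi), card_univ, Fintype.card_fin]]
    rw [prod_const, card_erase_of_mem (mem_univ j), card_univ]
    push_cast
    rfl
  have hj : 1 ≤ Fintype.card J := Fintype.card_pos_iff.2 ⟨j⟩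
  have h3 : (Fintype.card (J → Fin M) : ℝ) = M * (M : ℝ) ^ (Fintype.card J - 1) := by
    rw [Fintype.card_fun, Fintype.card_fin]
    push_cast
    rw [← pow_succ']
    congr 1
    omega
  have hM' : (0 : ℝ) < M := by exact_mod_cast hM
  have h4 : pr (fun ω : J → Fin M => ω j ∈ A) =
      (#(univ.filter fun ω : J → Fin M => ω j ∈ A) : ℝ) / Fintype.card (J → Fin M) := by
    rw [pr]
    refine congrArg (fun x : Finset (J → Fin M) => (#x : ℝ) / Fintype.card (J → Fin M)) ?_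
    ext ω
    simp only [mem_filter]
  rw [h4, h1, h2, h3]
  rw [mul_div_mul_right _ _ (by positivity)]

/-- window -/
theorem pr_win (hM : 0 < M) (j : J) (a k : ℕ) (h : a + k ≤ M) :
    pr (fun ω : J → Fin M => a ≤ (ω j : ℕ) ∧ (ω j : ℕ) < a + k) = (k : ℝ) / M := by
  have h1 := pr_coord hM j (univ.filter fun x : Fin M => a ≤ (x : ℕ) ∧ (x : ℕ) < a + k)
  have h2 : #(univ.filter fun x : Fin M => a ≤ (x : ℕ) ∧ (x : ℕ) < a + k) = k := by
    have : (univ.filter fun x : Fin M => a ≤ (x : ℕ) ∧ (x : ℕ) < a + k).image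
        (fun x : Fin M => (x : ℕ)) = Finset.Ico a (a + k) := by
      ext n
      simp only [mem_image, mem_filter, mem_univ, true_and, mem_Ico]
      constructor
      · rintro ⟨x, hx, rfl⟩
        exact hx
      · intro hn
        exact ⟨⟨n, by omega⟩, hn, rfl⟩
    rw [← card_image_of_injective _ Fin.val_injective, this, Nat.card_Ico]
    omega
  rw [h2] at h1
  rw [← h1]
  congr 1
  funext ω
  simp

omit [Fintype J] in
theorem dep_coord (j : J) {β : Type v} (F : Fin M → β) : DepOnI {j} (fun ω : J → Fin M => F (ω j)) := by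
  intro a b hab
  simp only [hab j (mem_singleton_self j)]

omit [Fintype J] in
theorem dep_and {Q : Finset J} {A B : (J → Fin M) → Prop} (hA : DepOnI Q A) (hB : DepOnI Q B) :
    DepOnI Q fun ω => A ω ∧ B ω := by
  intro a b hab
  simp only [hA a b hab, hB a b hab]

omit [Fintype J] in
theorem dep_not {Q : Finset J} {A : (J → Fin M) → Prop} (hA : DepOnI Q A) :
    DepOnI Q fun ω => ¬ A ω := by
  intro a b hab
  simp only [hA a b hab]

omit [Fintype J] in
theorem dep_const {β : Type v} (Q : Finset J) (x : β) : DepOnI Q fun _ : J → Fin M => x :=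
  fun _ _ _ => rfl

end Basic

section Group

variable {J : Type u} [Fintype J] {M : ℕ}

omit [Fintype J] in
theorem depI_sum {ι : Type v} (I : Finset ι) (Q : ι → Finset J) (g : ι → (J → Fin M) → ℝ)
    (hg : ∀ i ∈ I, DepOnI (Q i) (g i)) : DepOnI (I.biUnion Q) (fun ω => ∑ i ∈ I, g i ω) := by
  intro a b hab
  refine sum_congr rfl fun i hi => hg i hi a b fun j hj => hab j ?_
  exact mem_biUnion.2 ⟨i, hi, hj⟩

omit [Fintype J] in
/-- grouping into fibres with at most two elements -/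
theorem grp_aux {ι : Type v} {κ : Type w} (I : Finset ι) (f : ι → κ)
    (hf : ∀ k, #{i ∈ I | f i = k} ≤ 2) (Q : ι → Finset J)
    (hQ : ∀ i ∈ I, ∀ i' ∈ I, f i ≠ f i' → Disjoint (Q i) (Q i')) (X : ι → (J → Fin M) → ℝ) {B : ℝ}
    (hB : 0 ≤ B) (hX : ∀ i ∈ I, DepOnI (Q i) (X i)) (h0 : ∀ i ∈ I, ∀ ω, 0 ≤ X i ω)
    (hXB : ∀ i ∈ I, ∀ ω, X i ω ≤ B) :
    let X' : κ → (J → Fin M) → ℝ := fun k ω => ∑ i ∈ I with f i = k, X i ω
    let Q' : κ → Finset J := fun k => (I.filter fun i => f i = k).biUnion Q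
    (∀ k ∈ I.image f, DepOnI (Q' k) (X' k)) ∧
    (∀ k ∈ I.image f, ∀ k' ∈ I.image f, k ≠ k' → Disjoint (Q' k) (Q' k')) ∧
    (∀ k ∈ I.image f, ∀ ω, 0 ≤ X' k ω) ∧ (∀ k ∈ I.image f, ∀ ω, X' k ω ≤ 2 * B) ∧
    (∀ ω, ∑ k ∈ I.image f, X' k ω = ∑ i ∈ I, X i ω) := by
  intro X' Q'
  refine ⟨fun k _ => depI_sum _ _ _ fun i hi => hX i (mem_filter.1 hi).1, ?_, ?_, ?_, ?_⟩
  · intro k _ k' _ hkk
    rw [disjoint_biUnion_left]
    intro i hi
    rw [disjoint_biUnion_right]
    intro i' hi'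
    rw [mem_filter] at hi hi'
    refine hQ i hi.1 i' hi'.1 ?_
    rw [hi.2, hi'.2]
    exact hkk
  · intro k _ ω
    exact sum_nonneg fun i hi => h0 i (mem_filter.1 hi).1 ω
  · intro k _ ω
    refine (sum_le_card_nsmul _ _ B fun i hi => hXB i (mem_filter.1 hi).1 ω).trans ?_
    rw [nsmul_eq_mul]
    exact mul_le_mul_of_nonneg_right (by exact_mod_cast hf k) hB
  · intro ω
    exact sum_fiberwise_of_maps_to (fun i hi => mem_image_of_mem f hi) _

theorem grp_ex {ι : Type v} {κ : Type w} (I : Finset ι) (f : ι → κ) (X : ι → (J → Fin M) → ℝ) :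
    ∑ k ∈ I.image f, ex (fun ω => ∑ i ∈ I with f i = k, X i ω) = ∑ i ∈ I, ex (X i) := by
  simp only [ex_sum]
  exact sum_fiberwise_of_maps_to (fun i hi => mem_image_of_mem f hi) _

theorem grp_up (hM : 0 < M) {ι : Type v} {κ : Type w} (I : Finset ι) (f : ι → κ)
    (hf : ∀ k, #{i ∈ I | f i = k} ≤ 2) (Q : ι → Finset J)
    (hQ : ∀ i ∈ I, ∀ i' ∈ I, f i ≠ f i' → Disjoint (Q i) (Q i')) (X : ι → (J → Fin M) → ℝ)
    {B m s : ℝ}
    (hB : 0 < B) (hX : ∀ i ∈ I, DepOnI (Q i) (X i)) (h0 : ∀ i ∈ I, ∀ ω, 0 ≤ X i ω)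
    (hXB : ∀ i ∈ I, ∀ ω, X i ω ≤ B) (hm0 : 0 < m) (hm : ∑ i ∈ I, ex (X i) ≤ m) (hs : 0 ≤ s) :
    pr (fun ω => m + s ≤ ∑ i ∈ I, X i ω) ≤ Real.exp (-(min (s ^ 2 / (8 * B * m)) (s / (4 * B)))) := by
  obtain ⟨h1, h2, h3, h4, h5⟩ := grp_aux I f hf Q hQ X hB.le hX h0 hXB
  have h6 := chern_up hM (I.image f) (fun k => (I.filter fun i => f i = k).biUnion Q)
    (fun k ω => ∑ i ∈ I with f i = k, X i ω) (B := 2 * B) (m := m) (s := s) h1 h2 h3 h4
    (by positivity) hm0 (by rw [grp_ex]; exact hm) hs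
  simp only [h5] at h6
  have e1 : 4 * (2 * B) * m = 8 * B * m := by ring
  have e2 : 2 * (2 * B) = 4 * B := by ring
  rw [e1, e2] at h6
  exact h6

theorem grp_low (hM : 0 < M) {ι : Type v} {κ : Type w} (I : Finset ι) (f : ι → κ)
    (hf : ∀ k, #{i ∈ I | f i = k} ≤ 2) (Q : ι → Finset J)
    (hQ : ∀ i ∈ I, ∀ i' ∈ I, f i ≠ f i' → Disjoint (Q i) (Q i')) (X : ι → (J → Fin M) → ℝ)
    {B m m0 s : ℝ}
    (hB : 0 < B) (hX : ∀ i ∈ I, DepOnI (Q i) (X i)) (h0 : ∀ i ∈ I, ∀ ω, 0 ≤ X i ω)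
    (hXB : ∀ i ∈ I, ∀ ω, X i ω ≤ B) (hm0 : 0 < m) (hm : ∑ i ∈ I, ex (X i) ≤ m)
    (hmm : m0 ≤ ∑ i ∈ I, ex (X i)) (hs : 0 ≤ s) (hs2 : s ≤ 2 * m) :
    pr (fun ω => ∑ i ∈ I, X i ω ≤ m0 - s) ≤ Real.exp (-(s ^ 2 / (8 * B * m))) := by
  obtain ⟨h1, h2, h3, h4, h5⟩ := grp_aux I f hf Q hQ X hB.le hX h0 hXB
  have h6 := chern_low hM (I.image f) (fun k => (I.filter fun i => f i = k).biUnion Q)
    (fun k ω => ∑ i ∈ I with f i = k, X i ω) (B := 2 * B) (m := m) (m0 := m0) (s := s) h1 h2 h3 h4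
    (by positivity) hm0 (by rw [grp_ex]; exact hm) (by rw [grp_ex]; exact hmm) hs hs2
  simp only [h5] at h6
  have e1 : 4 * (2 * B) * m = 8 * B * m := by ring
  rw [e1] at h6
  exact h6

end Group

section Cond

variable {J : Type u} [Fintype J] {M : ℕ}

/-- conditioning on the coordinates in `Q` -/
theorem pr_cond (hM : 0 < M) (Q : Finset J) (E : (J → Fin M) → Prop) {p : ℝ}
    (h : ∀ ω0 : J → Fin M, pr (fun ω => E (mg Q ω0 ω)) ≤ p) : pr E ≤ p := by
  have hc := card_pos (J := J) hM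
  have h1 : (Fintype.card (J → Fin M) : ℝ) * ∑ a, ind E a =
      ∑ a, ∑ b, ind E (mg Q a b) := by
    rw [← sum_fst, sum_mg Q]
  have h2 : ∀ a : J → Fin M, ∑ b, ind E (mg Q a b) ≤ p * Fintype.card (J → Fin M) := by
    intro a
    have h3 := h a
    rw [pr_ex, ex, div_le_iff₀ hc] at h3
    exact h3
  have h4 : (Fintype.card (J → Fin M) : ℝ) * ∑ a, ind E a ≤
      Fintype.card (J → Fin M) * (p * Fintype.card (J → Fin M)) := by
    rw [h1]
    refine (sum_le_card_nsmul univ _ _ fun a _ => h2 a).trans ?_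
    rw [nsmul_eq_mul, card_univ]
  rw [pr_ex, ex, div_le_iff₀ hc]
  exact le_of_mul_le_mul_left h4 hc

omit [Fintype J] in
theorem mg_mem {Q : Finset J} {a b : J → Fin M} {j : J} (h : j ∈ Q) : mg Q a b j = a j := if_pos h

omit [Fintype J] in
theorem mg_not {Q : Finset J} {a b : J → Fin M} {j : J} (h : j ∉ Q) : mg Q a b j = b j := if_neg h

end Cond

section LLL

variable {J : Type u} [Fintype J] {M : ℕ}

/-- local lemma for one event at every vertex -/
theorem lll_simple (hM : 0 < M) {V : Type u} [Fintype V] (E : V → (J → Fin M) → Prop)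
    (Q : V → Finset J) (hE : ∀ v, DepOnI (Q v) (E v)) (hne : ∀ v, (Q v).Nonempty) {q n p : ℝ}
    (hq1 : 1 ≤ q) (hq : ∀ v, (#(Q v) : ℝ) ≤ q) (hn : ∀ y, (#{v | y ∈ Q v} : ℝ) ≤ n)
    (hp : ∀ v, pr (E v) ≤ p) (hp0 : 0 ≤ p) (h : 8 * n * q * p ≤ 1) : ∃ ω, ∀ v, ¬ E v ω := by
  have hL : Stmt_LLLI.{u} := Pool.Agent.Work.MP_db9399_all.stmt_LLLI
  refine hL J M V (1 / (4 * q)) Q (fun _ => 2 * p) (fun v ω => ¬ E v ω) hM (by positivity) ?_ ?_ ?_
  · rw [div_le_div_iff₀ (by positivity) (by norm_num)]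
    linarith
  · intro v
    refine ⟨PUnit, inferInstance, fun _ => Q v, fun _ => E v, fun _ => hE v, fun _ => hne v,
      fun _ => le_rfl, ?_, fun f hf => hf PUnit.unit⟩
    rw [Fintype.sum_unique]
    have h1 : 2 * (1 / (4 * q)) * (#(Q v) : ℝ) ≤ 1 / 2 := by
      have := hq v
      rw [mul_one_div, div_mul_eq_mul_div, div_le_div_iff₀ (by positivity) (by norm_num)]
      linarith
    have h2 : Real.exp (1 / 2) ≤ 2 := by
      have h3 := Real.exp_bound_div_one_sub_of_interval (x := 1 / 2) (by norm_num) (by norm_num)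
      norm_num at h3 ⊢
      exact h3
    have h4 := (Real.exp_le_exp.2 h1).trans h2
    calc pr (E v) * Real.exp (2 * (1 / (4 * q)) * (#(Q v) : ℝ)) ≤ p * 2 :=
          mul_le_mul (hp v) h4 (Real.exp_pos _).le hp0
      _ = 2 * p := by ring
  · intro y
    rw [sum_const, nsmul_eq_mul, le_div_iff₀ (by positivity)]
    have := hn y
    have h1 : (#{v | y ∈ Q v} : ℝ) * (2 * p) * (4 * q) ≤ n * (2 * p) * (4 * q) := by
      refine mul_le_mul_of_nonneg_right (mul_le_mul_of_nonneg_right this (by positivity))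
        (by positivity)
    linarith

end LLL

end Pool.Agent.Work.MP_db9399_en
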